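import Pool.Agent.NH98.RT.StmX
import Pool.Agent.TH270.MS.GrowthF

/-! # RT-4: the completed `L`-function of the newform of an elliptic curve -/

set_option autoImplicit false

open MeasureTheory Filter Topology Set CongruenceSubgroup
open scoped MatrixGroups
open Pool.Agent.TH941
open Pool.Agent.W165.RS (ac ac_zero)
open Pool.Agent.W263.BSD (IsLSeries GoodPrime pointCount good_of_large)
open Pool.Agent.TH942.RZ Pool.Agent.TH942.RZ.Growth
open Pool.Agent.TH270.MS Pool.Agent.TH270.MS.EQ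

namespace Pool.Agent.NH98.RT.Xi

lemma norm_pz_le {p : ℕ} (hp : p.Prime) {z : ℂ} (hz : 1 ≤ z.re) : ‖(p : ℂ) ^ (-z)‖ ≤ 1 / p := by
  have hp0 : (0 : ℝ) < p := by exact_mod_cast hp.pos
  rw [Complex.norm_natCast_cpow_of_pos hp.pos, Complex.neg_re, one_div, ← Real.rpow_neg_one]
  exact Real.rpow_le_rpow_of_exponent_le (by exact_mod_cast hp.one_le) (by linarith)

lemma one_sub_ne {w : ℂ} (hw : ‖w‖ < 1) : 1 - w ≠ 0 := by
  intro h
  have : w = 1 := by linear_combination -h
  rw [this, norm_one] at hw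
  exact lt_irrefl _ hw

/-- the Euler factors have no zeros for `Re z ≥ 1` -/
lemma Ef_ne {N : ℕ} [NeZero N] {f : CuspForm (Gamma0 N : Subgroup (GL (Fin 2) ℝ)) 2}
    (hf : Hecke f) {p : ℕ} (hp : p.Prime) {z : ℂ} (hz : 1 ≤ z.re) : Ef (ac f) N p z ≠ 0 := by
  have hp0 : (0 : ℝ) < p := by exact_mod_cast hp.pos
  have hp2 : (2 : ℝ) ≤ p := by exact_mod_cast hp.two_le
  have h1 := norm_pz_le hp hz
  unfold Ef
  by_cases hN : p ∣ N
  · rw [if_pos hN, add_zero]
    apply one_sub_ne
    rw [norm_mul]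
    calc ‖ac f p‖ * ‖(p : ℂ) ^ (-z)‖ ≤ 1 * (1 / p) :=
          mul_le_mul (hf.bad p hp hN) h1 (norm_nonneg _) zero_le_one
      _ < 1 := by
          rw [one_mul, div_lt_one hp0]
          linarith
  · rw [if_neg hN, cpow_sq hp]
    have him : ac f p = ((ac f p).re : ℂ) := by
      apply Complex.ext
      · simp
      · simp [hf.real p]
    have hb := hf.good p hp hN
    rw [him, Complex.norm_real, Real.norm_eq_abs] at hb
    obtain ⟨α, β, hα, hβ, hs, hm⟩ := exists_roots' hp0 hb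
    have hm' : (p : ℂ) = α * β := by rw [hm]; simp
    have e : 1 - ac f p * (p : ℂ) ^ (-z) + p * ((p : ℂ) ^ (-z)) ^ 2 =
        (1 - α * (p : ℂ) ^ (-z)) * (1 - β * (p : ℂ) ^ (-z)) := by
      generalize (p : ℂ) ^ (-z) = u
      rw [him, ← hs, hm']
      ring
    rw [e]
    have hsq : Real.sqrt p * (1 / p) < 1 := by
      rw [mul_one_div, div_lt_one hp0, Real.sqrt_lt' hp0]
      nlinarith
    apply mul_ne_zero
    · apply one_sub_ne
      rw [norm_mul, hα]
      exact lt_of_le_of_lt (mul_le_mul_of_nonneg_left h1 (Real.sqrt_nonneg _)) hsq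
    · apply one_sub_ne
      rw [norm_mul, hβ]
      exact lt_of_le_of_lt (mul_le_mul_of_nonneg_left h1 (Real.sqrt_nonneg _)) hsq

lemma two_pos' : (0 : ℤ) < 2 := by norm_num

lemma hasSum_LL {N : ℕ} [NeZero N] (f : CuspForm (Gamma0 N : Subgroup (GL (Fin 2) ℝ)) 2) (s : ℂ)
    (hs : 2 < s.re) : HasSum (fun n : ℕ => (UpperHalfPlane.qExpansion 1 f).coeff n / (n : ℂ) ^ s)
        (ModularForm.L (k := 2) two_pos' f s) := by
  have hw : Subgroup.strictWidthInfty (Gamma0 N : Subgroup (GL (Fin 2) ℝ)) = 1 :=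
    CongruenceSubgroup.strictWidthInfty_Gamma0 N
  have h := CuspForm.hasSum_L two_pos' f (s := s) (by norm_num; exact hs)
  rw [hw] at h
  simpa using h

lemma L_eq {N : ℕ} [NeZero N] (f : CuspForm (Gamma0 N : Subgroup (GL (Fin 2) ℝ)) 2) (s : ℂ)
    (hs : 2 < s.re) : ModularForm.L (k := 2) two_pos' f s = LSeries (ac f) s := by
  rw [← (hasSum_LL f s hs).tsum_eq, LSeries]
  refine tsum_congr fun n => ?_
  rcases Nat.eq_zero_or_pos n with h0 | h0
  · subst h0
    have hs0 : s ≠ 0 := by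
      intro h
      rw [h] at hs
      norm_num at hs
    simp [Complex.zero_cpow hs0]
  · rw [LSeries.term_of_ne_zero h0.ne']
    rfl

/-- the relation between the incomplete `L`-series and the `L`-function of the newform -/
theorem rel {a b : ℤ} {F : ℂ → ℂ} (hΔ : 4 * a ^ 3 + 27 * b ^ 2 ≠ 0) (hF : IsLSeries a b F)
    {N : ℕ} [NeZero N] {f : CuspForm (Gamma0 N : Subgroup (GL (Fin 2) ℝ)) 2} (hf : Hecke f)
    (hb : Belongs a b f) :
    ∃ P1 P2 : ℂ → ℂ, Differentiable ℂ P1 ∧ Differentiable ℂ P2 ∧ (∀ z : ℂ, 1 ≤ z.re → P1 z ≠ 0) ∧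
      (∀ z : ℂ, 1 ≤ z.re → P2 z ≠ 0) ∧
      ∀ z : ℂ, F z * P2 z = ModularForm.L (k := 2) two_pos' f z * P1 z := by
  classical
  obtain ⟨C, hC, hS⟩ := partial_sum_bound f
  obtain ⟨G, hGe⟩ : ∃ G : ℂ → ℂ, G = ModularForm.L (k := 2) two_pos' f := ⟨_, rfl⟩
  have hGd : Differentiable ℂ G := by rw [hGe]; exact CuspForm.differentiable_L two_pos' f
  have hGL : ∀ z : ℂ, 3 < z.re → G z = LSeries (ac f) z := fun z hz => by
    rw [hGe]; exact L_eq f z (by linarith)
  have hS' : ∀ M : ℕ, ‖∑ k ∈ Finset.Icc 1 M, ac f k‖ ≤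
      C * ((M : ℝ) + 1) * (1 + Real.log ((M : ℝ) + 1)) := by
    intro M
    have e : ∑ n ∈ Finset.range (M + 1), ac f n = ∑ k ∈ Finset.Icc 1 M, ac f k := by
      have : Finset.range (M + 1) = insert 0 (Finset.Icc 1 M) := by
        ext x
        simp only [Finset.mem_range, Finset.mem_insert, Finset.mem_Icc]
        omega
      rw [this, Finset.sum_insert (by simp), ac_zero, zero_add]
    rw [← e]
    exact hS M
  obtain ⟨D, hD⟩ := good_of_large hΔ
  have hN0 : N ≠ 0 := NeZero.ne N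
  obtain ⟨S, hSe⟩ : ∃ S : Finset ℕ, S = (Finset.range (D + N + 1)).filter
      (fun p => p.Prime ∧ (¬ GoodPrime a b p ∨ p ∣ N)) := ⟨_, rfl⟩
  have hSp : ∀ p ∈ S, p.Prime := by
    intro p hp
    rw [hSe, Finset.mem_filter] at hp
    exact hp.2.1
  have hSn : ∀ p : ℕ, p.Prime → p ∉ S → GoodPrime a b p ∧ ¬ p ∣ N := by
    intro p hp hpS
    rw [hSe, Finset.mem_filter, Finset.mem_range] at hpS
    by_cases hlt : p < D + N + 1
    · by_contra hcon
      apply hpS
      refine ⟨hlt, hp, ?_⟩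
      tauto
    · refine ⟨hD p hp (by omega), fun hd => ?_⟩
      have := Nat.le_of_dvd (Nat.pos_of_ne_zero hN0) hd
      omega
  have hSg : ∀ p ∈ S, GoodPrime a b p → 3 ≤ p ∧
      ‖(p : ℂ) - (pointCount a b p : ℂ)‖ ≤ 1 := by
    intro p hp hg
    rw [hSe, Finset.mem_filter] at hp
    have hdN : p ∣ N := by
      rcases hp.2.2 with h | h
      · exact absurd hg h
      · exact h
    constructor
    · have h2 := hp.2.1.two_le
      rcases Nat.lt_or_ge p 3 with h | h
      · exfalso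
        have hp2 : p = 2 := by omega
        apply hg.2
        rw [hp2]
        exact Dvd.intro _ rfl
      · exact h
    · rw [← hb p hg]
      exact hf.bad p hp.2.1 hdN
  obtain ⟨P1, hP1⟩ : ∃ P1 : ℂ → ℂ, P1 = fun z => ∏ p ∈ S, Ef (ac f) N p z := ⟨_, rfl⟩
  obtain ⟨P2, hP2⟩ : ∃ P2 : ℂ → ℂ, P2 = fun z => ∏ p ∈ S,
    (if GoodPrime a b p then Df a b p z else 1) := ⟨_, rfl⟩
  have hP1d : Differentiable ℂ P1 := by
    rw [hP1]
    intro w
    refine DifferentiableAt.fun_finsetProd fun p hp => ?_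
    exact Ef_differentiable _ _ (hSp p hp) w
  have hP2d : Differentiable ℂ P2 := by
    rw [hP2]
    intro w
    refine DifferentiableAt.fun_finsetProd fun p hp => ?_
    split_ifs
    · exact Df_differentiable _ _ (hSp p hp) w
    · exact differentiableAt_const _
  have hA1 : AnalyticOnNhd ℂ (fun z => F z * P2 z) Set.univ :=
    (hF.1.mul hP2d).differentiableOn.analyticOnNhd isOpen_univ
  have hA2 : AnalyticOnNhd ℂ (fun z => G z * P1 z) Set.univ :=
    (hGd.mul hP1d).differentiableOn.analyticOnNhd isOpen_univ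
  have hEq : Set.EqOn (fun z => F z * P2 z) (fun z => G z * P1 z) Set.univ := by
    refine hA1.eqOn_of_preconnected_of_eventuallyEq hA2 isPreconnected_univ (z₀ := 4)
      (Set.mem_univ _) ?_
    have hV : IsOpen {z : ℂ | 3 < z.re} := isOpen_lt continuous_const Complex.continuous_re
    have h4 : (4 : ℂ) ∈ {z : ℂ | 3 < z.re} := by
      show (3 : ℝ) < (4 : ℂ).re
      norm_num
    filter_upwards [hV.mem_nhds h4] with z hz
    have hz' : 3 < z.re := hz
    have hk := key_identity hF hf hb hz' (lsummable hC hS' hz') S hSp hSn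
    have h5 : G z = LSeries (ac f) z := hGL z hz'
    rw [← h5] at hk
    rw [hP1, hP2]
    exact hk
  refine ⟨P1, P2, hP1d, hP2d, ?_, ?_, fun z => ?_⟩
  · intro z hz
    rw [hP1]
    exact Finset.prod_ne_zero_iff.2 fun p hp => Ef_ne hf (hSp p hp) hz
  · intro z hz
    rw [hP2]
    refine Finset.prod_ne_zero_iff.2 fun p hp => ?_
    split_ifs with hg
    · obtain ⟨h3, h1⟩ := hSg p hp hg
      have := Df_ge' (hSp p hp) h3 h1 (show 7 / 8 < z.re by linarith)
      intro h0
      rw [h0, norm_zero] at this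
      norm_num at this
    · exact one_ne_zero
  · rw [← hGe]
    exact hEq (Set.mem_univ z)

/-- the completed function -/
noncomputable def Lam {N : ℕ} [NeZero N] (f : CuspForm (Gamma0 N : Subgroup (GL (Fin 2) ℝ)) 2) :
    ℂ → ℂ := mellin (fun t : ℝ => f (UpperHalfPlane.ofComplex (Complex.I * t)))

section

variable {N : ℕ} [NeZero N] (f : CuspForm (Gamma0 N : Subgroup (GL (Fin 2) ℝ)) 2)

lemma Lam_eq : Lam f = ModularForm.Λ (k := 2) two_pos' f := (CuspForm.Λ_eq_mellin two_pos' f).symm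

lemma Lam_diff : Differentiable ℂ (Lam f) := by
  rw [Lam_eq]; exact CuspForm.differentiable_Λ two_pos' f

lemma conv (s : ℂ) : MellinConvergent (fun t : ℝ => f (UpperHalfPlane.ofComplex (Complex.I * t))) s :=
  ((CuspForm.isStrongFEPair two_pos' f).hasMellin s).1

lemma L_Lam (s : ℂ) : ModularForm.L (k := 2) two_pos' f s =
    (2 * Real.pi : ℂ) ^ s * (Lam f s * (Complex.Gamma s)⁻¹) := by
  rw [Lam_eq]
  show ModularForm.Λ two_pos' f s * (2 / Complex.Gammaℂ s) = _
  rw [Complex.Gammaℂ, ← div_div, ← div_div, div_self two_ne_zero, one_div, Complex.cpow_neg, inv_inv]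
  ring

lemma integrable_real (x : ℝ) : IntegrableOn
    (fun t : ℝ => t ^ (x - 1) * ‖f (UpperHalfPlane.ofComplex (Complex.I * t))‖) (Ioi 0) := by
  refine IntegrableOn.congr_fun (conv f x).norm ?_ measurableSet_Ioi
  intro t ht
  have ht : 0 < t := ht
  simp only [norm_smul]
  rw [Complex.norm_cpow_eq_rpow_re_of_pos ht]
  simp

lemma tendsto_atImInfty : Tendsto (fun t : ℝ ↦ UpperHalfPlane.ofComplex (Complex.I * t)) atTop
    UpperHalfPlane.atImInfty := by
  rw [UpperHalfPlane.atImInfty, tendsto_comap_iff]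
  refine tendsto_id.congr' ?_
  filter_upwards [eventually_gt_atTop 0] with t ht
  simp [UpperHalfPlane.ofComplex_apply_of_im_pos, ht, ← UpperHalfPlane.coe_im]

/-- exponential decay on the imaginary axis -/
lemma decay : ∃ c A T : ℝ, 0 < c ∧ 0 ≤ A ∧ 1 ≤ T ∧ ∀ t : ℝ, T < t →
    ‖f (UpperHalfPlane.ofComplex (Complex.I * t))‖ ≤ A * Real.exp (-(c * t)) := by
  obtain ⟨c, hc, hO⟩ := CuspFormClass.exp_decay_atImInfty' f
  have h1 := hO.comp_tendsto tendsto_atImInfty
  obtain ⟨A, hA⟩ := h1.bound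
  obtain ⟨T, hT⟩ := (hA.and (eventually_gt_atTop 0)).exists_forall_of_atTop
  refine ⟨c, |A|, max T 1, hc, abs_nonneg _, le_max_right _ _, fun t ht => ?_⟩
  obtain ⟨h2, h3⟩ := hT t ((le_max_left _ _).trans ht.le)
  simp only [Function.comp_apply] at h2
  have e : (UpperHalfPlane.ofComplex (Complex.I * t)).im = t := by
    simp [UpperHalfPlane.ofComplex_apply_of_im_pos, h3, ← UpperHalfPlane.coe_im]
  rw [e, Real.norm_of_nonneg (Real.exp_pos _).le] at h2
  refine h2.trans ?_
  have : -c * t = -(c * t) := by ring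
  rw [this]
  gcongr
  exact le_abs_self A

/-- growth of the Mellin transform to the right -/
lemma growth_right : ∃ K : ℝ, 0 ≤ K ∧ ∀ s : ℂ, 0 ≤ s.re →
    ‖Lam f (1 + s)‖ ≤ Real.exp (K * (1 + ‖s‖) * Real.log (2 + ‖s‖)) := by
  obtain ⟨c, A, T, hc, hA, hT, hdec⟩ := decay f
  set g : ℝ → ℝ := fun t => ‖f (UpperHalfPlane.ofComplex (Complex.I * t))‖ with hg
  have hg0 : ∀ t, 0 ≤ g t := fun t => norm_nonneg _
  have hint : ∀ x : ℝ, IntegrableOn (fun t : ℝ => t ^ x * g t) (Ioi 0) := by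
    intro x
    have := integrable_real f (x + 1)
    simpa using this
  have hgi : IntegrableOn g (Ioi 0) := by
    have := hint 0
    simpa using this
  set A0 : ℝ := ∫ t in Ioi (0 : ℝ), g t with hA0
  have hA00 : 0 ≤ A0 := integral_nonneg fun t => hg0 t
  have hA1i : IntegrableOn (fun t : ℝ => A * Real.exp (-(c / 2) * t)) (Ioi T) :=
    (integrableOn_exp_mul_Ioi (by linarith) T).const_mul A
  set A1 : ℝ := ∫ t in Ioi T, A * Real.exp (-(c / 2) * t) with hA1
  have hA10 : 0 ≤ A1 := integral_nonneg fun t => mul_nonneg hA (Real.exp_pos _).le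
  have hT0 : 0 < T := by linarith
  -- the bound for real exponents
  have hM : ∀ x : ℝ, 0 ≤ x → ∫ t in Ioi (0 : ℝ), t ^ x * g t ≤
      T ^ x * A0 + Real.exp (x * Real.log (2 * (1 + x) / c)) * A1 := by
    intro x hx
    have hsplit : Ioi (0 : ℝ) = Ioc 0 T ∪ Ioi T := (Ioc_union_Ioi_eq_Ioi hT0.le).symm
    rw [hsplit, setIntegral_union (Ioc_disjoint_Ioi le_rfl) measurableSet_Ioi
      ((hint x).mono_set Ioc_subset_Ioi_self) ((hint x).mono_set (Ioi_subset_Ioi hT0.le))]
    apply add_le_add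
    · calc ∫ t in Ioc 0 T, t ^ x * g t ≤ ∫ t in Ioc 0 T, T ^ x * g t := by
            apply setIntegral_mono_on ((hint x).mono_set Ioc_subset_Ioi_self)
              ((hgi.mono_set Ioc_subset_Ioi_self).const_mul _) measurableSet_Ioc
            intro t ht
            exact mul_le_mul_of_nonneg_right (Real.rpow_le_rpow ht.1.le ht.2 hx) (hg0 t)
        _ = T ^ x * ∫ t in Ioc 0 T, g t := integral_const_mul _ _
        _ ≤ T ^ x * A0 := by
            apply mul_le_mul_of_nonneg_left _ (Real.rpow_nonneg hT0.le _)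
            exact setIntegral_mono_set hgi (ae_of_all _ hg0) (Ioc_subset_Ioi_self.eventuallyLE)
    · have hpt : ∀ t : ℝ, T < t → t ^ x * g t ≤ Real.exp (x * Real.log (2 * (1 + x) / c)) *
          (A * Real.exp (-(c / 2) * t)) := by
        intro t ht
        have ht0 : 0 < t := hT0.trans ht
        have ha : 0 < 2 * (1 + x) / c := by positivity
        have h1 : Real.log (t / (2 * (1 + x) / c)) ≤ t / (2 * (1 + x) / c) - 1 :=
          Real.log_le_sub_one_of_pos (div_pos ht0 ha)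
        rw [Real.log_div ht0.ne' ha.ne'] at h1
        have h2 : x * Real.log t ≤ c / 2 * t + x * Real.log (2 * (1 + x) / c) := by
          have h3 : x * (t / (2 * (1 + x) / c) - 1) ≤ c / 2 * t := by
            have h4 : t / (2 * (1 + x) / c) = c * t / (2 * (1 + x)) := by field_simp
            have h5 : x * (c * t / (2 * (1 + x))) ≤ (1 + x) * (c * t / (2 * (1 + x))) := by
              apply mul_le_mul_of_nonneg_right (by linarith)
              positivity
            have h6 : (1 + x) * (c * t / (2 * (1 + x))) = c / 2 * t := by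
              field_simp
            rw [h4]
            nlinarith
          nlinarith [mul_le_mul_of_nonneg_left h1 hx]
        have h7 : t ^ x ≤ Real.exp (c / 2 * t) * Real.exp (x * Real.log (2 * (1 + x) / c)) := by
          rw [Real.rpow_def_of_pos ht0, ← Real.exp_add]
          apply Real.exp_le_exp.2
          linarith [mul_comm x (Real.log t)]
        calc t ^ x * g t ≤ (Real.exp (c / 2 * t) * Real.exp (x * Real.log (2 * (1 + x) / c))) *
              (A * Real.exp (-(c * t))) :=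
              mul_le_mul h7 (hdec t ht) (hg0 t) (by positivity)
          _ = Real.exp (x * Real.log (2 * (1 + x) / c)) *
              (A * (Real.exp (c / 2 * t) * Real.exp (-(c * t)))) := by ring
          _ = _ := by
              rw [← Real.exp_add]
              congr 3
              ring
      calc ∫ t in Ioi T, t ^ x * g t ≤ ∫ t in Ioi T, Real.exp (x * Real.log (2 * (1 + x) / c)) *
          (A * Real.exp (-(c / 2) * t)) := by
            apply setIntegral_mono_on ((hint x).mono_set (Ioi_subset_Ioi hT0.le))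
              (hA1i.const_mul _) measurableSet_Ioi
            intro t ht
            exact hpt t ht
        _ = _ := integral_const_mul _ _
  have hLam : ∀ s : ℂ, ‖Lam f (1 + s)‖ ≤ ∫ t in Ioi (0 : ℝ), t ^ s.re * g t := by
    intro s
    unfold Lam mellin
    refine (norm_integral_le_integral_norm _).trans_eq ?_
    apply setIntegral_congr_fun measurableSet_Ioi
    intro t ht
    have ht : 0 < t := ht
    simp only [norm_smul]
    rw [Complex.norm_cpow_eq_rpow_re_of_pos ht]
    simp [hg]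
  -- collect
  have hl2 : 0 < Real.log 2 := Real.log_pos (by norm_num)
  refine ⟨(Real.log T / Real.log 2 + A0 / Real.log 2) +
    (|Real.log (2 / c)| / Real.log 2 + 1 + A1 / Real.log 2) + 1, ?_, fun s hs => ?_⟩
  · have := Real.log_nonneg hT
    positivity
  have hy : s.re ≤ ‖s‖ := (le_abs_self _).trans (Complex.abs_re_le_norm s)
  set x := s.re with hxdef
  set y := ‖s‖ with hydef
  have hy0 : 0 ≤ y := norm_nonneg s
  set L : ℝ := Real.log (2 + y) with hL
  have hL2 : Real.log 2 ≤ L := Real.log_le_log (by norm_num) (by linarith)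
  have hL0 : 0 < L := hl2.trans_le hL2
  set Y : ℝ := (1 + y) * L with hY
  have hlY : ∀ u : ℝ, 0 ≤ u → u * (1 + y) ≤ u / Real.log 2 * Y := by
    intro u hu
    rw [hY, div_mul_eq_mul_div, le_div_iff₀ hl2]
    have : u * (1 + y) * Real.log 2 ≤ u * (1 + y) * L :=
      mul_le_mul_of_nonneg_left hL2 (by positivity)
    nlinarith
  have hY1 : Real.log 2 ≤ Y := by
    rw [hY]
    nlinarith
  have hY0 : 0 < Y := hl2.trans_le hY1
  -- first term
  have e1 : T ^ x * A0 ≤ Real.exp ((Real.log T / Real.log 2 + A0 / Real.log 2) * Y) := by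
    have h1 : T ^ x ≤ Real.exp (Real.log T / Real.log 2 * Y) := by
      rw [Real.rpow_def_of_pos hT0]
      apply Real.exp_le_exp.2
      have h2 := hlY (Real.log T) (Real.log_nonneg hT)
      have h3 : Real.log T * x ≤ Real.log T * (1 + y) :=
        mul_le_mul_of_nonneg_left (by linarith) (Real.log_nonneg hT)
      linarith
    have h4 : A0 ≤ Real.exp (A0 / Real.log 2 * Y) := by
      have h5 := hlY A0 hA00
      have h6 : A0 ≤ A0 * (1 + y) := by nlinarith
      have h7 := Real.add_one_le_exp (A0 / Real.log 2 * Y)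
      linarith
    rw [add_mul, Real.exp_add]
    exact mul_le_mul h1 h4 hA00 (Real.exp_pos _).le
  -- second term
  have e2 : Real.exp (x * Real.log (2 * (1 + x) / c)) * A1 ≤
      Real.exp ((|Real.log (2 / c)| / Real.log 2 + 1 + A1 / Real.log 2) * Y) := by
    have h1 : x * Real.log (2 * (1 + x) / c) ≤ (|Real.log (2 / c)| / Real.log 2 + 1) * Y := by
      have h2 : Real.log (2 * (1 + x) / c) = Real.log (2 / c) + Real.log (1 + x) := by
        rw [← Real.log_mul (by positivity) (by positivity)]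
        congr 1
        ring
      have h3 : Real.log (1 + x) ≤ L := Real.log_le_log (by linarith) (by linarith)
      have h3' : 0 ≤ Real.log (1 + x) := Real.log_nonneg (by linarith)
      have h4 : x * Real.log (2 / c) ≤ |Real.log (2 / c)| * (1 + y) := by
        have h5 : x * Real.log (2 / c) ≤ x * |Real.log (2 / c)| :=
          mul_le_mul_of_nonneg_left (le_abs_self _) hs
        have h6 : x * |Real.log (2 / c)| ≤ (1 + y) * |Real.log (2 / c)| :=
          mul_le_mul_of_nonneg_right (by linarith) (abs_nonneg _)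
        linarith
      have h7 := hlY |Real.log (2 / c)| (abs_nonneg _)
      have h8 : x * Real.log (1 + x) ≤ Y := by
        rw [hY]
        exact mul_le_mul (by linarith) h3 h3' (by linarith)
      rw [h2, add_mul, one_mul, mul_add]
      linarith
    have h4 : A1 ≤ Real.exp (A1 / Real.log 2 * Y) := by
      have h5 := hlY A1 hA10
      have h6 : A1 ≤ A1 * (1 + y) := by nlinarith
      have h7 := Real.add_one_le_exp (A1 / Real.log 2 * Y)
      linarith
    rw [add_mul _ (A1 / Real.log 2), Real.exp_add]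
    exact mul_le_mul (Real.exp_le_exp.2 h1) h4 hA10 (Real.exp_pos _).le
  have hU : 0 ≤ (Real.log T / Real.log 2 + A0 / Real.log 2) * Y := by
    have := Real.log_nonneg hT
    positivity
  have hV : 0 ≤ (|Real.log (2 / c)| / Real.log 2 + 1 + A1 / Real.log 2) * Y := by positivity
  set U := (Real.log T / Real.log 2 + A0 / Real.log 2) * Y with hUd
  set V := (|Real.log (2 / c)| / Real.log 2 + 1 + A1 / Real.log 2) * Y with hVd
  have e3 : Real.exp U + Real.exp V ≤ Real.exp (U + V + Y) := by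
    have h1 : Real.exp U ≤ Real.exp (U + V) := Real.exp_le_exp.2 (by linarith)
    have h2 : Real.exp V ≤ Real.exp (U + V) := Real.exp_le_exp.2 (by linarith)
    have h3 : (2 : ℝ) ≤ Real.exp Y := by
      calc (2 : ℝ) = Real.exp (Real.log 2) := (Real.exp_log (by norm_num)).symm
        _ ≤ _ := Real.exp_le_exp.2 hY1
    rw [Real.exp_add (U + V)]
    nlinarith [Real.exp_pos (U + V)]
  have e4 : ((Real.log T / Real.log 2 + A0 / Real.log 2) +
    (|Real.log (2 / c)| / Real.log 2 + 1 + A1 / Real.log 2) + 1) * (1 + y) * L = U + V + Y := by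
    rw [hUd, hVd, hY]
    ring
  rw [e4]
  calc ‖Lam f (1 + s)‖ ≤ ∫ t in Ioi (0 : ℝ), t ^ x * g t := hLam s
    _ ≤ _ := hM x hs
    _ ≤ Real.exp U + Real.exp V := add_le_add e1 e2
    _ ≤ _ := e3

/-- the function `ξ` -/
noncomputable def xi (s : ℂ) : ℂ := (N : ℂ) ^ (s / 2) * Lam f (1 + s)

lemma xi_diff : Differentiable ℂ (xi f) := by
  have hN : (N : ℂ) ≠ 0 := by exact_mod_cast NeZero.ne N
  have h1 : Differentiable ℂ fun s : ℂ => (N : ℂ) ^ (s / 2) := by
    intro s
    refine DifferentiableAt.const_cpow ?_ (Or.inl hN)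
    fun_prop
  exact h1.mul ((Lam_diff f).comp (by fun_prop))

/-- the functional equation -/
lemma xi_fe {w : ℂ} (hfr : ∀ z z' : UpperHalfPlane, (z' : ℂ) = -1 / ((N : ℂ) * (z : ℂ)) →
    f z' = w * (N : ℂ) * (z : ℂ) ^ 2 * f z) (s : ℂ) : xi f (-s) = (-w) * xi f s := by
  have hN : (N : ℂ) ≠ 0 := by exact_mod_cast NeZero.ne N
  have hN0 : (0 : ℝ) < N := by exact_mod_cast Nat.pos_of_ne_zero (NeZero.ne N)
  -- the Fricke relation on the imaginary axis
  have h1 : ∀ t : ℝ, 0 < t → f (UpperHalfPlane.ofComplex (Complex.I * ((N * t)⁻¹ : ℝ))) =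
      (-w * N) * ((t : ℂ) ^ (2 : ℂ) * f (UpperHalfPlane.ofComplex (Complex.I * t))) := by
    intro t ht
    have hp1 : 0 < (Complex.I * t : ℂ).im := by simpa using ht
    have hp2 : 0 < (Complex.I * (((N : ℝ) * t)⁻¹ : ℝ) : ℂ).im := by
      have : 0 < ((N : ℝ) * t)⁻¹ := by positivity
      simp only [Complex.mul_im, Complex.I_re, Complex.I_im, Complex.ofReal_re, Complex.ofReal_im]
      linarith
    have h2 := hfr (UpperHalfPlane.ofComplex (Complex.I * t))
      (UpperHalfPlane.ofComplex (Complex.I * (((N : ℝ) * t)⁻¹ : ℝ))) (by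
        rw [UpperHalfPlane.ofComplex_apply_of_im_pos hp1, UpperHalfPlane.ofComplex_apply_of_im_pos hp2]
        show (Complex.I * (((N : ℝ) * t)⁻¹ : ℝ) : ℂ) = -1 / ((N : ℂ) * (Complex.I * t))
        have ht' : (t : ℂ) ≠ 0 := by exact_mod_cast ht.ne'
        push_cast
        field_simp
        rw [Complex.I_sq])
    rw [h2, UpperHalfPlane.ofComplex_apply_of_im_pos hp1]
    show w * N * (Complex.I * t) ^ 2 * _ = _
    rw [mul_pow, Complex.I_sq, Complex.cpow_ofNat]
    ring
  have h2 : (N : ℂ) ^ (1 - s) * Lam f (1 - s) = (-w * N) * Lam f (1 + s) := by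
    have h3 := mellin_comp_mul_left
      (fun t : ℝ => f (UpperHalfPlane.ofComplex (Complex.I * (t⁻¹ : ℝ)))) (s - 1) hN0
    have h4 := mellin_comp_inv
      (fun t : ℝ => f (UpperHalfPlane.ofComplex (Complex.I * t))) (s - 1)
    rw [h4] at h3
    have h5 : mellin (fun t : ℝ => f (UpperHalfPlane.ofComplex (Complex.I * ((N * t)⁻¹ : ℝ)))) (s - 1) =
        mellin (fun t : ℝ => (-w * N) • ((t : ℂ) ^ (2 : ℂ) •
          f (UpperHalfPlane.ofComplex (Complex.I * t)))) (s - 1) := by
      unfold mellin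
      apply setIntegral_congr_fun measurableSet_Ioi
      intro t ht
      simp only
      rw [h1 t ht]
      simp [smul_eq_mul]
    rw [h5, mellin_const_smul, mellin_cpow_smul] at h3
    rw [show s - 1 + 2 = 1 + s by ring, show -(s - 1) = 1 - s by ring] at h3
    simp only [smul_eq_mul, Complex.ofReal_natCast] at h3
    exact h3.symm
  unfold xi
  have e1 : (1 : ℂ) + -s = 1 - s := by ring
  rw [e1]
  have hne : (N : ℂ) ^ (1 - s) ≠ 0 := by
    rw [Complex.cpow_ne_zero_iff]
    left; exact hN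
  have h3 : Lam f (1 - s) = ((N : ℂ) ^ (1 - s))⁻¹ * ((-w * N) * Lam f (1 + s)) := by
    rw [← h2, ← mul_assoc, inv_mul_cancel₀ hne, one_mul]
  rw [h3, ← Complex.cpow_neg]
  have e2 : (N : ℂ) ^ (-s / 2) * ((N : ℂ) ^ (-(1 - s)) * (-w * N * Lam f (1 + s))) =
      -w * (((N : ℂ) ^ (-s / 2) * (N : ℂ) ^ (-(1 - s)) * (N : ℂ) ^ (1 : ℂ)) * Lam f (1 + s)) := by
    rw [Complex.cpow_one]
    ring
  rw [e2, ← Complex.cpow_add _ _ hN, ← Complex.cpow_add _ _ hN]
  rw [show -s / 2 + -(1 - s) + 1 = s / 2 by ring]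

/-- growth -/
lemma xi_growth {w : ℂ} (hw : ‖w‖ = 1) (hfe : ∀ s : ℂ, xi f (-s) = w * xi f s) : ∃ C : ℝ, ∀ s : ℂ,
    ‖xi f s‖ ≤ Real.exp (C * (1 + ‖s‖) * Real.log (2 + ‖s‖)) := by
  obtain ⟨K, hK, hg⟩ := growth_right f
  have hN1 : (1 : ℝ) ≤ N := by exact_mod_cast Nat.one_le_iff_ne_zero.2 (NeZero.ne N)
  have hN0 : (0 : ℝ) < N := by linarith
  have hl2 : 0 < Real.log 2 := Real.log_pos (by norm_num)
  have hlN : 0 ≤ Real.log N := Real.log_nonneg hN1
  have hright : ∀ s : ℂ, 0 ≤ s.re → ‖xi f s‖ ≤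
      Real.exp ((K + Real.log N / Real.log 2) * (1 + ‖s‖) * Real.log (2 + ‖s‖)) := by
    intro s hs
    unfold xi
    rw [norm_mul]
    have h1 : ‖(N : ℂ) ^ (s / 2)‖ ≤ Real.exp (Real.log N / Real.log 2 * (1 + ‖s‖) * Real.log (2 + ‖s‖)) := by
      have e : (N : ℂ) = ((N : ℝ) : ℂ) := by simp
      rw [e, Complex.norm_cpow_eq_rpow_re_of_pos hN0, Real.rpow_def_of_pos hN0]
      apply Real.exp_le_exp.2
      have e2 : (s / 2).re = s.re / 2 := by simp
      rw [e2]
      have hy : s.re ≤ ‖s‖ := (le_abs_self _).trans (Complex.abs_re_le_norm s)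
      have hL2 : Real.log 2 ≤ Real.log (2 + ‖s‖) :=
        Real.log_le_log (by norm_num) (by linarith [norm_nonneg s])
      calc Real.log N * (s.re / 2) ≤ Real.log N * (1 + ‖s‖) :=
            mul_le_mul_of_nonneg_left (by linarith [norm_nonneg s]) hlN
        _ = Real.log N / Real.log 2 * (1 + ‖s‖) * Real.log 2 := by field_simp
        _ ≤ _ := mul_le_mul_of_nonneg_left hL2 (by positivity)
    calc ‖(N : ℂ) ^ (s / 2)‖ * ‖Lam f (1 + s)‖ ≤
        Real.exp (Real.log N / Real.log 2 * (1 + ‖s‖) * Real.log (2 + ‖s‖)) *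
          Real.exp (K * (1 + ‖s‖) * Real.log (2 + ‖s‖)) :=
          mul_le_mul h1 (hg s hs) (norm_nonneg _) (Real.exp_pos _).le
      _ = _ := by
          rw [← Real.exp_add]
          congr 1
          ring
  refine ⟨K + Real.log N / Real.log 2, fun s => ?_⟩
  rcases le_total 0 s.re with h | h
  · exact hright s h
  · have h1 := hright (-s) (by simpa using h)
    rw [hfe s, norm_mul, hw, one_mul, norm_neg] at h1
    exact h1

/-- the lower bound on the positive axis -/
lemma xi_lower (hf : Hecke f) (K : ℝ) : ∃ σ : ℝ, 1 ≤ σ ∧ Real.exp (K * σ) < ‖xi f (σ : ℂ)‖ := by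
  have hN1 : (1 : ℝ) ≤ N := by exact_mod_cast Nat.one_le_iff_ne_zero.2 (NeZero.ne N)
  have hN0 : (0 : ℝ) < N := by linarith
  have hab : LSeries.abscissaOfAbsConv (ac f) < ⊤ := by
    have hs : LSeriesSummable (ac f) 4 := by
      have h := (hasSum_LL f 4 (by norm_num)).summable
      refine h.congr fun n => ?_
      rcases Nat.eq_zero_or_pos n with h0 | h0
      · subst h0
        simp
      · rw [LSeries.term_of_ne_zero h0.ne']
        rfl
    exact hs.abscissaOfAbsConv_le.trans_lt (by exact_mod_cast EReal.coe_lt_top _)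
  have hlim := LSeries.tendsto_atTop hab
  have h1 : Tendsto (fun n : ℕ => LSeries (ac f) ((1 + (n : ℝ) : ℝ) : ℂ)) atTop (𝓝 (ac f 1)) :=
    hlim.comp (tendsto_atTop_add_const_left _ _ tendsto_natCast_atTop_atTop)
  rw [hf.one] at h1
  have h2 : ∀ᶠ n : ℕ in atTop, 1 / 2 < ‖LSeries (ac f) ((1 + (n : ℝ) : ℝ) : ℂ)‖ := by
    have h3 := h1.norm
    rw [norm_one] at h3
    exact h3.eventually (lt_mem_nhds (by norm_num))
  set M : ℝ := 2 * Real.pi * Real.exp K with hM
  have hpi := Real.pi_pos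
  have hM0 : 0 < M := by positivity
  have h4 : ∀ᶠ n : ℕ in atTop, M ^ n / (n.factorial : ℝ) < 1 / (4 * Real.pi) :=
    (FloorSemiring.tendsto_pow_div_factorial_atTop M).eventually (gt_mem_nhds (by positivity))
  obtain ⟨n, hn1, hn2, hn3⟩ := (h2.and (h4.and (eventually_ge_atTop 2))).exists
  refine ⟨n, by exact_mod_cast (show 1 ≤ n by omega), ?_⟩
  have hre : ((1 + (n : ℝ) : ℝ) : ℂ).re = 1 + n := by simp
  have hn2' : (2 : ℝ) ≤ n := by exact_mod_cast hn3
  have hL := L_eq f ((1 + (n : ℝ) : ℝ) : ℂ) (by rw [hre]; linarith)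
  rw [← hL, L_Lam] at hn1
  have e1 : ((1 + (n : ℝ) : ℝ) : ℂ) = 1 + (n : ℂ) := by push_cast; ring
  rw [e1] at hn1
  have hG : Complex.Gamma (1 + (n : ℂ)) = (n.factorial : ℂ) := by
    rw [add_comm]
    exact Complex.Gamma_nat_eq_factorial n
  have hfac : (0 : ℝ) < n.factorial := by exact_mod_cast n.factorial_pos
  rw [hG, norm_mul, norm_mul, norm_inv, Complex.norm_natCast] at hn1
  have h5 : ‖(2 * Real.pi : ℂ) ^ (1 + (n : ℂ))‖ = (2 * Real.pi) ^ (n + 1) := by
    have e : (2 * Real.pi : ℂ) = ((2 * Real.pi : ℝ) : ℂ) := by push_cast; rfl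
    rw [e, Complex.norm_cpow_eq_rpow_re_of_pos (by positivity)]
    rw [show (1 + (n : ℂ)).re = ((n + 1 : ℕ) : ℝ) by simp; ring, Real.rpow_natCast]
  rw [h5] at hn1
  have h6 : 1 ≤ ‖(N : ℂ) ^ (((n : ℝ) : ℂ) / 2)‖ := by
    have e : (N : ℂ) = ((N : ℝ) : ℂ) := by simp
    rw [e, Complex.norm_cpow_eq_rpow_re_of_pos hN0]
    apply Real.one_le_rpow hN1
    have : (((n : ℝ) : ℂ) / 2).re = (n : ℝ) / 2 := by simp
    rw [this]
    positivity
  unfold xi
  rw [norm_mul]
  have h7 : ‖Lam f (1 + ((n : ℝ) : ℂ))‖ ≤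
      ‖(N : ℂ) ^ (((n : ℝ) : ℂ) / 2)‖ * ‖Lam f (1 + ((n : ℝ) : ℂ))‖ :=
    le_mul_of_one_le_left (norm_nonneg _) h6
  refine lt_of_lt_of_le ?_ h7
  have e2 : (1 : ℂ) + ((n : ℝ) : ℂ) = 1 + (n : ℂ) := by push_cast; ring
  rw [e2]
  -- now the numbers
  rw [div_lt_div_iff₀ hfac (by positivity), one_mul] at hn2
  have h8 : Real.exp (K * n) = Real.exp K ^ n := by
    rw [mul_comm, Real.exp_nat_mul]
  rw [h8]
  have h9 : M ^ n = (2 * Real.pi) ^ n * Real.exp K ^ n := by rw [hM, mul_pow]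
  rw [h9] at hn2
  set X := ‖Lam f (1 + (n : ℂ))‖ with hX
  have h10 : (n.factorial : ℝ) < 2 * ((2 * Real.pi) ^ (n + 1) * X) := by
    have h11 : (1 : ℝ) / 2 * n.factorial < (2 * Real.pi) ^ (n + 1) * X := by
      have := mul_lt_mul_of_pos_right hn1 hfac
      calc (1 : ℝ) / 2 * n.factorial < (2 * Real.pi) ^ (n + 1) * (X * (n.factorial : ℝ)⁻¹) * n.factorial := this
        _ = _ := by field_simp
    linarith
  have hp : 0 < (2 * Real.pi) ^ n := by positivity
  have h12 : (2 * Real.pi) ^ n * Real.exp K ^ n * (4 * Real.pi) <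
      (2 * Real.pi) ^ n * X * (4 * Real.pi) := by
    calc (2 * Real.pi) ^ n * Real.exp K ^ n * (4 * Real.pi) < n.factorial := hn2
      _ < 2 * ((2 * Real.pi) ^ (n + 1) * X) := h10
      _ = _ := by ring
  have h13 := lt_of_mul_lt_mul_right h12 (by positivity)
  exact lt_of_mul_lt_mul_left h13 hp.le

end

end Pool.Agent.NH98.RT.Xi

namespace Pool.Agent.NH98.RT

open Xi

theorem t_xi : S_xi := by
  intro a b F N _ f hΔ hF hf hb hfr
  obtain ⟨w, hw, hfr⟩ := hfr
  have hfe := xi_fe f hfr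
  have hw1 : ‖-w‖ = 1 := by
    rcases hw with rfl | rfl <;> simp
  obtain ⟨C, hC⟩ := xi_growth f hw1 hfe
  obtain ⟨P1, P2, hP1d, hP2d, hP1, hP2, hrel⟩ := rel hΔ hF hf hb
  have hN : (N : ℂ) ≠ 0 := by exact_mod_cast NeZero.ne N
  have h2pi : (2 * Real.pi : ℂ) ≠ 0 := by
    have := Real.pi_ne_zero
    simp
  -- the relation: `F(1+s) U(s) = V(s) ξ(s)`
  obtain ⟨U, hU⟩ : ∃ U : ℂ → ℂ, U = fun s => P2 (1 + s) * (N : ℂ) ^ (s / 2) := ⟨_, rfl⟩
  obtain ⟨V, hV⟩ : ∃ V : ℂ → ℂ, V = fun s => (2 * Real.pi : ℂ) ^ (1 + s) *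
    (Complex.Gamma (1 + s))⁻¹ * P1 (1 + s) := ⟨_, rfl⟩
  have hUd : Differentiable ℂ U := by
    rw [hU]
    have h1 : Differentiable ℂ fun s : ℂ => (N : ℂ) ^ (s / 2) := by
      intro s
      refine DifferentiableAt.const_cpow ?_ (Or.inl hN)
      fun_prop
    exact (hP2d.comp (by fun_prop)).mul h1
  have hVd : Differentiable ℂ V := by
    rw [hV]
    have h1 : Differentiable ℂ fun s : ℂ => (2 * Real.pi : ℂ) ^ (1 + s) := by
      intro s
      refine DifferentiableAt.const_cpow ?_ (Or.inl h2pi)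
      fun_prop
    have h2 : Differentiable ℂ fun s : ℂ => (Complex.Gamma (1 + s))⁻¹ :=
      Complex.differentiable_one_div_Gamma.comp (by fun_prop : Differentiable ℂ fun s : ℂ => 1 + s)
    exact (h1.mul h2).mul (hP1d.comp (by fun_prop))
  have hre : ∀ s : ℂ, (1 + s).re = 1 + s.re := fun s => by simp
  have hU0 : ∀ s : ℂ, 0 ≤ s.re → U s ≠ 0 := by
    intro s hs
    rw [hU]
    refine mul_ne_zero (hP2 _ (by rw [hre]; linarith)) ?_
    rw [Complex.cpow_ne_zero_iff]
    left; exact hN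
  have hV0 : ∀ s : ℂ, 0 ≤ s.re → V s ≠ 0 := by
    intro s hs
    rw [hV]
    refine mul_ne_zero (mul_ne_zero ?_ (inv_ne_zero ?_)) (hP1 _ (by rw [hre]; linarith))
    · rw [Complex.cpow_ne_zero_iff]
      left; exact h2pi
    · exact Complex.Gamma_ne_zero_of_re_pos (by rw [hre]; linarith)
  have hmain : ∀ s : ℂ, F (1 + s) * U s = V s * xi f s := by
    intro s
    have h1 := hrel (1 + s)
    rw [L_Lam] at h1
    rw [hU, hV]
    simp only
    unfold xi
    linear_combination (N : ℂ) ^ (s / 2) * h1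
  refine ⟨xi f, C, -w, xi_diff f, hC, hfe, ?_, ?_, ?_, xi_lower f hf⟩
  · rcases hw with rfl | rfl <;> simp
  · intro s hs hFs h0
    have h1 := hmain s
    rw [h0, mul_zero] at h1
    rcases mul_eq_zero.1 h1 with h | h
    · exact hFs h
    · exact hU0 s hs.le h
  · intro x
    have hx : ((x : ℂ) * Complex.I).re = 0 := by simp
    have hFd : Differentiable ℂ fun s : ℂ => F (1 + s) := hF.1.comp (by fun_prop)
    have hA : ∀ {g : ℂ → ℂ}, Differentiable ℂ g → AnalyticAt ℂ g ((x : ℂ) * Complex.I) :=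
      fun hg => hg.analyticAt _
    have e1 := analyticOrderAt_mul (hA hFd) (hA hUd)
    have e2 := analyticOrderAt_mul (hA hVd) (hA (xi_diff f))
    have e3 : ((fun s : ℂ => F (1 + s)) * U) = V * xi f := by
      funext s
      exact hmain s
    have e4 : analyticOrderAt U ((x : ℂ) * Complex.I) = 0 :=
      (hA hUd).analyticOrderAt_eq_zero.2 (hU0 _ hx.ge)
    have e5 : analyticOrderAt V ((x : ℂ) * Complex.I) = 0 :=
      (hA hVd).analyticOrderAt_eq_zero.2 (hV0 _ hx.ge)
    rw [e3, e2, e4, e5, zero_add, add_zero] at e1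
    unfold analyticOrderNatAt
    rw [e1]

end Pool.Agent.NH98.RT
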