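import Pool.Agent.NH98.RT.Asm
import Pool.Agent.NH98.RT.Xi
import Pool.Agent.TH949.TX.BSDW

/-! # The other cases -/

set_option autoImplicit false

open MeasureTheory Filter Topology Set
open Pool.Agent.W263.BSD (GoodPrime pointCount IsLSeries bsdProduct bsdStar bsdProduct_pos
  bsdStar_pos rsSum corr_tendsto)
open Pool.Agent.TH270.MS Pool.Agent.TH270.MS.EQ

namespace Pool.Agent.NH98.RT

variable {a b : ℤ} {F : ℂ → ℂ}

/-- windows -/
theorem freq_of_window {P Q : ℝ → Prop} (h : ∀ᶠ X : ℝ in atTop, ∃ x : ℝ, X ^ (1 - (1 / 2 : ℝ)) ≤ x ∧ x ≤ X ∧ 1 ≤ x ∧ P x)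
    (hPQ : ∀ᶠ x : ℝ in atTop, P x → Q x) : ∃ᶠ x : ℝ in atTop, Q x := by
  rw [frequently_atTop]
  intro A
  obtain ⟨x0, hx0⟩ := eventually_atTop.1 hPQ
  have h1 : Tendsto (fun X : ℝ => X ^ (1 - (1 / 2 : ℝ))) atTop atTop := tendsto_rpow_atTop (by norm_num)
  obtain ⟨X, ⟨x, h2, h3, h4, h5⟩, h6⟩ := (h.and (h1.eventually_ge_atTop (max A x0))).exists
  have h7 : max A x0 ≤ x := h6.trans h2
  exact ⟨x, (le_max_left _ _).trans h7, hx0 x ((le_max_right _ _).trans h7) h5⟩

theorem corr_bound (hΔ : 4 * a ^ 3 + 27 * b ^ 2 ≠ 0) (hrs : Tendsto (rsSum a b) atTop (𝓝 0)) :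
    ∀ᶠ x : ℝ in atTop, |Real.log (bsdStar a b x) - Real.log (bsdProduct a b x)| ≤ 1 := by
  have h := (Metric.tendsto_nhds.1 (corr_lim hΔ hrs)) (1 / 2) (by norm_num)
  filter_upwards [h] with x hx
  rw [Real.dist_eq, sub_neg_eq_add] at hx
  have h2 := abs_lt.1 hx
  have h3 : Real.log 2 < 0.6931471808 := Real.log_two_lt_d9
  have h4 : 0 < Real.log 2 := Real.log_pos (by norm_num)
  rw [abs_le]
  constructor <;> linarith [h2.1, h2.2]

/-- a power of `x` beats everything -/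
theorem pow_big {c : ℝ} (hc : 0 < c) (ρ M K : ℝ) :
    ∀ᶠ x : ℝ in atTop, M + |ρ| * Real.log (Real.log x) + K ≤ x ^ c := by
  have h1 : ∀ᶠ x : ℝ in atTop, |ρ| * Real.log x ≤ x ^ c / 2 := by
    have h2 := (isLittleO_log_rpow_atTop hc).bound (c := 1 / (2 * (|ρ| + 1))) (by positivity)
    filter_upwards [h2, eventually_ge_atTop 1] with x h3 h4
    have h5 : 0 ≤ Real.log x := Real.log_nonneg h4
    have h6 : 0 ≤ x ^ c := Real.rpow_nonneg (by linarith) _
    rw [Real.norm_of_nonneg h5, Real.norm_of_nonneg h6] at h3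
    have h7 : |ρ| * Real.log x ≤ |ρ| * (1 / (2 * (|ρ| + 1)) * x ^ c) :=
      mul_le_mul_of_nonneg_left h3 (abs_nonneg _)
    have h8 : |ρ| * (1 / (2 * (|ρ| + 1)) * x ^ c) ≤ x ^ c / 2 := by
      have h9 : |ρ| / (|ρ| + 1) ≤ 1 := by
        rw [div_le_one (by positivity)]
        linarith
      calc |ρ| * (1 / (2 * (|ρ| + 1)) * x ^ c) = |ρ| / (|ρ| + 1) * (x ^ c / 2) := by
            field_simp
        _ ≤ 1 * (x ^ c / 2) := mul_le_mul_of_nonneg_right h9 (by positivity)
        _ = _ := one_mul _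
    linarith
  filter_upwards [h1, (tendsto_rpow_atTop hc).eventually_ge_atTop (2 * (|M| + |K|)),
    eventually_ge_atTop (Real.exp 1)] with x h2 h3 h4
  have h5 := one_le_log h4
  have h6 : Real.log (Real.log x) ≤ Real.log x := by
    have := Real.log_le_sub_one_of_pos (x := Real.log x) (by linarith)
    linarith
  have h7 : |ρ| * Real.log (Real.log x) ≤ |ρ| * Real.log x := mul_le_mul_of_nonneg_left h6 (abs_nonneg _)
  have := le_abs_self M
  have := le_abs_self K
  linarith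

theorem up_case (hΔ : 4 * a ^ 3 + 27 * b ^ 2 ≠ 0) (hF : IsLSeries a b F)
    (hrs : Tendsto (rsSum a b) atTop (𝓝 0)) {z : ℂ} (hz : 1 < z.re) (h0 : F z = 0) (ρ : ℝ) {C : ℝ}
    (hC : 0 < C) (K : ℝ) : ∃ᶠ x : ℝ in atTop, K < Real.log x * devStar a b ρ C x := by
  set c : ℝ := (z.re - 1) / 2 with hc
  have hc0 : 0 < c := by rw [hc]; linarith
  have h1 := Pool.Agent.TH949.TX.bsd_up hF hc0.le (ρ := z) (by rw [hc]; linarith) h0
    (δ := 1 / 2) (C := 1) (by norm_num)
  refine freq_of_window h1 ?_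
  filter_upwards [corr_bound hΔ hrs, pow_big hc0 ρ (1 + |Real.log C|) (|K| + 1),
    eventually_ge_atTop (Real.exp 1)] with x h2 h3 h4 h5
  have h6 := one_le_log h4
  rw [devStar_eq hC h4]
  have h7 := abs_le.1 h2
  have h8 : 0 < Real.log 2 := Real.log_pos (by norm_num)
  have h9 : ρ * Real.log (Real.log x) ≤ |ρ| * Real.log (Real.log x) :=
    mul_le_mul_of_nonneg_right (le_abs_self _) (Real.log_nonneg h6)
  have h10 := le_abs_self (Real.log C)
  set D := Real.log 2 / 2 + Real.log (bsdStar a b x) - ρ * Real.log (Real.log x) - Real.log C with hD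
  have h11 : |K| + 1 ≤ D := by
    rw [hD]
    linarith [h7.1]
  have h12 : |K| + 1 ≤ Real.log x * D := by
    calc |K| + 1 ≤ D := h11
      _ = 1 * D := (one_mul _).symm
      _ ≤ Real.log x * D := mul_le_mul_of_nonneg_right h6 (by have := abs_nonneg K; linarith)
  have := le_abs_self K
  linarith

theorem down_case (hΔ : 4 * a ^ 3 + 27 * b ^ 2 ≠ 0) (hF : IsLSeries a b F)
    (hrs : Tendsto (rsSum a b) atTop (𝓝 0)) (hreal : ∀ s : ℝ, 1 < s → F s ≠ 0) {z : ℂ} (hz : 1 < z.re)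
    (h0 : F z = 0) (ρ : ℝ) {C : ℝ} (hC : 0 < C) (K : ℝ) :
    ∃ᶠ x : ℝ in atTop, Real.log x * devStar a b ρ C x < -K := by
  set c : ℝ := (z.re - 1) / 2 with hc
  have hc0 : 0 < c := by rw [hc]; linarith
  have h1 := Pool.Agent.TH949.TX.bsd_down hF hc0.le (fun s hs => hreal s (by linarith)) (ρ := z)
    (by rw [hc]; linarith) h0 (δ := 1 / 2) (C := 1) (by norm_num)
  refine freq_of_window h1 ?_
  filter_upwards [corr_bound hΔ hrs, pow_big hc0 ρ (2 + |Real.log C|) (|K| + 1),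
    eventually_ge_atTop (Real.exp 1)] with x h2 h3 h4 h5
  have h6 := one_le_log h4
  rw [devStar_eq hC h4]
  have h7 := abs_le.1 h2
  have h8 : Real.log 2 < 0.6931471808 := Real.log_two_lt_d9
  have h9 : -(|ρ| * Real.log (Real.log x)) ≤ ρ * Real.log (Real.log x) := by
    have := mul_le_mul_of_nonneg_right (neg_abs_le ρ) (Real.log_nonneg h6)
    linarith
  have h10 := neg_abs_le (Real.log C)
  set D := Real.log 2 / 2 + Real.log (bsdStar a b x) - ρ * Real.log (Real.log x) - Real.log C with hD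
  have h11 : |K| + 1 ≤ -D := by
    rw [hD]
    linarith [h7.2]
  have h12 : |K| + 1 ≤ Real.log x * -D := by
    calc |K| + 1 ≤ -D := h11
      _ = 1 * -D := (one_mul _).symm
      _ ≤ Real.log x * -D := mul_le_mul_of_nonneg_right h6 (by have := abs_nonneg K; linarith)
  have := le_abs_self K
  have h13 : Real.log x * D = -(Real.log x * -D) := by ring
  rw [h13]
  linarith

/-- the leading coefficient is positive if there are no zeros to the right -/
theorem lead_pos {N : ℕ} [NeZero N]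
    {f : CuspForm (CongruenceSubgroup.Gamma0 N : Subgroup (Matrix.GeneralLinearGroup (Fin 2) ℝ)) 2}
    (hΔ : 4 * a ^ 3 + 27 * b ^ 2 ≠ 0) (hF : IsLSeries a b F) (hf : Pool.Agent.TH941.Hecke f)
    (hb : Pool.Agent.TH941.Belongs a b f) (hnz : ∀ s : ℂ, 1 < s.re → F s ≠ 0) {m : ℕ}
    (hm : analyticOrderAt F 1 = m) :
    iteratedDeriv m F 1 = ((‖iteratedDeriv m F 1‖ : ℝ) : ℂ) ∧ 0 < ‖iteratedDeriv m F 1‖ := by
  obtain ⟨C₁, κ, hgr⟩ := growth_F hΔ hF hf hb
  have H := curve_mc hF (by norm_num : (0 : ℝ) < 1 / 8) hgr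
  obtain ⟨e, g, p, he, Q⟩ := H.cn
  have hne : ∀ s : ℂ, 0 < s.re → (fun s => F (1 + s)) s ≠ 0 := fun s hs => hnz _ (by simpa using hs)
  have hpm : p = m := by
    have h1 := (mero_of Q.hg Q.hg0 (local_form H.hη H.hΨ Q.near)).2
    have h2 := mero_ord hF.1 hm
    rw [h1] at h2
    have h3 : ((p : ℤ) - (0 : ℕ)) = m := by exact_mod_cast h2
    have h4 : (p : ℤ) = m := by simpa using h3
    exact_mod_cast h4
  obtain ⟨hA0, hA⟩ := coeff_lim hF.1 hm
  have hg0 : g 0 = iteratedDeriv m F 1 / (m.factorial : ℂ) := by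
    have h1 : Tendsto g (𝓝[≠] 0) (𝓝 (g 0)) :=
      Q.hg.continuousAt.tendsto.mono_left nhdsWithin_le_nhds
    refine tendsto_nhds_unique h1 (hA.congr' ?_)
    filter_upwards [nhdsWithin_le_nhds Q.near, self_mem_nhdsWithin] with s h2 h3
    have h4 : s ≠ 0 := h3
    rw [h2, hpm]
    field_simp
  obtain ⟨c₀, h1, -⟩ := fwd Q.D Q.hη Q.hG Q.hgrow Q.hexp Q.hg Q.hg0 Q.near hne
  have hfac : (m.factorial : ℂ) ≠ 0 := by exact_mod_cast m.factorial_ne_zero
  have h2 : iteratedDeriv m F 1 = ((Real.exp (-c₀) * m.factorial : ℝ) : ℂ) := by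
    rw [h1, eq_div_iff hfac] at hg0
    rw [← hg0]
    push_cast
    rfl
  have h3 : 0 < Real.exp (-c₀) * (m.factorial : ℝ) := mul_pos (Real.exp_pos _) (by exact_mod_cast m.factorial_pos)
  have h4 : ‖iteratedDeriv m F 1‖ = Real.exp (-c₀) * (m.factorial : ℝ) := by
    rw [h2, Complex.norm_real, Real.norm_of_nonneg h3.le]
  refine ⟨?_, by rw [h4]; exact h3⟩
  rw [h4]
  exact h2

/-- the constant of Goldfeld -/
noncomputable def TT (F : ℂ → ℂ) (m : ℕ) : ℝ :=
  √2 * Real.exp (m * Real.eulerMascheroniConstant) * (m.factorial : ℝ) / ‖iteratedDeriv m F 1‖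

theorem TT_pos (hF : IsLSeries a b F) {m : ℕ} (hm : analyticOrderAt F 1 = m) : 0 < TT F m := by
  obtain ⟨h1, -⟩ := coeff_lim hF.1 hm
  have h2 : iteratedDeriv m F 1 ≠ 0 := fun h => h1 (by rw [h, zero_div])
  have h3 : 0 < ‖iteratedDeriv m F 1‖ := norm_pos_iff.2 h2
  have h4 : (0 : ℝ) < m.factorial := by exact_mod_cast m.factorial_pos
  unfold TT
  positivity

/-- **All cases, with the right order and constant.** -/
theorem main_lead {N : ℕ} [NeZero N]
    {f : CuspForm (CongruenceSubgroup.Gamma0 N : Subgroup (Matrix.GeneralLinearGroup (Fin 2) ℝ)) 2}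
    (hΔ : 4 * a ^ 3 + 27 * b ^ 2 ≠ 0) (hF : IsLSeries a b F) (hf : Pool.Agent.TH941.Hecke f)
    (hb : Pool.Agent.TH941.Belongs a b f) (hw : Fricke f) {m : ℕ} (hm : analyticOrderAt F 1 = m) :
    (∀ K : ℝ, ∃ᶠ x : ℝ in atTop, K < Real.log x * devStar a b m (TT F m) x) ∧
    ((∀ s : ℝ, 1 < s → F s ≠ 0) → ∀ K : ℝ, ∃ᶠ x : ℝ in atTop, Real.log x * devStar a b m (TT F m) x < -K) := by
  have hrs := hf.rsSum_tendsto hΔ hb
  have hT := TT_pos hF hm
  by_cases hnz : ∀ s : ℂ, 1 < s.re → F s ≠ 0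
  · obtain ⟨h1, h2⟩ := lead_pos hΔ hF hf hb hnz hm
    have hlead : iteratedDeriv m F 1 / (m.factorial : ℂ) =
      ((√2 * Real.exp (m * Real.eulerMascheroniConstant) / TT F m : ℝ) : ℂ) := by
      have h4 : (0 : ℝ) < m.factorial := by exact_mod_cast m.factorial_pos
      have h3 : √2 * Real.exp (m * Real.eulerMascheroniConstant) / TT F m =
          ‖iteratedDeriv m F 1‖ / m.factorial := by
        unfold TT
        have h5 : 0 < √2 * Real.exp (m * Real.eulerMascheroniConstant) := by positivity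
        field_simp
      rw [h3]
      push_cast
      rw [← h1]
    refine ⟨fun K => ?_, fun _ K => ?_⟩
    · intro h
      refine rh_case t_xi hΔ hF hf hb hw hnz hm hT hlead (τ := 1) (Or.inl rfl) K ?_
      filter_upwards [h] with x hx
      rw [one_mul]
      exact not_lt.1 hx
    · intro h
      refine rh_case t_xi hΔ hF hf hb hw hnz hm hT hlead (τ := -1) (Or.inr rfl) K ?_
      filter_upwards [h] with x hx
      have := not_lt.1 hx
      linarith
  · push Not at hnz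
    obtain ⟨z, hz, h0⟩ := hnz
    exact ⟨up_case hΔ hF hrs hz h0 _ hT, fun hreal => down_case hΔ hF hrs hreal hz h0 _ hT⟩

/-- **All exponents and constants.** -/
theorem main_all {N : ℕ} [NeZero N]
    {f : CuspForm (CongruenceSubgroup.Gamma0 N : Subgroup (Matrix.GeneralLinearGroup (Fin 2) ℝ)) 2}
    (hΔ : 4 * a ^ 3 + 27 * b ^ 2 ≠ 0) (hF : IsLSeries a b F) (hf : Pool.Agent.TH941.Hecke f)
    (hb : Pool.Agent.TH941.Belongs a b f) (hw : Fricke f) (ρ : ℝ) {C : ℝ} (hC : 0 < C) (K : ℝ) :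
    ∃ᶠ x : ℝ in atTop, K < Real.log x * |devStar a b ρ C x| := by
  have hrs := hf.rsSum_tendsto hΔ hb
  by_cases hnz : ∀ s : ℂ, 1 < s.re → F s ≠ 0
  · intro h
    obtain ⟨C₁, κ, hgr⟩ := growth_F hΔ hF hf hb
    have t := curve_law hΔ hF hrs (by norm_num : (0 : ℝ) < 1 / 8) hgr ρ hC
    have h1 : Tendsto (devStar a b ρ C) atTop (𝓝 0) := by
      have h2 : Tendsto (fun x : ℝ => K / Real.log x) atTop (𝓝 0) :=
        tendsto_const_nhds.div_atTop Real.tendsto_log_atTop
      refine squeeze_zero_norm' ?_ h2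
      filter_upwards [h, eventually_ge_atTop (Real.exp 1)] with x hx hx1
      have h3 := one_le_log hx1
      rw [Real.norm_eq_abs, le_div_iff₀ (by linarith)]
      have := not_lt.1 hx
      linarith
    have h2 : Tendsto (dev a b ρ C) atTop (𝓝 0) := by
      have h3 := (corr_lim hΔ hrs).const_sub (-(Real.log 2 / 2))
      rw [sub_self] at h3
      have h4 := h1.add h3
      rw [add_zero] at h4
      refine h4.congr' ?_
      filter_upwards [eventually_ge_atTop (Real.exp 1)] with x hx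
      rw [dev_eq hC hx, devStar_eq hC hx]
      ring
    have h3 : Tendsto (fun X : ℝ => (∫ x in Real.exp 1..X, |dev a b ρ C x| / x) / Real.log X) atTop (𝓝 0) :=
      lmean_zero (bm_dev a b hC).li h2
    obtain ⟨-, m, hρ, hm, hlead⟩ := (t.out 1 0).1 h3
    rw [hρ] at h
    refine rh_case t_xi hΔ hF hf hb hw hnz hm hC hlead (τ := 1) (Or.inl rfl) K ?_
    filter_upwards [h, eventually_ge_atTop (Real.exp 1)] with x hx hx1
    have h4 := one_le_log hx1
    have h5 := not_lt.1 hx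
    have h6 : Real.log x * devStar a b m C x ≤ Real.log x * |devStar a b m C x| :=
      mul_le_mul_of_nonneg_left (le_abs_self _) (by linarith)
    linarith
  · push Not at hnz
    obtain ⟨z, hz, h0⟩ := hnz
    refine (up_case hΔ hF hrs hz h0 ρ hC K).mp ?_
    filter_upwards [eventually_ge_atTop (Real.exp 1)] with x hx h1
    have h4 := one_le_log hx
    have h6 : Real.log x * devStar a b ρ C x ≤ Real.log x * |devStar a b ρ C x| :=
      mul_le_mul_of_nonneg_left (le_abs_self _) (by linarith)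
    linarith

end Pool.Agent.NH98.RT
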