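import Mathlib

/-! # The rate of convergence in the original conjecture of Birch and Swinnerton-Dyer: statements (analysis)

Project RT (helper98), problem MP_3283e1_nt. See the job specs for the proofs. -/

set_option autoImplicit false

open MeasureTheory Filter Topology Set

namespace Pool.Agent.NH98.RT

/-- RT-1. Non-negative trigonometric sums with constant term `1`, non-negative coefficients, and coefficients close to `1` at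
finitely many prescribed frequencies (Bochner and Fejér). -/
def S_kernel : Prop := ∀ (J : Finset ℝ) (δ : ℝ), 0 < δ →
  ∃ (Λ : Finset ℝ) (c : ℝ → ℝ), (∀ x ∈ Λ, -x ∈ Λ) ∧ (∀ x, c (-x) = c x) ∧ (∀ x, 0 ≤ c x) ∧
    (0 : ℝ) ∈ Λ ∧ c 0 = 1 ∧ (∀ x ∈ J, x ∈ Λ ∧ 1 - δ ≤ c x) ∧
    ∀ y : ℝ, 0 ≤ ∑ x ∈ Λ, c x * Real.cos (x * y)

/-- RT-2. A function bounded above, with Fourier coefficients (in the sense of Abel means) `τ a(x) / (i x)`, `a ≥ 0` even. -/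
def S_abel : Prop := ∀ (φ : ℝ → ℝ) (a : ℝ → ℝ) (τ B : ℝ), (τ = 1 ∨ τ = -1) →
  (∀ ε : ℝ, 0 < ε → IntegrableOn (fun u : ℝ => φ u * Real.exp (-(ε * u))) (Ioi 1)) →
  (∀ x, 0 ≤ a x) → (∀ x, a (-x) = a x) →
  (∀ x : ℝ, Tendsto (fun ε : ℝ => (ε : ℂ) * ∫ u in Ioi (1 : ℝ),
      (φ u : ℂ) * Complex.exp (-(((ε : ℂ) + (x : ℂ) * Complex.I) * (u : ℂ)))) (𝓝[>] 0)
    (𝓝 (if x = 0 then 0 else (τ : ℂ) * (a x : ℂ) / ((x : ℂ) * Complex.I)))) →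
  (∀ᶠ u : ℝ in atTop, φ u ≤ B) →
  ∀ (J : Finset ℝ), (∀ x ∈ J, 0 < x) → ∀ σ : ℝ, 0 < σ →
    ∑ x ∈ J, a x * (2 * σ / (σ ^ 2 + x ^ 2)) ≤ B

/-- RT-3. The theorem of Hadamard for an entire function of order one which is even or odd, has only purely imaginary zeros
`i x`, and for which the sums of `2 σ / (σ² + x²)` over the zeros with `x > 0` are bounded for all `σ > 0`. -/
def S_had : Prop := ∀ (ξ : ℂ → ℂ) (C B : ℝ) (w : ℂ), Differentiable ℂ ξ →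
  (∀ s : ℂ, ‖ξ s‖ ≤ Real.exp (C * (1 + ‖s‖) * Real.log (2 + ‖s‖))) → (∀ s : ℂ, ξ (-s) = w * ξ s) →
  (∃ s : ℂ, ξ s ≠ 0) → (∀ s : ℂ, ξ s = 0 → s.re = 0) →
  (∀ J : Finset ℝ, (∀ x ∈ J, 0 < x) → ∀ σ : ℝ, 0 < σ →
    ∑ x ∈ J, (analyticOrderNatAt ξ ((x : ℂ) * Complex.I) : ℝ) * (2 * σ / (σ ^ 2 + x ^ 2)) ≤ B) →
  ∃ K : ℝ, ∀ σ : ℝ, 1 ≤ σ → ‖ξ (σ : ℂ)‖ ≤ Real.exp (K * σ)

end Pool.Agent.NH98.RT
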