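import Mathlib
import Pool.Agent.NH98.RT.Stm

/-!
# Positivity for Abel means of a function bounded above
-/

set_option autoImplicit false

open MeasureTheory Filter Topology Set

namespace Pool.Agent.NH98.RT.Abel

/-- the kernel `∑ c(x) σ/(σ²+x²) (σ cos(xu) + x sin(xu))` -/
noncomputable def W (Λ : Finset ℝ) (c : ℝ → ℝ) (σ u : ℝ) : ℝ :=
  ∑ x ∈ Λ, c x * (σ / (σ ^ 2 + x ^ 2)) * (σ * Real.cos (x * u) + x * Real.sin (x * u))

lemma W_nonneg (Λ : Finset ℝ) (c : ℝ → ℝ) (σ : ℝ) (hσ : 0 < σ)
    (hk : ∀ y : ℝ, 0 ≤ ∑ x ∈ Λ, c x * Real.cos (x * y)) (u : ℝ) : 0 ≤ W Λ c σ u := by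
  have hd : ∀ u, HasDerivAt (W Λ c σ)
      (∑ x ∈ Λ, c x * (σ / (σ ^ 2 + x ^ 2)) *
        (σ * (-Real.sin (x * u) * x) + x * (Real.cos (x * u) * x))) u := by
    intro u
    unfold W
    apply HasDerivAt.fun_sum
    intro x _
    have h1 : HasDerivAt (fun u : ℝ => x * u) x u := by
      simpa using (hasDerivAt_id u).const_mul x
    exact (((h1.cos).const_mul σ).add ((h1.sin).const_mul x)).const_mul _
  have hd2 : ∀ u, HasDerivAt (fun v => Real.exp (σ * v) * W Λ c σ v)
      (σ * Real.exp (σ * u) * ∑ x ∈ Λ, c x * Real.cos (x * u)) u := by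
    intro u
    have h1 : HasDerivAt (fun u : ℝ => σ * u) σ u := by
      simpa using (hasDerivAt_id u).const_mul σ
    have h2 := (h1.exp).fun_mul (hd u)
    refine h2.congr_deriv ?_
    unfold W
    rw [Finset.mul_sum, Finset.mul_sum, Finset.mul_sum, ← Finset.sum_add_distrib]
    apply Finset.sum_congr rfl
    intro x _
    have h3 : σ ^ 2 + x ^ 2 ≠ 0 := by positivity
    field_simp
    ring
  have hmono : Monotone (fun v => Real.exp (σ * v) * W Λ c σ v) := by
    apply monotone_of_deriv_nonneg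
    · exact fun v => (hd2 v).differentiableAt
    · intro v
      rw [(hd2 v).deriv]
      have := hk v
      positivity
  obtain ⟨K, hK⟩ : ∃ K, ∀ v, |W Λ c σ v| ≤ K := by
    refine ⟨∑ x ∈ Λ, |c x * (σ / (σ ^ 2 + x ^ 2))| * (σ + |x|), fun v => ?_⟩
    unfold W
    refine (Finset.abs_sum_le_sum_abs _ _).trans (Finset.sum_le_sum fun x _ => ?_)
    rw [abs_mul]
    apply mul_le_mul_of_nonneg_left _ (abs_nonneg _)
    refine (abs_add_le _ _).trans ?_
    rw [abs_mul, abs_mul, abs_of_pos hσ]
    have h1 := Real.abs_cos_le_one (x * v)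
    have h2 := Real.abs_sin_le_one (x * v)
    have h3 := abs_nonneg x
    nlinarith
  have hlim : Tendsto (fun v => Real.exp (σ * v) * W Λ c σ v) atBot (𝓝 0) := by
    have h1 : Tendsto (fun v => Real.exp (σ * v)) atBot (𝓝 0) := by
      apply Real.tendsto_exp_atBot.comp
      exact tendsto_id.const_mul_atBot hσ
    apply squeeze_zero_norm (a := fun v => Real.exp (σ * v) * K)
    · intro v
      rw [norm_mul, Real.norm_of_nonneg (Real.exp_pos _).le, Real.norm_eq_abs]
      exact mul_le_mul_of_nonneg_left (hK v) (Real.exp_pos _).le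
    · simpa using h1.mul_const K
  have h0 : 0 ≤ Real.exp (σ * u) * W Λ c σ u := hmono.le_of_tendsto hlim u
  exact nonneg_of_mul_nonneg_right h0 (Real.exp_pos _)

section integrals

variable {ψ : ℝ → ℝ} (hψ : ∀ ε : ℝ, 0 < ε →
  IntegrableOn (fun u : ℝ => ψ u * Real.exp (-(ε * u))) (Ioi 1))

include hψ

lemma int_bdd {f : ℝ → ℝ} (hf : Continuous f) {K : ℝ} (hK : ∀ u, |f u| ≤ K) {ε : ℝ} (hε : 0 < ε) :
    IntegrableOn (fun u : ℝ => ψ u * Real.exp (-(ε * u)) * f u) (Ioi 1) := by
  apply Integrable.mul_bdd (c := K) (hψ ε hε) hf.aestronglyMeasurable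
  exact Eventually.of_forall fun u => by rw [Real.norm_eq_abs]; exact hK u

lemma complex_int {ε : ℝ} (hε : 0 < ε) (x : ℝ) :
    (∫ u in Ioi (1 : ℝ), (ψ u : ℂ) * Complex.exp (-(((ε : ℂ) + (x : ℂ) * Complex.I) * (u : ℂ)))) =
      ((∫ u in Ioi (1 : ℝ), ψ u * Real.exp (-(ε * u)) * Real.cos (x * u) : ℝ) : ℂ) -
      ((∫ u in Ioi (1 : ℝ), ψ u * Real.exp (-(ε * u)) * Real.sin (x * u) : ℝ) : ℂ) * Complex.I := by
  have h1 : IntegrableOn (fun u : ℝ => ψ u * Real.exp (-(ε * u)) * Real.cos (x * u)) (Ioi 1) :=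
    int_bdd hψ (by fun_prop) (fun u => Real.abs_cos_le_one _) hε
  have h2 : IntegrableOn (fun u : ℝ => ψ u * Real.exp (-(ε * u)) * Real.sin (x * u)) (Ioi 1) :=
    int_bdd hψ (by fun_prop) (fun u => Real.abs_sin_le_one _) hε
  have h3 : ∀ u : ℝ, (ψ u : ℂ) * Complex.exp (-(((ε : ℂ) + (x : ℂ) * Complex.I) * (u : ℂ))) =
      ((ψ u * Real.exp (-(ε * u)) * Real.cos (x * u) : ℝ) : ℂ) -
      ((ψ u * Real.exp (-(ε * u)) * Real.sin (x * u) : ℝ) : ℂ) * Complex.I := by
    intro u
    have e1 : -(((ε : ℂ) + (x : ℂ) * Complex.I) * (u : ℂ)) =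
        ((-(ε * u) : ℝ) : ℂ) + ((-(x * u) : ℝ) : ℂ) * Complex.I := by
      push_cast
      ring
    rw [e1, Complex.exp_add, Complex.exp_mul_I, ← Complex.ofReal_cos, ← Complex.ofReal_sin,
      Real.cos_neg, Real.sin_neg, ← Complex.ofReal_exp]
    push_cast
    ring
  simp_rw [h3]
  rw [integral_sub, integral_mul_const]
  · rw [integral_complex_ofReal, integral_complex_ofReal]
  · exact h1.ofReal
  · exact h2.ofReal.mul_const _

end integrals

/-- the Abel means of the constant function -/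
lemma lim_one (x : ℝ) : Tendsto (fun ε : ℝ => (ε : ℂ) * ∫ u in Ioi (1 : ℝ),
    Complex.exp (-(((ε : ℂ) + (x : ℂ) * Complex.I) * (u : ℂ)))) (𝓝[>] 0)
    (𝓝 (if x = 0 then 1 else 0)) := by
  have h1 : ∀ ε : ℝ, 0 < ε → (∫ u in Ioi (1 : ℝ),
      Complex.exp (-(((ε : ℂ) + (x : ℂ) * Complex.I) * (u : ℂ)))) =
      Complex.exp (-((ε : ℂ) + (x : ℂ) * Complex.I)) / ((ε : ℂ) + (x : ℂ) * Complex.I) := by
    intro ε hε
    have h2 : (-((ε : ℂ) + (x : ℂ) * Complex.I)).re < 0 := by
      simpa using hε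
    have h3 := integral_exp_mul_complex_Ioi h2 1
    simp only [Complex.ofReal_one, mul_one] at h3
    have h4 : ∀ u : ℝ, -(((ε : ℂ) + (x : ℂ) * Complex.I) * (u : ℂ)) =
        -((ε : ℂ) + (x : ℂ) * Complex.I) * (u : ℂ) := fun u => by ring
    simp_rw [h4]
    rw [h3, neg_div_neg_eq]
  have h5 : (fun ε : ℝ => (ε : ℂ) * (Complex.exp (-((ε : ℂ) + (x : ℂ) * Complex.I)) /
      ((ε : ℂ) + (x : ℂ) * Complex.I))) =ᶠ[𝓝[>] 0] (fun ε : ℝ => (ε : ℂ) * ∫ u in Ioi (1 : ℝ),
      Complex.exp (-(((ε : ℂ) + (x : ℂ) * Complex.I) * (u : ℂ)))) := by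
    filter_upwards [self_mem_nhdsWithin] with ε hε
    rw [h1 ε hε]
  refine Tendsto.congr' h5 ?_
  rcases eq_or_ne x 0 with hx | hx
  · rw [if_pos hx, hx]
    have h6 : (fun ε : ℝ => Complex.exp (-(ε : ℂ))) =ᶠ[𝓝[>] 0]
        (fun ε : ℝ => (ε : ℂ) * (Complex.exp (-((ε : ℂ) + ((0:ℝ) : ℂ) * Complex.I)) /
      ((ε : ℂ) + ((0:ℝ) : ℂ) * Complex.I))) := by
      filter_upwards [self_mem_nhdsWithin] with ε hε
      have h7 : (ε : ℂ) ≠ 0 := by
        exact_mod_cast (ne_of_gt hε)
      simp only [Complex.ofReal_zero, zero_mul, add_zero]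
      field_simp
    refine Tendsto.congr' h6 ?_
    have h8 : Continuous (fun ε : ℝ => Complex.exp (-(ε : ℂ))) := by fun_prop
    have h9 := (h8.tendsto 0).mono_left (nhdsWithin_le_nhds (s := Ioi 0))
    simpa using h9
  · rw [if_neg hx]
    have hxc : (x : ℂ) * Complex.I ≠ 0 := mul_ne_zero (by exact_mod_cast hx) Complex.I_ne_zero
    have h8 : ContinuousAt (fun ε : ℝ => (ε : ℂ) *
        (Complex.exp (-((ε : ℂ) + (x : ℂ) * Complex.I)) / ((ε : ℂ) + (x : ℂ) * Complex.I))) 0 := by
      apply ContinuousAt.mul (by fun_prop)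
      apply ContinuousAt.div (by fun_prop) (by fun_prop)
      simpa using hxc
    have h9 := h8.tendsto.mono_left (nhdsWithin_le_nhds (s := Ioi 0))
    simpa using h9

theorem main (h : S_kernel) : S_abel := by
  intro φ a τ B hτ hint ha0 haev hlim hB J hJ σ hσ
  set S : ℝ := ∑ x ∈ J, a x * (2 * σ / (σ ^ 2 + x ^ 2)) with hS
  have hS0 : 0 ≤ S := by
    apply Finset.sum_nonneg
    intro x _
    have := ha0 x
    positivity
  have hττ : τ * τ = 1 := by
    rcases hτ with h1 | h1 <;> rw [h1] <;> norm_num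
  have key : ∀ δ : ℝ, 0 < δ → δ < 1 → (1 - δ) * S ≤ B := by
    intro δ hδ hδ1
    obtain ⟨Λ, c, hΛ, hcev, hc0, h0Λ, hc1, hcJ, hk⟩ := h J δ hδ
    set ψ : ℝ → ℝ := fun u => B - φ u with hψdef
    have hexp : ∀ ε : ℝ, 0 < ε → IntegrableOn (fun u : ℝ => Real.exp (-(ε * u))) (Ioi 1) := by
      intro ε hε
      have := integrableOn_exp_mul_Ioi (neg_neg_of_pos hε) 1
      simpa [neg_mul] using this
    have hψ : ∀ ε : ℝ, 0 < ε → IntegrableOn (fun u : ℝ => ψ u * Real.exp (-(ε * u))) (Ioi 1) := by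
      intro ε hε
      have h1 := ((hexp ε hε).const_mul B).sub (hint ε hε)
      refine h1.congr (Eventually.of_forall fun u => ?_)
      simp only [hψdef, Pi.sub_apply]
      ring
    set w : ℝ → ℝ := fun u => W Λ c σ (τ * u) with hw
    have hw0 : ∀ u, 0 ≤ w u := fun u => W_nonneg Λ c σ hσ hk _
    have hwu : ∀ u, w u = ∑ x ∈ Λ, c x * (σ / (σ ^ 2 + x ^ 2)) *
        (σ * Real.cos (x * u) + x * τ * Real.sin (x * u)) := by
      intro u
      simp only [hw, W]
      apply Finset.sum_congr rfl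
      intro x _
      rcases hτ with h1 | h1
      · rw [h1]; simp
      · rw [h1]
        have h2 : x * (-1 * u) = -(x * u) := by ring
        rw [h2, Real.cos_neg, Real.sin_neg]
        ring
    have hwc : Continuous w := by
      have : w = fun u => ∑ x ∈ Λ, c x * (σ / (σ ^ 2 + x ^ 2)) *
        (σ * Real.cos (x * u) + x * τ * Real.sin (x * u)) := funext hwu
      rw [this]
      fun_prop
    -- the Fourier limits of `ψ`
    set Lψ : ℝ → ℂ := fun x => (B : ℂ) * (if x = 0 then 1 else 0) -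
      (if x = 0 then 0 else (τ : ℂ) * (a x : ℂ) / ((x : ℂ) * Complex.I)) with hLψ
    have hψlim : ∀ x : ℝ, Tendsto (fun ε : ℝ => (ε : ℂ) * ∫ u in Ioi (1 : ℝ),
        (ψ u : ℂ) * Complex.exp (-(((ε : ℂ) + (x : ℂ) * Complex.I) * (u : ℂ)))) (𝓝[>] 0)
        (𝓝 (Lψ x)) := by
      intro x
      have h1 := ((lim_one x).const_mul (B : ℂ)).sub (hlim x)
      refine Tendsto.congr' ?_ h1
      filter_upwards [self_mem_nhdsWithin] with ε hε
      have hε' : 0 < ε := hε
      have i1 : IntegrableOn (fun u : ℝ =>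
          Complex.exp (-(((ε : ℂ) + (x : ℂ) * Complex.I) * (u : ℂ)))) (Ioi 1) := by
        have h2 : (-((ε : ℂ) + (x : ℂ) * Complex.I)).re < 0 := by
          simpa using hε'
        have h3 := integrableOn_exp_mul_complex_Ioi h2 1
        refine h3.congr (Eventually.of_forall fun u => ?_)
        simp only
        congr 1
        ring
      have i2 : IntegrableOn (fun u : ℝ => (φ u : ℂ) *
          Complex.exp (-(((ε : ℂ) + (x : ℂ) * Complex.I) * (u : ℂ)))) (Ioi 1) := by
        have h2 := (hint ε hε').ofReal (𝕜 := ℂ)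
        have h3 : IntegrableOn (fun u : ℝ => ((φ u * Real.exp (-(ε * u)) : ℝ) : ℂ) *
            Complex.exp (-((x : ℂ) * Complex.I * (u : ℂ)))) (Ioi 1) := by
          apply Integrable.mul_bdd (c := 1) h2
          · apply Continuous.aestronglyMeasurable
            fun_prop
          · refine Eventually.of_forall fun u => ?_
            rw [Complex.norm_exp]
            simp
        refine h3.congr (Eventually.of_forall fun u => ?_)
        simp only
        push_cast
        rw [mul_assoc, ← Complex.exp_add]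
        congr 2
        ring
      have h4 : ∀ u : ℝ, (ψ u : ℂ) * Complex.exp (-(((ε : ℂ) + (x : ℂ) * Complex.I) * (u : ℂ))) =
          (B : ℂ) * Complex.exp (-(((ε : ℂ) + (x : ℂ) * Complex.I) * (u : ℂ))) -
          (φ u : ℂ) * Complex.exp (-(((ε : ℂ) + (x : ℂ) * Complex.I) * (u : ℂ))) := by
        intro u
        simp only [hψdef]
        push_cast
        ring
      simp_rw [h4]
      rw [integral_sub (i1.const_mul _) i2, integral_const_mul]
      ring
    have hC : ∀ x : ℝ, Tendsto (fun ε : ℝ => ε * ∫ u in Ioi (1 : ℝ),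
        ψ u * Real.exp (-(ε * u)) * Real.cos (x * u)) (𝓝[>] 0)
        (𝓝 (if x = 0 then B else 0)) := by
      intro x
      have h1 := (Complex.continuous_re.tendsto _).comp (hψlim x)
      have h2 : (Lψ x).re = if x = 0 then B else 0 := by
        simp only [hLψ]
        split_ifs with hx
        · simp
        · have h3 : (τ : ℂ) * (a x : ℂ) / ((x : ℂ) * Complex.I) =
              -(((τ * a x / x : ℝ) : ℂ) * Complex.I) := by
            have : (x : ℂ) ≠ 0 := by exact_mod_cast hx
            push_cast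
            field_simp
            rw [Complex.I_sq]
            ring
          rw [h3]
          simp
      rw [h2] at h1
      refine Tendsto.congr' ?_ h1
      filter_upwards [self_mem_nhdsWithin] with ε hε
      simp only [Function.comp]
      rw [complex_int hψ hε]
      simp
    have hSn : ∀ x : ℝ, Tendsto (fun ε : ℝ => ε * ∫ u in Ioi (1 : ℝ),
        ψ u * Real.exp (-(ε * u)) * Real.sin (x * u)) (𝓝[>] 0)
        (𝓝 (if x = 0 then 0 else -(τ * a x / x))) := by
      intro x
      have h1 := ((Complex.continuous_im.tendsto _).comp (hψlim x)).neg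
      have h2 : -(Lψ x).im = if x = 0 then 0 else -(τ * a x / x) := by
        simp only [hLψ]
        split_ifs with hx
        · simp
        · have h3 : (τ : ℂ) * (a x : ℂ) / ((x : ℂ) * Complex.I) =
              -(((τ * a x / x : ℝ) : ℂ) * Complex.I) := by
            have : (x : ℂ) ≠ 0 := by exact_mod_cast hx
            push_cast
            field_simp
            rw [Complex.I_sq]
            ring
          rw [h3]
          simp
      rw [h2] at h1
      refine Tendsto.congr' ?_ h1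
      filter_upwards [self_mem_nhdsWithin] with ε hε
      simp only [Function.comp]
      rw [complex_int hψ hε]
      simp
    -- the sum
    have hI : Tendsto (fun ε : ℝ => ε * ∫ u in Ioi (1 : ℝ), ψ u * Real.exp (-(ε * u)) * w u)
        (𝓝[>] 0) (𝓝 (∑ x ∈ Λ, c x * (σ / (σ ^ 2 + x ^ 2)) *
          (σ * (if x = 0 then B else 0) + x * τ * (if x = 0 then 0 else -(τ * a x / x))))) := by
      have h1 : Tendsto (fun ε : ℝ => ∑ x ∈ Λ, c x * (σ / (σ ^ 2 + x ^ 2)) *
          (σ * (ε * ∫ u in Ioi (1 : ℝ), ψ u * Real.exp (-(ε * u)) * Real.cos (x * u)) +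
          x * τ * (ε * ∫ u in Ioi (1 : ℝ), ψ u * Real.exp (-(ε * u)) * Real.sin (x * u))))
          (𝓝[>] 0) (𝓝 (∑ x ∈ Λ, c x * (σ / (σ ^ 2 + x ^ 2)) *
          (σ * (if x = 0 then B else 0) + x * τ * (if x = 0 then 0 else -(τ * a x / x))))) := by
        apply tendsto_finsetSum
        intro x _
        exact (((hC x).const_mul σ).add ((hSn x).const_mul (x * τ))).const_mul _
      refine Tendsto.congr' ?_ h1
      filter_upwards [self_mem_nhdsWithin] with ε hε
      have hε' : 0 < ε := hε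
      have j1 : ∀ x, IntegrableOn (fun u : ℝ => ψ u * Real.exp (-(ε * u)) * Real.cos (x * u))
          (Ioi 1) := fun x => int_bdd hψ (by fun_prop) (fun u => Real.abs_cos_le_one _) hε'
      have j2 : ∀ x, IntegrableOn (fun u : ℝ => ψ u * Real.exp (-(ε * u)) * Real.sin (x * u))
          (Ioi 1) := fun x => int_bdd hψ (by fun_prop) (fun u => Real.abs_sin_le_one _) hε'
      have h2 : ∀ u : ℝ, ψ u * Real.exp (-(ε * u)) * w u = ∑ x ∈ Λ, c x * (σ / (σ ^ 2 + x ^ 2)) *
          (σ * (ψ u * Real.exp (-(ε * u)) * Real.cos (x * u)) +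
            x * τ * (ψ u * Real.exp (-(ε * u)) * Real.sin (x * u))) := by
        intro u
        rw [hwu, Finset.mul_sum]
        apply Finset.sum_congr rfl
        intro x _
        ring
      simp_rw [h2]
      rw [integral_finsetSum, Finset.mul_sum]
      · apply Finset.sum_congr rfl
        intro x _
        rw [integral_const_mul, integral_add ((j1 x).const_mul _) ((j2 x).const_mul _),
          integral_const_mul, integral_const_mul]
        ring
      · intro x _
        exact (((j1 x).const_mul _).add ((j2 x).const_mul _)).const_mul _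
    -- the lower bound
    obtain ⟨K, hK⟩ : ∃ K, ∀ v, |w v| ≤ K := by
      refine ⟨∑ x ∈ Λ, |c x * (σ / (σ ^ 2 + x ^ 2))| * (σ + |x * τ|), fun v => ?_⟩
      rw [hwu]
      refine (Finset.abs_sum_le_sum_abs _ _).trans (Finset.sum_le_sum fun x _ => ?_)
      rw [abs_mul]
      apply mul_le_mul_of_nonneg_left _ (abs_nonneg _)
      refine (abs_add_le _ _).trans ?_
      rw [abs_mul, abs_mul (x * τ), abs_of_pos hσ]
      have h1 := Real.abs_cos_le_one (x * v)
      have h2 := Real.abs_sin_le_one (x * v)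
      have h3 := abs_nonneg (x * τ)
      nlinarith
    obtain ⟨u0, hu0⟩ := eventually_atTop.1 hB
    set D : ℝ := ∫ u in Ioi (1 : ℝ), Real.exp (max u0 0) * |ψ u * Real.exp (-(1 * u)) * w u| with hD
    have hlow : ∀ ε : ℝ, 0 < ε → ε < 1 → -(ε * D) ≤
        ε * ∫ u in Ioi (1 : ℝ), ψ u * Real.exp (-(ε * u)) * w u := by
      intro ε hε hε1
      rw [← mul_neg]
      apply mul_le_mul_of_nonneg_left _ hε.le
      rw [hD, ← integral_neg]
      have k1 : IntegrableOn (fun u : ℝ => ψ u * Real.exp (-(1 * u)) * w u) (Ioi 1) :=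
        int_bdd hψ hwc hK one_pos
      have k2 : IntegrableOn (fun u : ℝ => ψ u * Real.exp (-(ε * u)) * w u) (Ioi 1) :=
        int_bdd hψ hwc hK hε
      apply setIntegral_mono_on (k1.abs.const_mul _).neg k2 measurableSet_Ioi
      intro u hu
      have hu1 : 1 < u := hu
      simp only [Pi.neg_apply]
      rcases le_or_gt u0 u with h1 | h1
      · have h2 : 0 ≤ ψ u := by
          have := hu0 u h1
          simp only [hψdef]
          linarith
        have h3 : 0 ≤ ψ u * Real.exp (-(ε * u)) * w u := by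
          have := hw0 u
          positivity
        have h4 : 0 ≤ Real.exp (max u0 0) * |ψ u * Real.exp (-(1 * u)) * w u| := by positivity
        linarith
      · have h2 : |ψ u * Real.exp (-(ε * u)) * w u| ≤
            Real.exp (max u0 0) * |ψ u * Real.exp (-(1 * u)) * w u| := by
          have e1 : Real.exp (-(ε * u)) ≤ Real.exp (max u0 0) * Real.exp (-(1 * u)) := by
            rw [← Real.exp_add]
            apply Real.exp_le_exp.2
            have := le_max_left u0 0
            have h5 : 0 ≤ ε * u := by positivity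
            linarith
          rw [abs_mul, abs_mul, abs_mul, abs_mul, abs_of_pos (Real.exp_pos _),
            abs_of_pos (Real.exp_pos _)]
          calc |ψ u| * Real.exp (-(ε * u)) * |w u|
              ≤ |ψ u| * (Real.exp (max u0 0) * Real.exp (-(1 * u))) * |w u| := by
                apply mul_le_mul_of_nonneg_right _ (abs_nonneg _)
                exact mul_le_mul_of_nonneg_left e1 (abs_nonneg _)
            _ = _ := by ring
        have h3 := neg_abs_le (ψ u * Real.exp (-(ε * u)) * w u)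
        linarith
    have hge : 0 ≤ ∑ x ∈ Λ, c x * (σ / (σ ^ 2 + x ^ 2)) *
          (σ * (if x = 0 then B else 0) + x * τ * (if x = 0 then 0 else -(τ * a x / x))) := by
      have h1 : Tendsto (fun ε : ℝ => -(ε * D)) (𝓝[>] 0) (𝓝 0) := by
        have h2 : Continuous (fun ε : ℝ => -(ε * D)) := by fun_prop
        have h3 := (h2.tendsto 0).mono_left (nhdsWithin_le_nhds (s := Ioi 0))
        simpa using h3
      refine le_of_tendsto_of_tendsto h1 hI ?_
      have h2 : ∀ᶠ ε : ℝ in 𝓝[>] 0, ε < 1 :=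
        nhdsWithin_le_nhds (gt_mem_nhds (by norm_num))
      filter_upwards [self_mem_nhdsWithin, h2] with ε hε hε1
      exact hlow ε hε hε1
    -- rewriting
    have hsum : ∑ x ∈ Λ.erase 0, c x * (a x * (σ / (σ ^ 2 + x ^ 2))) ≤ B := by
      rw [← Finset.add_sum_erase Λ _ h0Λ] at hge
      have e0 : c 0 * (σ / (σ ^ 2 + (0:ℝ) ^ 2)) *
          (σ * (if (0:ℝ) = 0 then B else 0) + 0 * τ * (if (0:ℝ) = 0 then 0 else -(τ * a 0 / 0))) =
          B := by
        rw [hc1]
        simp only [if_true]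
        field_simp
        ring
      have e1 : ∑ x ∈ Λ.erase 0, c x * (σ / (σ ^ 2 + x ^ 2)) *
          (σ * (if x = 0 then B else 0) + x * τ * (if x = 0 then 0 else -(τ * a x / x))) =
          -∑ x ∈ Λ.erase 0, c x * (a x * (σ / (σ ^ 2 + x ^ 2))) := by
        rw [← Finset.sum_neg_distrib]
        apply Finset.sum_congr rfl
        intro x hx
        have hx0 : x ≠ 0 := Finset.ne_of_mem_erase hx
        rw [if_neg hx0, if_neg hx0]
        have h3 : x * τ * -(τ * a x / x) = -(a x) := by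
          have : x * τ * -(τ * a x / x) = -((τ * τ) * a x) := by field_simp
          rw [this, hττ, one_mul]
        rw [h3]
        ring
      rw [e0, e1] at hge
      linarith
    -- restriction to `J ∪ -J`
    have hJneg : Disjoint J (J.image (fun x => -x)) := by
      rw [Finset.disjoint_left]
      intro x hx hx'
      obtain ⟨y, hy, hyx⟩ := Finset.mem_image.1 hx'
      have h1 := hJ x hx
      have h2 := hJ y hy
      linarith
    have hsub : J ∪ J.image (fun x => -x) ⊆ Λ.erase 0 := by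
      intro x hx
      rcases Finset.mem_union.1 hx with h1 | h1
      · exact Finset.mem_erase.2 ⟨(hJ x h1).ne', (hcJ x h1).1⟩
      · obtain ⟨y, hy, hyx⟩ := Finset.mem_image.1 h1
        have h2 := hJ y hy
        refine Finset.mem_erase.2 ⟨?_, ?_⟩
        · intro h0
          linarith
        · rw [← hyx]
          exact hΛ y (hcJ y hy).1
    have hle : ∑ x ∈ J ∪ J.image (fun x => -x), c x * (a x * (σ / (σ ^ 2 + x ^ 2))) ≤
        ∑ x ∈ Λ.erase 0, c x * (a x * (σ / (σ ^ 2 + x ^ 2))) := by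
      apply Finset.sum_le_sum_of_subset_of_nonneg hsub
      intro x _ _
      have h1 := hc0 x
      have h2 := ha0 x
      positivity
    rw [Finset.sum_union hJneg, Finset.sum_image (fun x _ y _ hxy => neg_injective hxy)] at hle
    have hfin : (1 - δ) * S ≤ ∑ x ∈ J, c x * (a x * (σ / (σ ^ 2 + x ^ 2))) +
        ∑ x ∈ J, c (-x) * (a (-x) * (σ / (σ ^ 2 + (-x) ^ 2))) := by
      rw [hS, Finset.mul_sum, ← Finset.sum_add_distrib]
      apply Finset.sum_le_sum
      intro x hx
      rw [hcev, haev, neg_sq]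
      have h1 := (hcJ x hx).2
      have h2 := ha0 x
      have h3 : 0 ≤ a x * (2 * σ / (σ ^ 2 + x ^ 2)) := by positivity
      calc (1 - δ) * (a x * (2 * σ / (σ ^ 2 + x ^ 2)))
          ≤ c x * (a x * (2 * σ / (σ ^ 2 + x ^ 2))) := mul_le_mul_of_nonneg_right h1 h3
        _ = _ := by ring
    linarith
  -- let `δ → 0`
  have hfinal : Tendsto (fun δ : ℝ => (1 - δ) * S) (𝓝[>] 0) (𝓝 S) := by
    have h2 : Continuous (fun δ : ℝ => (1 - δ) * S) := by fun_prop
    have h3 := (h2.tendsto 0).mono_left (nhdsWithin_le_nhds (s := Ioi 0))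
    simpa using h3
  refine le_of_tendsto hfinal ?_
  have h2 : ∀ᶠ δ : ℝ in 𝓝[>] 0, δ < 1 :=
    nhdsWithin_le_nhds (gt_mem_nhds (by norm_num))
  filter_upwards [self_mem_nhdsWithin, h2] with δ hδ hδ1
  exact key δ hδ hδ1

end Pool.Agent.NH98.RT.Abel

namespace Pool.Agent.NH98.RT

theorem t_abel (h : S_kernel) : S_abel := Abel.main h

end Pool.Agent.NH98.RT
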