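import Pool.Agent.NH98.RT.Stm

/-! # RT-1: the kernel of Bochner and Fejér

Instead of a basis: the boxes `A n` in the group generated by `J` grow polynomially, so for some `n`
`#A (n+1) ≤ (1 + δ) #A n`; then `c x = #{(a, b) : a - b = x} / #A n`. -/

set_option autoImplicit false

open Filter Topology

namespace Pool.Agent.NH98.RT.Ker

/-- the box -/
noncomputable def A (J : Finset ℝ) (n : ℕ) : Finset ℝ :=
  (Fintype.piFinset fun _ : J => Finset.Icc (-(n : ℤ)) n).image fun m => ∑ j : J, (m j : ℝ) * (j : ℝ)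

theorem mem_A {J : Finset ℝ} {n : ℕ} {a : ℝ} : a ∈ A J n ↔
    ∃ m : J → ℤ, (∀ j, -(n : ℤ) ≤ m j ∧ m j ≤ n) ∧ ∑ j : J, (m j : ℝ) * (j : ℝ) = a := by
  unfold A
  simp only [Finset.mem_image, Fintype.mem_piFinset, Finset.mem_Icc]

theorem zero_mem (J : Finset ℝ) (n : ℕ) : (0 : ℝ) ∈ A J n :=
  mem_A.2 ⟨fun _ => 0, fun _ => ⟨by simp, by simp⟩, by simp⟩

theorem mono (J : Finset ℝ) (n : ℕ) : A J n ⊆ A J (n + 1) := by
  intro a ha
  obtain ⟨m, hm, h⟩ := mem_A.1 ha
  exact mem_A.2 ⟨m, fun j => by have := hm j; push_cast; omega, h⟩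

theorem add_mem {J : Finset ℝ} {n : ℕ} {a x : ℝ} (ha : a ∈ A J n) (hx : x ∈ J) :
    a + x ∈ A J (n + 1) := by
  classical
  obtain ⟨m, hm, h⟩ := mem_A.1 ha
  refine mem_A.2 ⟨m + Pi.single (⟨x, hx⟩ : J) 1, fun j => ?_, ?_⟩
  · have := hm j
    rw [Pi.add_apply]
    by_cases hj : j = ⟨x, hx⟩
    · subst hj
      rw [Pi.single_eq_same]
      push_cast
      omega
    · rw [Pi.single_eq_of_ne hj]
      push_cast
      omega
  · simp only [Pi.add_apply, Int.cast_add, add_mul, Finset.sum_add_distrib, h]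
    congr 1
    rw [Finset.sum_eq_single (⟨x, hx⟩ : J)]
    · simp
    · intro j _ hj
      rw [Pi.single_eq_of_ne hj]
      simp
    · intro h'
      exact absurd (Finset.mem_univ _) h'

theorem card_le (J : Finset ℝ) (n : ℕ) : (A J n).card ≤ (2 * n + 1) ^ J.card := by
  unfold A
  refine Finset.card_image_le.trans ?_
  rw [Fintype.card_piFinset]
  simp only [Int.card_Icc, Finset.prod_const, Finset.card_univ, Fintype.card_coe]
  apply Nat.pow_le_pow_left
  omega

theorem growth (J : Finset ℝ) (δ : ℝ) (hδ : 0 < δ) :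
    ∃ n : ℕ, 1 ≤ n ∧ ((A J (n + 1)).card : ℝ) ≤ (1 + δ) * (A J n).card := by
  by_contra hc
  push Not at hc
  have h1 : ∀ n : ℕ, (1 + δ) ^ n ≤ ((A J (n + 1)).card : ℝ) := by
    intro n
    induction n with
    | zero =>
      rw [pow_zero]
      exact_mod_cast Finset.card_pos.2 ⟨0, zero_mem J 1⟩
    | succ n ih =>
      have := (hc (n + 1) (by omega)).le
      rw [pow_succ']
      refine le_trans ?_ this
      exact mul_le_mul_of_nonneg_left ih (by linarith)
  have h2 : ∀ n : ℕ, 1 ≤ n → (1 + δ) ^ n ≤ (5 : ℝ) ^ J.card * (n : ℝ) ^ J.card := by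
    intro n hn
    refine (h1 n).trans ?_
    have h3 : ((A J (n + 1)).card : ℝ) ≤ ((2 * (n + 1) + 1 : ℕ) : ℝ) ^ J.card := by
      exact_mod_cast card_le J (n + 1)
    refine h3.trans ?_
    rw [← mul_pow]
    apply pow_le_pow_left₀ (by positivity)
    have : (1 : ℝ) ≤ n := by exact_mod_cast hn
    push_cast
    linarith
  have h4 := tendsto_pow_const_div_const_pow_of_one_lt J.card (r := 1 + δ) (by linarith)
  have h5 : ∀ᶠ n : ℕ in atTop, (n : ℝ) ^ J.card / (1 + δ) ^ n < 1 / (5 : ℝ) ^ J.card :=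
    h4.eventually_lt_const (by positivity)
  obtain ⟨n, hn1, hn2⟩ := (h5.and (eventually_ge_atTop 1)).exists
  have h6 := h2 n hn2
  have h7 : (0 : ℝ) < (1 + δ) ^ n := by positivity
  rw [div_lt_div_iff₀ h7 (by positivity)] at hn1
  linarith

/-- the fibres -/
noncomputable def F (B : Finset ℝ) (x : ℝ) : Finset (ℝ × ℝ) := (B ×ˢ B).filter fun p => p.1 - p.2 = x

theorem F_neg (B : Finset ℝ) (x : ℝ) : (F B (-x)).card = (F B x).card := by
  refine Finset.card_bij (fun p _ => (p.2, p.1)) ?_ ?_ ?_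
  · intro p hp
    obtain ⟨h1, h2⟩ := Finset.mem_filter.1 hp
    obtain ⟨h3, h4⟩ := Finset.mem_product.1 h1
    exact Finset.mem_filter.2 ⟨Finset.mem_product.2 ⟨h4, h3⟩, by simp only; linarith⟩
  · rintro ⟨a, b⟩ _ ⟨c, d⟩ _ h
    simp only [Prod.mk.injEq] at h ⊢
    exact ⟨h.2, h.1⟩
  · rintro ⟨a, b⟩ hp
    obtain ⟨h1, h2⟩ := Finset.mem_filter.1 hp
    obtain ⟨h3, h4⟩ := Finset.mem_product.1 h1
    exact ⟨(b, a), Finset.mem_filter.2 ⟨Finset.mem_product.2 ⟨h4, h3⟩, by simp only at h2 ⊢; linarith⟩,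
      rfl⟩

theorem F_zero (B : Finset ℝ) : (F B 0).card = B.card := by
  symm
  refine Finset.card_bij (fun a _ => (a, a)) ?_ ?_ ?_
  · intro a ha
    exact Finset.mem_filter.2 ⟨Finset.mem_product.2 ⟨ha, ha⟩, sub_self a⟩
  · intro a _ b _ h
    simp only [Prod.mk.injEq] at h
    exact h.1
  · rintro ⟨a, b⟩ hp
    obtain ⟨h1, h2⟩ := Finset.mem_filter.1 hp
    obtain ⟨h3, h4⟩ := Finset.mem_product.1 h1
    simp only at h2
    have : a = b := by linarith
    subst this
    exact ⟨a, h3, rfl⟩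

theorem F_lower (J : Finset ℝ) (n : ℕ) {x : ℝ} (hx : x ∈ J) :
    2 * (A J n).card ≤ (F (A J n) x).card + (A J (n + 1)).card := by
  classical
  set B := A J n with hB
  set B' := B.image (fun b => b + x) with hB'
  have hc : B'.card = B.card := Finset.card_image_of_injective _ (add_left_injective x)
  have h1 : (B ∪ B').card ≤ (A J (n + 1)).card := by
    apply Finset.card_le_card
    apply Finset.union_subset (mono J n)
    intro a ha
    obtain ⟨b, hb, rfl⟩ := Finset.mem_image.1 ha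
    exact add_mem hb hx
  have h2 : (B ∩ B').card ≤ (F B x).card := by
    refine Finset.card_le_card_of_injOn (fun a => (a, a - x)) ?_ ?_
    · intro a ha
      obtain ⟨ha1, ha2⟩ := Finset.mem_inter.1 ha
      obtain ⟨b, hb, hb'⟩ := Finset.mem_image.1 ha2
      refine Finset.mem_filter.2 ⟨Finset.mem_product.2 ⟨ha1, ?_⟩, by simp⟩
      have : a - x = b := by rw [← hb']; ring
      change a - x ∈ B
      rw [this]
      exact hb
    · intro a _ b _ h
      simp only [Prod.mk.injEq] at h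
      exact h.1
  have h3 := Finset.card_union_add_card_inter B B'
  omega

theorem pos (B : Finset ℝ) (y : ℝ) :
    0 ≤ ∑ x ∈ (B ×ˢ B).image (fun p => p.1 - p.2), ((F B x).card : ℝ) * Real.cos (x * y) := by
  have h := Finset.sum_comp (s := B ×ˢ B) (fun x : ℝ => Real.cos (x * y)) (fun p => p.1 - p.2)
  have h2 : ∑ x ∈ (B ×ˢ B).image (fun p => p.1 - p.2), ((F B x).card : ℝ) * Real.cos (x * y) =
      ∑ p ∈ B ×ˢ B, Real.cos ((p.1 - p.2) * y) := by
    rw [h]
    refine Finset.sum_congr rfl fun x _ => ?_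
    rw [nsmul_eq_mul]
    rfl
  rw [h2, Finset.sum_product]
  have h3 : ∑ a ∈ B, ∑ b ∈ B, Real.cos ((a - b) * y) =
      (∑ a ∈ B, Real.cos (a * y)) ^ 2 + (∑ a ∈ B, Real.sin (a * y)) ^ 2 := by
    rw [sq, sq, Finset.sum_mul_sum, Finset.sum_mul_sum, ← Finset.sum_add_distrib]
    refine Finset.sum_congr rfl fun a _ => ?_
    rw [← Finset.sum_add_distrib]
    refine Finset.sum_congr rfl fun b _ => ?_
    rw [sub_mul, Real.cos_sub]
  rw [h3]
  positivity

end Ker

theorem t_kernel : S_kernel := by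
  intro J δ hδ
  obtain ⟨n, hn, hg⟩ := Ker.growth J δ hδ
  set B := Ker.A J n with hB
  have hBpos : 0 < (B.card : ℝ) := by
    exact_mod_cast Finset.card_pos.2 ⟨0, Ker.zero_mem J n⟩
  refine ⟨(B ×ˢ B).image (fun p => p.1 - p.2), fun x => ((Ker.F B x).card : ℝ) / B.card,
    ?_, ?_, ?_, ?_, ?_, ?_, ?_⟩
  · intro x hx
    obtain ⟨p, hp, rfl⟩ := Finset.mem_image.1 hx
    obtain ⟨h1, h2⟩ := Finset.mem_product.1 hp
    exact Finset.mem_image.2 ⟨(p.2, p.1), Finset.mem_product.2 ⟨h2, h1⟩, by simp⟩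
  · intro x
    simp only [Ker.F_neg]
  · intro x
    positivity
  · exact Finset.mem_image.2 ⟨(0, 0), Finset.mem_product.2 ⟨Ker.zero_mem J n, Ker.zero_mem J n⟩,
      by simp⟩
  · simp only [Ker.F_zero]
    exact div_self hBpos.ne'
  · intro x hx
    constructor
    · have h0 : (0 : ℝ) + x ∈ Ker.A J (0 + 1) := Ker.add_mem (Ker.zero_mem J 0) hx
      have h1 : ∀ k : ℕ, x ∈ Ker.A J (k + 1) := by
        intro k
        induction k with
        | zero => simpa using h0
        | succ k ih => exact Ker.mono J _ ih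
      have h2 : x ∈ B := by
        have := h1 (n - 1)
        rwa [Nat.sub_add_cancel hn] at this
      exact Finset.mem_image.2 ⟨(x, 0), Finset.mem_product.2 ⟨h2, Ker.zero_mem J n⟩, by simp⟩
    · rw [le_div_iff₀ hBpos]
      have h1 := Ker.F_lower J n hx
      have h2 : 2 * (B.card : ℝ) ≤ (Ker.F B x).card + (Ker.A J (n + 1)).card := by
        exact_mod_cast h1
      linarith
  · intro y
    have h := Ker.pos B y
    have h2 : ∑ x ∈ (B ×ˢ B).image (fun p => p.1 - p.2),
        ((Ker.F B x).card : ℝ) / B.card * Real.cos (x * y) =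
        (∑ x ∈ (B ×ˢ B).image (fun p => p.1 - p.2), ((Ker.F B x).card : ℝ) * Real.cos (x * y)) /
          B.card := by
      rw [Finset.sum_div]
      refine Finset.sum_congr rfl fun x _ => ?_
      ring
    rw [h2]
    exact div_nonneg h hBpos.le

end Pool.Agent.NH98.RT
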