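import Pool.Agent.NH98.RT.Stm

/-! # RT-3: a theorem of Hadamard

`ξ²` is even, hence of the form `G(s²)` with `G` entire. The zeros of `G` in a disc are divided out, the quotient is estimated
with the theorem of Borel and Carathéodory. -/

set_option autoImplicit false

open MeasureTheory Filter Topology Set

namespace Pool.Agent.NH98.RT.Had

open Complex Metric

/-- logarithm of a function without zeros on a disc -/
theorem exists_log {g : ℂ → ℂ} {ρ : ℝ} (hρ : 0 < ρ) (hg : Differentiable ℂ g)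
    (h0 : ∀ z ∈ ball (0 : ℂ) ρ, g z ≠ 0) :
    ∃ h : ℂ → ℂ, DifferentiableOn ℂ h (ball 0 ρ) ∧ h 0 = 0 ∧
      ∀ z ∈ ball (0 : ℂ) ρ, g z = g 0 * exp (h z) := by
  have hd : DifferentiableOn ℂ (fun z => deriv g z / g z) (ball 0 ρ) := by
    apply DifferentiableOn.div
    · exact (hg.differentiableOn (s := univ)).deriv isOpen_univ |>.mono (subset_univ _)
    · exact hg.differentiableOn
    · exact h0
  obtain ⟨h, hh0, hh⟩ := (hd.isExactOn_ball).with_val_at 0 0
  have hmem : (0 : ℂ) ∈ ball (0 : ℂ) ρ := mem_ball_self hρ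
  have hdh : DifferentiableOn ℂ h (ball 0 ρ) := fun z hz =>
    (hh z hz).differentiableAt.differentiableWithinAt
  refine ⟨h, hdh, hh0, fun z hz => ?_⟩
  have hconst := isOpen_ball.is_const_of_deriv_eq_zero (𝕜 := ℂ)
    (f := fun z => g z * exp (-h z)) (s := ball (0 : ℂ) ρ) (convex_ball _ _).isPreconnected
    (fun z hz => ((hg z).mul ((hh z hz).differentiableAt.neg.cexp)).differentiableWithinAt)
    (fun z hz => by
      have h1 : HasDerivAt (fun z => g z * exp (-h z))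
          (deriv g z * exp (-h z) + g z * (exp (-h z) * -(deriv g z / g z))) z :=
        (hg z).hasDerivAt.mul ((hh z hz).neg.cexp)
      rw [h1.deriv]
      have := h0 z hz
      simp only [Pi.zero_apply]
      field_simp
      ring) hmem hz
  simp only [hh0, neg_zero, exp_zero, mul_one] at hconst
  rw [hconst, mul_assoc, ← exp_add, neg_add_cancel, exp_zero, mul_one]

/-- division by the power of a linear factor -/
theorem exists_div {g : ℂ → ℂ} (hg : Differentiable ℂ g) (hne : ∃ z, g z ≠ 0) (a : ℂ) :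
    ∃ g₁ : ℂ → ℂ, Differentiable ℂ g₁ ∧ g₁ a ≠ 0 ∧
      ∀ z, g z = (z - a) ^ (analyticOrderNatAt g a) * g₁ z := by
  classical
  have han : AnalyticAt ℂ g a := hg.analyticAt a
  have htop : analyticOrderAt g a ≠ ⊤ := by
    intro h
    rw [analyticOrderAt_eq_top] at h
    have h1 : AnalyticOnNhd ℂ g univ := fun z _ => hg.analyticAt z
    have h2 := h1.eqOn_zero_of_preconnected_of_eventuallyEq_zero isPreconnected_univ
      (mem_univ a) h
    obtain ⟨z, hz⟩ := hne
    exact hz (h2 (mem_univ z))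
  set n := analyticOrderNatAt g a with hn
  have hn' : analyticOrderAt g a = (n : ℕ∞) := by
    rw [hn, Nat.cast_analyticOrderNatAt htop]
  obtain ⟨g₀, hg₀, hg₀a, hev⟩ := (han.analyticOrderAt_eq_natCast).mp hn'
  refine ⟨Function.update (fun z => g z / (z - a) ^ n) a (g₀ a), ?_, ?_, ?_⟩
  · intro z
    by_cases hz : z = a
    · subst hz
      refine (hg₀.differentiableAt).congr_of_eventuallyEq ?_
      filter_upwards [hev] with w hw
      by_cases hwz : w = z
      · subst hwz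
        rw [Function.update_self]
      · rw [Function.update_of_ne hwz, hw, smul_eq_mul]
        have : (w - z) ^ n ≠ 0 := pow_ne_zero _ (sub_ne_zero.mpr hwz)
        field_simp
    · have h1 : DifferentiableAt ℂ (fun z => g z / (z - a) ^ n) z := by
        apply DifferentiableAt.div (hg z)
        · fun_prop
        · exact pow_ne_zero _ (sub_ne_zero.mpr hz)
      refine h1.congr_of_eventuallyEq ?_
      filter_upwards [isOpen_ne.mem_nhds hz] with w hw
      rw [Function.update_of_ne hw]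
  · rw [Function.update_self]
    exact hg₀a
  · intro z
    by_cases hz : z = a
    · subst hz
      rw [Function.update_self]
      have := hev.self_of_nhds
      rwa [smul_eq_mul] at this
    · rw [Function.update_of_ne hz]
      have : (z - a) ^ n ≠ 0 := pow_ne_zero _ (sub_ne_zero.mpr hz)
      field_simp

/-- division by a finite product -/
theorem exists_div_prod {G : ℂ → ℂ} (hG : Differentiable ℂ G) (hne : ∃ z, G z ≠ 0)
    (S : Finset ℂ) (hS : (0 : ℂ) ∉ S) :
    ∃ g : ℂ → ℂ, Differentiable ℂ g ∧ (∀ a ∈ S, g a ≠ 0) ∧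
      ∀ z, G z = (∏ a ∈ S, (1 - z / a) ^ (analyticOrderNatAt G a)) * g z := by
  classical
  induction S using Finset.induction_on with
  | empty => exact ⟨G, hG, by simp, by simp⟩
  | insert a S ha ih =>
    obtain ⟨g, hg, hgS, hGg⟩ := ih (fun h => hS (Finset.mem_insert_of_mem h))
    have ha0 : a ≠ 0 := fun h => hS (by rw [h]; exact Finset.mem_insert_self _ _)
    have hne' : ∃ z, g z ≠ 0 := by
      obtain ⟨z, hz⟩ := hne
      refine ⟨z, fun h => hz ?_⟩
      rw [hGg z, h, mul_zero]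
    obtain ⟨g₁, hg₁, hg₁a, hgg₁⟩ := exists_div hg hne' a
    set P : ℂ → ℂ := fun z => ∏ a ∈ S, (1 - z / a) ^ (analyticOrderNatAt G a) with hP
    have hPd : Differentiable ℂ P := by
      intro z
      apply DifferentiableAt.fun_finsetProd
      intro i _
      fun_prop
    have hPa : P a ≠ 0 := by
      rw [hP]
      simp only
      rw [Finset.prod_ne_zero_iff]
      intro b hb
      apply pow_ne_zero
      have hb0 : b ≠ 0 := fun h => hS (by rw [← h]; exact Finset.mem_insert_of_mem hb)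
      intro h
      have h2 : a / b = 1 := (sub_eq_zero.mp h).symm
      rw [div_eq_one_iff_eq hb0] at h2
      exact ha (by rw [h2]; exact hb)
    have hord : analyticOrderNatAt G a = analyticOrderNatAt g a := by
      have h1 : G = P * g := funext hGg
      unfold analyticOrderNatAt
      rw [h1, analyticOrderAt_mul (hPd.analyticAt a) (hg.analyticAt a),
        ((hPd.analyticAt a).analyticOrderAt_eq_zero).mpr hPa, zero_add]
    refine ⟨fun z => (-a) ^ (analyticOrderNatAt G a) * g₁ z, hg₁.const_mul _, ?_, ?_⟩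
    · intro b hb
      rw [Finset.mem_insert] at hb
      refine mul_ne_zero (pow_ne_zero _ (neg_ne_zero.mpr ha0)) ?_
      rcases hb with rfl | hb
      · exact hg₁a
      · intro h
        apply hgS b hb
        rw [hgg₁ b, h, mul_zero]
    · intro z
      rw [Finset.prod_insert ha, hGg z, hgg₁ z, ← hord]
      have h3 : (z - a) = (-a) * (1 - z / a) := by
        field_simp
        ring
      rw [h3, mul_pow]
      ring

/-- the zeros in a disc -/
theorem finite_zeros {G : ℂ → ℂ} (hG : Differentiable ℂ G) (hne : ∃ z, G z ≠ 0) (ρ : ℝ) :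
    {z : ℂ | z ∈ closedBall (0 : ℂ) ρ ∧ G z = 0}.Finite := by
  by_contra hinf
  have hsub : {z : ℂ | z ∈ closedBall (0 : ℂ) ρ ∧ G z = 0} ⊆ closedBall (0 : ℂ) ρ := fun z hz => hz.1
  obtain ⟨x, -, hx⟩ := Set.Infinite.exists_accPt_of_subset_isCompact hinf
    (isCompact_closedBall _ _) hsub
  rw [accPt_iff_frequently_nhdsNE] at hx
  have h1 : AnalyticOnNhd ℂ G univ := fun z _ => hG.analyticAt z
  have h2 := h1.eqOn_zero_of_preconnected_of_frequently_eq_zero isPreconnected_univ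
    (mem_univ x) (hx.mono fun z hz => hz.2)
  obtain ⟨z, hz⟩ := hne
  exact hz (h2 (mem_univ z))

/-- an even entire function is a function of the square -/
theorem exists_sq {F : ℂ → ℂ} (hF : Differentiable ℂ F) (hev : ∀ s, F (-s) = F s) :
    ∃ G : ℂ → ℂ, Differentiable ℂ G ∧ ∀ s, F s = G (s ^ 2) := by
  have hsq : ∀ s t : ℂ, s ^ 2 = t ^ 2 → F s = F t := by
    intro s t h
    rcases sq_eq_sq_iff_eq_or_eq_neg.mp h with rfl | rfl
    · rfl
    · exact hev t
  set r : ℂ → ℂ := fun z => z ^ (((2 : ℕ) : ℂ)⁻¹) with hr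
  have hr2 : ∀ z, (r z) ^ 2 = z := fun z => cpow_nat_inv_pow z (by norm_num)
  have hrd : ∀ z ∈ slitPlane, DifferentiableAt ℂ r z := by
    intro z hz
    exact (differentiableAt_id).cpow (differentiableAt_const _) hz
  have hr' : ∀ z, F (r z) = F (I * r (-z)) := by
    intro z
    apply hsq
    rw [mul_pow, hr2, hr2, I_sq]
    ring
  refine ⟨fun z => F (r z), ?_, fun s => hsq _ _ (hr2 _).symm⟩
  have hne : ∀ z, z ≠ 0 → DifferentiableAt ℂ (fun z => F (r z)) z := by
    intro z hz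
    by_cases hs : z ∈ slitPlane
    · exact (hF (r z)).comp z (hrd z hs)
    · have hs' : -z ∈ slitPlane := by
        rcases mem_slitPlane_or_neg_mem_slitPlane hz with h | h
        · exact absurd h hs
        · exact h
      have h1 : (fun z => F (r z)) = fun z => F (I * r (-z)) := funext hr'
      rw [h1]
      have h2 : DifferentiableAt ℂ (fun z : ℂ => I * r (-z)) z := by
        apply DifferentiableAt.const_mul
        exact (hrd (-z) hs').comp z differentiableAt_id.neg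
      exact (hF _).comp z h2
  have hcont : ContinuousAt (fun z => F (r z)) 0 := by
    have h1 : ContinuousAt r 0 := by
      apply continuousAt_cpow_const_of_re_pos
      · left
        simp
      · norm_num
    exact (hF.continuous.continuousAt).comp h1
  have h3 := (differentiableOn_compl_singleton_and_continuousAt_iff (f := fun z => F (r z))
    (s := univ) (c := 0) univ_mem).mp ⟨fun z hz => (hne z hz.2).differentiableWithinAt, hcont⟩
  exact fun z => (h3 z (mem_univ z)).differentiableAt univ_mem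

/-- the sum over the zeros -/
theorem sum_log_le {ι : Type*} (J : Finset ι) (m x : ι → ℝ) (B : ℝ) (hx : ∀ i ∈ J, 0 < x i)
    (h : ∀ σ : ℝ, 0 < σ → ∑ i ∈ J, m i * (2 * σ / (σ ^ 2 + x i ^ 2)) ≤ B) (σ : ℝ) (hσ : 0 ≤ σ) :
    ∑ i ∈ J, m i * Real.log (1 + σ ^ 2 / x i ^ 2) ≤ B * σ := by
  set φ : ℝ → ℝ := fun t => B * t - ∑ i ∈ J, m i * Real.log (1 + t ^ 2 / x i ^ 2) with hφ
  have hder : ∀ t, HasDerivAt φ (B * 1 - ∑ i ∈ J, m i * (2 * t / (t ^ 2 + x i ^ 2))) t := by
    intro t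
    apply HasDerivAt.sub ((hasDerivAt_id t).const_mul B)
    apply HasDerivAt.fun_sum
    intro i hi
    apply HasDerivAt.const_mul
    have hxi := hx i hi
    have h1 : HasDerivAt (fun t : ℝ => 1 + t ^ 2 / x i ^ 2) (2 * t / x i ^ 2) t := by
      have h2 := ((hasDerivAt_pow 2 t).div_const (x i ^ 2)).const_add 1
      simpa using h2
    have h3 : (0 : ℝ) < 1 + t ^ 2 / x i ^ 2 := by positivity
    have h4 := h1.log h3.ne'
    have h5 : 2 * t / (t ^ 2 + x i ^ 2) = 2 * t / x i ^ 2 / (1 + t ^ 2 / x i ^ 2) := by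
      field_simp
      rw [add_comm]
    rw [h5]
    exact h4
  have hmono : MonotoneOn φ (Ici 0) := by
    apply monotoneOn_of_deriv_nonneg (convex_Ici 0)
    · exact fun t _ => (hder t).continuousAt.continuousWithinAt
    · exact fun t _ => (hder t).differentiableAt.differentiableWithinAt
    · intro t ht
      rw [interior_Ici, mem_Ioi] at ht
      rw [(hder t).deriv]
      have := h t ht
      linarith
  have h0 := hmono (mem_Ici.mpr le_rfl) (mem_Ici.mpr hσ) hσ
  simp only [hφ] at h0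
  have h1 : ∑ i ∈ J, m i * Real.log (1 + (0 : ℝ) ^ 2 / x i ^ 2) = 0 := by
    apply Finset.sum_eq_zero
    intro i _
    simp
  rw [h1] at h0
  linarith

/-- the estimate of the quotient -/
theorem quotient_bound {g : ℂ → ℂ} (hg : Differentiable ℂ g) {ρ M' : ℝ} (hρ : 0 < ρ)
    (h0 : ∀ z ∈ ball (0 : ℂ) ρ, g z ≠ 0) (hM : 0 < M')
    (hb : ∀ z ∈ ball (0 : ℂ) ρ, ‖g z‖ ≤ ‖g 0‖ * Real.exp M') {z : ℂ} (hz : z ∈ ball (0 : ℂ) ρ) :
    ‖g z‖ ≤ ‖g 0‖ * Real.exp (2 * M' * ‖z‖ / (ρ - ‖z‖)) := by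
  obtain ⟨h, hd, hh0, hh⟩ := exists_log hρ hg h0
  have hg0 : 0 < ‖g 0‖ := norm_pos_iff.mpr (h0 0 (mem_ball_self hρ))
  have h1 : MapsTo h (ball 0 ρ) {z | z.re ≤ M'} := by
    intro w hw
    have h2 := hb w hw
    rw [hh w hw, norm_mul, norm_exp] at h2
    have h3 : Real.exp (h w).re ≤ Real.exp M' := le_of_mul_le_mul_left h2 hg0
    exact Real.exp_le_exp.mp h3
  have h2 := borelCaratheodory_zero hM hd h1 hρ hz hh0
  rw [hh z hz, norm_mul, norm_exp]
  apply mul_le_mul_of_nonneg_left _ hg0.le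
  apply Real.exp_le_exp.mpr
  exact ((le_abs_self _).trans (abs_re_le_norm _)).trans h2

/-- the numerical choice of the radius -/
theorem choice (C c σ : ℝ) (hσ : 1 ≤ σ) :
    ∃ R : ℝ, σ < R ∧ 1 ≤ R ∧ ∃ M' : ℝ, 0 < M' ∧
      |C| * (1 + 2 * R) * Real.log (2 + 2 * R) + |c| ≤ M' ∧
      2 * M' * σ ^ 2 / (R ^ 2 - σ ^ 2) ≤ 1 := by
  set L : ℝ := 12 * |C| + |c| + 1 with hL
  have hL1 : 1 ≤ L := by
    have := abs_nonneg C
    have := abs_nonneg c
    linarith
  set T : ℝ := (2 * L + 1) * σ ^ 2 with hT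
  have hσ2 : 1 ≤ σ ^ 2 := one_le_pow₀ hσ
  have hT1 : 3 ≤ T := by
    rw [hT]
    nlinarith
  have hT2 : 3 * σ ^ 2 ≤ T := by
    rw [hT]
    nlinarith
  have hTσ : σ < T := by nlinarith
  have hR : σ < T ^ 2 := by nlinarith
  refine ⟨T ^ 2, hR, by nlinarith, L * T ^ 3, by positivity, ?_, ?_⟩
  · have h1 : Real.log (2 + 2 * T ^ 2) ≤ 2 * (2 * T) := by
      have h2 : (2 + 2 * T ^ 2) ≤ (2 * T) ^ 2 := by nlinarith
      calc Real.log (2 + 2 * T ^ 2) ≤ Real.log ((2 * T) ^ 2) := Real.log_le_log (by positivity) h2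
        _ = 2 * Real.log (2 * T) := by rw [Real.log_pow]; norm_num
        _ ≤ 2 * (2 * T) := by
          have := Real.log_le_self (x := 2 * T) (by positivity)
          linarith
    have h3 : (1 + 2 * T ^ 2) ≤ 3 * T ^ 2 := by nlinarith
    have h4 : |C| * (1 + 2 * T ^ 2) * Real.log (2 + 2 * T ^ 2) ≤ |C| * (3 * T ^ 2) * (2 * (2 * T)) := by
      have h5 : 0 ≤ Real.log (2 + 2 * T ^ 2) := Real.log_nonneg (by nlinarith)
      gcongr
    have h6 : |c| ≤ |c| * T ^ 3 := by
      have : (1 : ℝ) ≤ T ^ 3 := one_le_pow₀ (by linarith)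
      have := abs_nonneg c
      nlinarith
    have h7 : (0 : ℝ) ≤ T ^ 3 := by positivity
    calc _ ≤ |C| * (3 * T ^ 2) * (2 * (2 * T)) + |c| * T ^ 3 := add_le_add h4 h6
      _ = (12 * |C| + |c|) * T ^ 3 := by ring
      _ ≤ L * T ^ 3 := by
        apply mul_le_mul_of_nonneg_right _ h7
        linarith
  · have h1 : (0 : ℝ) < (T ^ 2) ^ 2 - σ ^ 2 := by nlinarith
    rw [div_le_one h1]
    have h2 : (T ^ 2) ^ 2 = (2 * L + 1) * σ ^ 2 * T ^ 3 := by
      rw [← hT]
      ring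
    rw [h2]
    have h3 : (1 : ℝ) ≤ T ^ 3 := one_le_pow₀ (by linarith)
    nlinarith

/-- the zeros of `G₁` and the orders of the zeros of `ξ` -/
theorem order_rel {ξ G G₁ : ℂ → ℂ} {k : ℕ} (hξ : Differentiable ℂ ξ)
    (hG₁ : Differentiable ℂ G₁) (hF : ∀ s, ξ s ^ 2 = G (s ^ 2)) (hk : ∀ z, G z = z ^ k * G₁ z)
    {x : ℝ} (hx : 0 < x) :
    analyticOrderNatAt G₁ (-((x : ℂ) ^ 2)) = 2 * analyticOrderNatAt ξ ((x : ℂ) * I) := by
  have hx0 : (x : ℂ) ≠ 0 := by exact_mod_cast hx.ne'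
  have hsq : ((x : ℂ) * I) ^ 2 = -((x : ℂ) ^ 2) := by
    rw [mul_pow, I_sq]
    ring
  have h1 : analyticOrderAt (ξ ^ 2) ((x : ℂ) * I) = 2 • analyticOrderAt ξ ((x : ℂ) * I) :=
    analyticOrderAt_pow (hξ.analyticAt _) 2
  have h2 : ξ ^ 2 = G ∘ (fun s : ℂ => s ^ 2) := by
    funext s
    exact hF s
  have h3 : analyticOrderAt (G ∘ (fun s : ℂ => s ^ 2)) ((x : ℂ) * I) =
      analyticOrderAt G (((x : ℂ) * I) ^ 2) := by
    apply analyticOrderAt_comp_of_deriv_ne_zero (g := fun s : ℂ => s ^ 2)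
    · fun_prop
    · simp [hx0]
  have h4 : G = (fun z => z ^ k) * G₁ := funext hk
  have h5 : analyticOrderAt G (-((x : ℂ) ^ 2)) = analyticOrderAt G₁ (-((x : ℂ) ^ 2)) := by
    have h6 : AnalyticAt ℂ (fun z : ℂ => z ^ k) (-((x : ℂ) ^ 2)) := by fun_prop
    rw [h4, analyticOrderAt_mul h6 (hG₁.analyticAt _), (h6.analyticOrderAt_eq_zero).mpr, zero_add]
    exact pow_ne_zero _ (neg_ne_zero.mpr (pow_ne_zero _ hx0))
  rw [hsq, h5] at h3
  rw [← h2, h1] at h3
  unfold analyticOrderNatAt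
  rw [← h3]
  simp [ENat.toNat_mul]

/-- the factors are at least one on a large circle -/
theorem factor_ge {ρ : ℝ} {z a : ℂ} (ha : a ≠ 0) (haρ : ‖a‖ ≤ ρ) (hz : ‖z‖ = 4 * ρ) (n : ℕ) :
    1 ≤ ‖(1 - z / a) ^ n‖ := by
  rw [norm_pow]
  apply one_le_pow₀
  have ha0 : 0 < ‖a‖ := norm_pos_iff.mpr ha
  have h1 : 4 ≤ ‖z / a‖ := by
    rw [norm_div, hz, le_div_iff₀ ha0]
    linarith
  have h2 : ‖z / a‖ - ‖(1 : ℂ)‖ ≤ ‖z / a - 1‖ := norm_sub_norm_le _ _
  rw [norm_one] at h2
  rw [norm_sub_rev]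
  linarith

end Pool.Agent.NH98.RT.Had

namespace Pool.Agent.NH98.RT

open Complex Metric Had

theorem t_had : S_had := by
  classical
  intro ξ C B w hξ hgr hsym hne hre hsum
  -- the square
  have hw : w ^ 2 = 1 := by
    obtain ⟨s, hs⟩ := hne
    have h1 := hsym (-s)
    rw [neg_neg, hsym s] at h1
    have h2 : (w ^ 2 - 1) * ξ s = 0 := by linear_combination -h1
    rcases mul_eq_zero.mp h2 with h3 | h3
    · exact sub_eq_zero.mp h3
    · exact absurd h3 hs
  obtain ⟨G, hG, hF⟩ := exists_sq (F := fun s => ξ s ^ 2) (hξ.pow 2) (by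
    intro s
    rw [hsym s, mul_pow, hw, one_mul])
  have hroot : ∀ z : ℂ, ∃ s : ℂ, s ^ 2 = z ∧ ‖s‖ = √‖z‖ := by
    intro z
    refine ⟨z ^ (((2 : ℕ) : ℂ)⁻¹), cpow_nat_inv_pow z (by norm_num), ?_⟩
    have h1 : (z ^ (((2 : ℕ) : ℂ)⁻¹)) ^ 2 = z := cpow_nat_inv_pow z (by norm_num)
    conv_rhs => rw [← h1]
    rw [norm_pow, Real.sqrt_sq (norm_nonneg _)]
  have hGb : ∀ z, ‖G z‖ ≤ Real.exp (2 * C * (1 + √‖z‖) * Real.log (2 + √‖z‖)) := by
    intro z
    obtain ⟨s, rfl, hs⟩ := hroot z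
    rw [← hF s, ← hs, norm_pow]
    calc ‖ξ s‖ ^ 2 ≤ (Real.exp (C * (1 + ‖s‖) * Real.log (2 + ‖s‖))) ^ 2 :=
          pow_le_pow_left₀ (norm_nonneg _) (hgr s) 2
      _ = _ := by
        rw [← Real.exp_nat_mul]
        congr 1
        push_cast
        ring
  have hGne : ∃ z, G z ≠ 0 := by
    obtain ⟨s, hs⟩ := hne
    refine ⟨s ^ 2, ?_⟩
    rw [← hF s]
    exact pow_ne_zero _ hs
  obtain ⟨G₁, hG₁, hG₁0, hdiv⟩ := exists_div hG hGne 0
  set k := analyticOrderNatAt G 0 with hk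
  simp only [sub_zero] at hdiv
  set c : ℝ := ‖G₁ 0‖ with hc
  have hc0 : 0 < c := norm_pos_iff.mpr hG₁0
  -- the zeros of `G₁`
  have hzero : ∀ a : ℂ, G₁ a = 0 → 0 < √(-a.re) ∧ a = -(((√(-a.re) : ℝ) : ℂ) ^ 2) := by
    intro a ha
    obtain ⟨s, hs, -⟩ := hroot a
    have h1 : ξ s = 0 := by
      have h2 : ξ s ^ 2 = 0 := by rw [hF s, hs, hdiv, ha, mul_zero]
      exact pow_eq_zero_iff (by norm_num) |>.mp h2
    have h2 := hre s h1
    have hs' : s = (s.im : ℂ) * I := by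
      apply Complex.ext <;> simp [h2]
    have h3 : a = -((s.im ^ 2 : ℝ) : ℂ) := by
      rw [← hs, hs', mul_pow, I_sq]
      simp
    have h4 : -a.re = s.im ^ 2 := by
      rw [h3]
      rw [neg_re, ofReal_re, neg_neg]
    have h5 : s.im ≠ 0 := by
      intro h
      apply hG₁0
      have h7 : a = 0 := by rw [h3, h]; simp
      exact h7 ▸ ha
    have h6 : 0 < -a.re := by
      rw [h4]
      positivity
    refine ⟨Real.sqrt_pos.mpr h6, ?_⟩
    rw [← ofReal_pow, Real.sq_sqrt h6.le, h4]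
    exact h3
  refine ⟨(2 * k + 2 * B + |Real.log c| + 1) / 2, fun σ hσ => ?_⟩
  have hσ0 : 0 < σ := by linarith
  obtain ⟨R, hσR, hR1, M', hM', hMR, hM2⟩ := choice (2 * C) (Real.log c) σ hσ
  have hR0 : 0 < R := by linarith
  have hρ : 0 < R ^ 2 := by positivity
  have hfin := finite_zeros hG₁ ⟨0, hG₁0⟩ (R ^ 2)
  set S : Finset ℂ := hfin.toFinset with hS
  have hmemS : ∀ a, a ∈ S ↔ ‖a‖ ≤ R ^ 2 ∧ G₁ a = 0 := by
    intro a
    rw [hS, Set.Finite.mem_toFinset]
    simp
  have h0S : (0 : ℂ) ∉ S := by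
    rw [hmemS]
    exact fun h => hG₁0 h.2
  obtain ⟨g, hg, hgS, hGg⟩ := exists_div_prod hG₁ ⟨0, hG₁0⟩ S h0S
  have hg0 : g 0 = G₁ 0 := by
    have := hGg 0
    simpa using this.symm
  have hgne : ∀ z ∈ ball (0 : ℂ) (R ^ 2), g z ≠ 0 := by
    intro z hz h
    have h1 : z ∈ S := by
      rw [hmemS]
      refine ⟨(mem_ball_zero_iff.mp hz).le, ?_⟩
      rw [hGg z, h, mul_zero]
    exact hgS z h1 h
  have hbig : ∀ z : ℂ, ‖z‖ = 4 * R ^ 2 →
      ‖g z‖ ≤ Real.exp (|2 * C| * (1 + 2 * R) * Real.log (2 + 2 * R)) := by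
    intro z hz
    have h1 : ‖g z‖ ≤ ‖G z‖ := by
      rw [hdiv z, hGg z, norm_mul, norm_mul, norm_prod]
      have h2 : 1 ≤ ‖z ^ k‖ := by
        rw [norm_pow]
        apply one_le_pow₀
        rw [hz]
        nlinarith
      have h3 : 1 ≤ ∏ a ∈ S, ‖(1 - z / a) ^ (analyticOrderNatAt G₁ a)‖ := by
        have : ∀ a ∈ S, 1 ≤ ‖(1 - z / a) ^ (analyticOrderNatAt G₁ a)‖ := fun a ha =>
          factor_ge (fun h => h0S (h ▸ ha)) ((hmemS a).mp ha).1 hz _
        calc (1 : ℝ) = ∏ a ∈ S, 1 := by simp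
          _ ≤ _ := Finset.prod_le_prod (fun _ _ => zero_le_one) this
      have h4 : 0 ≤ ‖g z‖ := norm_nonneg _
      calc ‖g z‖ = 1 * (1 * ‖g z‖) := by ring
        _ ≤ _ := by gcongr
    have h5 : √‖z‖ = 2 * R := by
      rw [hz, show 4 * R ^ 2 = (2 * R) ^ 2 by ring, Real.sqrt_sq (by positivity)]
    have h6 := hGb z
    rw [h5] at h6
    refine h1.trans (h6.trans (Real.exp_le_exp.mpr ?_))
    have h7 : 0 ≤ Real.log (2 + 2 * R) := Real.log_nonneg (by linarith)
    have h8 : 2 * C ≤ |2 * C| := le_abs_self _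
    gcongr
  have hball : ∀ z ∈ ball (0 : ℂ) (R ^ 2), ‖g z‖ ≤ ‖g 0‖ * Real.exp M' := by
    intro z hz
    have h1 := Complex.norm_le_of_forall_mem_frontier_norm_le (U := ball (0 : ℂ) (4 * R ^ 2))
      (f := g) isBounded_ball hg.diffContOnCl
      (C := Real.exp (|2 * C| * (1 + 2 * R) * Real.log (2 + 2 * R))) (fun z hz => by
        rw [frontier_ball (0 : ℂ) (by positivity), mem_sphere_zero_iff_norm] at hz
        exact hbig z hz) (z := z) (subset_closure (ball_subset_ball (by nlinarith) hz))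
    refine h1.trans ?_
    rw [hg0, ← hc]
    have h2 : c * Real.exp M' = Real.exp (Real.log c + M') := by
      rw [Real.exp_add, Real.exp_log hc0]
    rw [h2]
    apply Real.exp_le_exp.mpr
    have := neg_abs_le (Real.log c)
    linarith
  have hσmem : ((σ ^ 2 : ℝ) : ℂ) ∈ ball (0 : ℂ) (R ^ 2) := by
    rw [mem_ball_zero_iff, norm_real, Real.norm_of_nonneg (by positivity)]
    nlinarith
  have hq := quotient_bound hg hρ hgne hM' hball hσmem
  rw [norm_real, Real.norm_of_nonneg (by positivity : (0 : ℝ) ≤ σ ^ 2), hg0, ← hc] at hq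
  have hq' : ‖g ((σ ^ 2 : ℝ) : ℂ)‖ ≤ c * Real.exp 1 :=
    hq.trans (mul_le_mul_of_nonneg_left (Real.exp_le_exp.mpr hM2) hc0.le)
  -- the product
  set x : ℂ → ℝ := fun a => √(-a.re) with hx
  have hxS : ∀ a ∈ S, 0 < x a ∧ a = -(((x a : ℝ) : ℂ) ^ 2) := fun a ha =>
    hzero a ((hmemS a).mp ha).2
  have hinj : Set.InjOn x (S : Set ℂ) := by
    intro a ha b hb hab
    rw [(hxS a ha).2, (hxS b hb).2, hab]
  have hlog := sum_log_le S (fun a => (analyticOrderNatAt ξ ((x a : ℂ) * I) : ℝ)) x B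
    (fun a ha => (hxS a ha).1) (fun t ht => by
      have h1 := hsum (S.image x) (by
        intro y hy
        rw [Finset.mem_image] at hy
        obtain ⟨a, ha, rfl⟩ := hy
        exact (hxS a ha).1) t ht
      rwa [Finset.sum_image hinj] at h1) σ hσ0.le
  have hprod : ‖∏ a ∈ S, (1 - ((σ ^ 2 : ℝ) : ℂ) / a) ^ (analyticOrderNatAt G₁ a)‖ ≤
      Real.exp (2 * (B * σ)) := by
    rw [norm_prod]
    have h1 : ∀ a ∈ S, ‖(1 - ((σ ^ 2 : ℝ) : ℂ) / a) ^ (analyticOrderNatAt G₁ a)‖ =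
        Real.exp (2 * ((analyticOrderNatAt ξ ((x a : ℂ) * I) : ℝ) *
          Real.log (1 + σ ^ 2 / x a ^ 2))) := by
      intro a ha
      obtain ⟨hx0, hxa⟩ := hxS a ha
      have h2 := order_rel hξ hG₁ hF hdiv hx0
      rw [← hxa] at h2
      have h3 : (1 - ((σ ^ 2 : ℝ) : ℂ) / a) = ((1 + σ ^ 2 / x a ^ 2 : ℝ) : ℂ) := by
        have hxc : (x a : ℂ) ≠ 0 := by exact_mod_cast hx0.ne'
        conv_lhs => rw [hxa]
        push_cast
        field_simp
        ring
      have h4 : (0 : ℝ) < 1 + σ ^ 2 / x a ^ 2 := by positivity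
      rw [h2, h3, norm_pow, norm_real, Real.norm_of_nonneg h4.le]
      rw [show 2 * ((analyticOrderNatAt ξ ((x a : ℂ) * I) : ℝ) * Real.log (1 + σ ^ 2 / x a ^ 2)) =
        ((2 * analyticOrderNatAt ξ ((x a : ℂ) * I) : ℕ) : ℝ) * Real.log (1 + σ ^ 2 / x a ^ 2) by
          push_cast; ring]
      rw [Real.exp_nat_mul, Real.exp_log h4]
    rw [Finset.prod_congr rfl h1, ← Real.exp_sum, ← Finset.mul_sum]
    apply Real.exp_le_exp.mpr
    linarith
  have hfinal : ‖ξ (σ : ℂ)‖ ^ 2 ≤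
      Real.exp ((2 * k + 2 * B + |Real.log c| + 1) / 2 * σ) ^ 2 := by
    rw [← norm_pow, hF, hdiv, hGg, norm_mul, norm_mul]
    have h1 : ‖((σ : ℂ) ^ 2) ^ k‖ ≤ Real.exp (2 * k * σ) := by
      rw [norm_pow, norm_pow, norm_real, Real.norm_of_nonneg hσ0.le, ← pow_mul]
      have h2 : σ ≤ Real.exp σ := by
        have := Real.add_one_le_exp σ
        linarith
      calc σ ^ (2 * k) ≤ (Real.exp σ) ^ (2 * k) := pow_le_pow_left₀ hσ0.le h2 _
        _ = _ := by
          rw [← Real.exp_nat_mul]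
          push_cast
          ring_nf
    have h2 : c ≤ Real.exp (|Real.log c| * σ) := by
      calc c = Real.exp (Real.log c) := (Real.exp_log hc0).symm
        _ ≤ _ := by
          apply Real.exp_le_exp.mpr
          have := le_abs_self (Real.log c)
          have := abs_nonneg (Real.log c)
          nlinarith
    have h3 : Real.exp 1 ≤ Real.exp σ := Real.exp_le_exp.mpr hσ
    have h4 : ‖g ((σ : ℂ) ^ 2)‖ ≤ Real.exp (|Real.log c| * σ) * Real.exp σ := by
      have : ((σ : ℂ) ^ 2) = ((σ ^ 2 : ℝ) : ℂ) := by push_cast; rfl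
      rw [this]
      exact hq'.trans (mul_le_mul h2 h3 (Real.exp_pos _).le (Real.exp_pos _).le)
    have h5 : ‖∏ a ∈ S, (1 - ((σ : ℂ) ^ 2) / a) ^ (analyticOrderNatAt G₁ a)‖ ≤
        Real.exp (2 * (B * σ)) := by
      have : ((σ : ℂ) ^ 2) = ((σ ^ 2 : ℝ) : ℂ) := by push_cast; rfl
      rw [this]
      exact hprod
    calc _ ≤ Real.exp (2 * k * σ) * (Real.exp (2 * (B * σ)) *
          (Real.exp (|Real.log c| * σ) * Real.exp σ)) := by
          gcongr
      _ = _ := by
        rw [← Real.exp_add, ← Real.exp_add, ← Real.exp_add, ← Real.exp_nat_mul]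
        congr 1
        push_cast
        ring
  exact (pow_le_pow_iff_left₀ (norm_nonneg _) (Real.exp_pos _).le (by norm_num)).mp hfinal

end Pool.Agent.NH98.RT
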