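import Pool.Agent.TH941.Newform

/-! # The completed `L`-function of the newform of an elliptic curve: statement

Project RT (helper98), problem MP_3283e1_nt. See the job specs for the proofs. -/

set_option autoImplicit false

open MeasureTheory Filter Topology Set CongruenceSubgroup UpperHalfPlane
open scoped MatrixGroups

namespace Pool.Agent.NH98.RT

/-- `f` is an eigenfunction of the Fricke involution with eigenvalue `±1`: `f(-1/(N z)) = w N z² f(z)`. -/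
def Fricke {N : ℕ} (f : CuspForm (Gamma0 N : Subgroup (GL (Fin 2) ℝ)) 2) : Prop :=
  ∃ w : ℂ, (w = 1 ∨ w = -1) ∧ ∀ z z' : ℍ, (z' : ℂ) = -1 / ((N : ℂ) * (z : ℂ)) →
    f z' = w * (N : ℂ) * (z : ℂ) ^ 2 * f z

/-- RT-4. The completed `L`-function `ξ(s) = N^((1+s)/2) ∫ f(it) t^s dt` of the newform of an elliptic curve. -/
def S_xi : Prop := ∀ (a b : ℤ) (F : ℂ → ℂ) (N : ℕ) [NeZero N]
  (f : CuspForm (Gamma0 N : Subgroup (GL (Fin 2) ℝ)) 2), 4 * a ^ 3 + 27 * b ^ 2 ≠ 0 →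
  Pool.Agent.W263.BSD.IsLSeries a b F → Pool.Agent.TH941.Hecke f → Pool.Agent.TH941.Belongs a b f → Fricke f →
  ∃ (ξ : ℂ → ℂ) (C : ℝ) (w : ℂ), Differentiable ℂ ξ ∧
    (∀ s : ℂ, ‖ξ s‖ ≤ Real.exp (C * (1 + ‖s‖) * Real.log (2 + ‖s‖))) ∧ (∀ s : ℂ, ξ (-s) = w * ξ s) ∧ w ≠ 0 ∧
    (∀ s : ℂ, 0 < s.re → F (1 + s) ≠ 0 → ξ s ≠ 0) ∧
    (∀ x : ℝ, analyticOrderNatAt (fun s : ℂ => F (1 + s)) ((x : ℂ) * Complex.I) =
      analyticOrderNatAt ξ ((x : ℂ) * Complex.I)) ∧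
    (∀ K : ℝ, ∃ σ : ℝ, 1 ≤ σ ∧ Real.exp (K * σ) < ‖ξ (σ : ℂ)‖)

end Pool.Agent.NH98.RT
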