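import Pool.Agent.NH98.RT.Lap3
import Pool.Agent.NH98.RT.Had
import Pool.Agent.NH98.RT.StmX
import Pool.Agent.TH270.MS.EQ3
import Pool.Agent.TH270.MS.GrowthF

/-! # The Riemann case -/

set_option autoImplicit false

open MeasureTheory Filter Topology Set
open Pool.Agent.TH942.LS (Dat)
open Pool.Agent.TH942.SL
open Pool.Agent.TH942.ES
open Pool.Agent.W263.BSD (GoodPrime pointCount IsLSeries bsdProduct bsdStar bsdProduct_pos
  bsdStar_pos rsSum corr_tendsto)
open Pool.Agent.TH270.MS Pool.Agent.TH270.MS.EQ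
open Pool.Agent.TH270.RS (cS' dat' DD_neg)

namespace Pool.Agent.NH98.RT

variable {a b : ℤ} {F : ℂ → ℂ}

/-- the orders are symmetric -/
theorem order_symm {ξ : ℂ → ℂ} (hξ : Differentiable ℂ ξ) {w : ℂ} (hw : w ≠ 0) (h : ∀ s : ℂ, ξ (-s) = w * ξ s)
    (z : ℂ) : analyticOrderNatAt ξ (-z) = analyticOrderNatAt ξ z := by
  have h1 : analyticOrderAt (fun s => ξ (-s)) z = analyticOrderAt ξ (-z) := by
    have h2 : AnalyticAt ℂ (fun s : ℂ => -s) z := by fun_prop
    have h3 := analyticOrderAt_comp_of_deriv_ne_zero (f := ξ) h2 (by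
      rw [deriv_neg]
      exact neg_ne_zero.2 one_ne_zero)
    exact h3
  have h2 : (fun s => ξ (-s)) = fun s => w * ξ s := funext h
  have h3 : analyticOrderAt (fun s => w * ξ s) z = analyticOrderAt ξ z := by
    have h4 : analyticOrderAt ((fun _ : ℂ => w) * ξ) z = analyticOrderAt (fun _ : ℂ => w) z + analyticOrderAt ξ z :=
      analyticOrderAt_mul analyticAt_const (hξ.analyticAt z)
    have h5 : analyticOrderAt (fun _ : ℂ => w) z = 0 := by
      rw [analyticAt_const.analyticOrderAt_eq_zero]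
      exact hw
    rw [h5, zero_add] at h4
    exact h4
  unfold analyticOrderNatAt
  rw [← h1, h2, h3]

/-- **The Riemann case.** -/
theorem rh_case (h4 : S_xi) {N : ℕ} [NeZero N]
    {f : CuspForm (CongruenceSubgroup.Gamma0 N : Subgroup (Matrix.GeneralLinearGroup (Fin 2) ℝ)) 2}
    (hΔ : 4 * a ^ 3 + 27 * b ^ 2 ≠ 0) (hF : IsLSeries a b F) (hf : Pool.Agent.TH941.Hecke f)
    (hb : Pool.Agent.TH941.Belongs a b f) (hw : Fricke f) (hnz : ∀ s : ℂ, 1 < s.re → F s ≠ 0) {m : ℕ}
    (hm : analyticOrderAt F 1 = m) {C₀ : ℝ} (hC₀ : 0 < C₀)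
    (hlead : iteratedDeriv m F 1 / (m.factorial : ℂ) =
      ((√2 * Real.exp (m * Real.eulerMascheroniConstant) / C₀ : ℝ) : ℂ)) {τ : ℝ} (hτ : τ = 1 ∨ τ = -1) (B : ℝ) :
    ¬ ∀ᶠ x : ℝ in atTop, τ * (Real.log x * devStar a b m C₀ x) ≤ B := by
  intro hB
  obtain ⟨C₁, κ, hgr⟩ := growth_F hΔ hF hf hb
  have H := curve_mc hF (by norm_num : (0 : ℝ) < 1 / 8) hgr
  obtain ⟨e, g, p, he, Q⟩ := H.cn
  have hne : ∀ s : ℂ, 0 < s.re → (fun s => F (1 + s)) s ≠ 0 := fun s hs => hnz _ (by simpa using hs)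
  -- the order
  have hpm : p = m := by
    have h1 := (mero_of Q.hg Q.hg0 (local_form H.hη H.hΨ Q.near)).2
    have h2 := mero_ord hF.1 hm
    rw [h1] at h2
    have h3 : ((p : ℤ) - (0 : ℕ)) = m := by exact_mod_cast h2
    have h4 : (p : ℤ) = m := by simpa using h3
    exact_mod_cast h4
  obtain ⟨hA0, hA⟩ := coeff_lim hF.1 hm
  set q : ℝ := Real.log C₀ - Real.log 2 / 2 with hq
  have hg0 : g 0 = ((√2 * Real.exp (m * Real.eulerMascheroniConstant) / C₀ : ℝ) : ℂ) := by
    rw [← hlead]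
    have h1 : Tendsto g (𝓝[≠] 0) (𝓝 (g 0)) :=
      Q.hg.continuousAt.tendsto.mono_left nhdsWithin_le_nhds
    refine tendsto_nhds_unique h1 (hA.congr' ?_)
    filter_upwards [nhdsWithin_le_nhds Q.near, self_mem_nhdsWithin] with s h2 h3
    have h4 : s ≠ 0 := h3
    rw [h2, hpm]
    field_simp
  have hgq : g 0 = Real.exp ((m : ℝ) * Real.eulerMascheroniConstant - q) := by
    rw [hg0]
    congr 1
    rw [hq, show (m : ℝ) * Real.eulerMascheroniConstant - (Real.log C₀ - Real.log 2 / 2) =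
      Real.log 2 / 2 + m * Real.eulerMascheroniConstant - Real.log C₀ by ring, Real.exp_sub, Real.exp_add,
      Real.exp_log hC₀, ← log_sqrt_two, Real.exp_log (by positivity)]
  obtain ⟨ξ, C, w, k1, k2, k3, k4, k5, k6, k7⟩ := h4 a b F N f hΔ hF hf hb hw
  have heven : ∀ x : ℝ, analyticOrderNatAt (fun s => F (1 + s)) (((-x : ℝ) : ℂ) * Complex.I) =
      analyticOrderNatAt (fun s => F (1 + s)) ((x : ℂ) * Complex.I) := by
    intro x
    rw [k6, k6]
    have : (((-x : ℝ) : ℂ) * Complex.I) = -((x : ℂ) * Complex.I) := by push_cast; ring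
    rw [this]
    exact order_symm k1 k4 k3 _
  obtain ⟨K, hK⟩ := star_close a b
  -- translation of the bound
  have hB' : ∀ᶠ u : ℝ in atTop, τ * (u * (Sh (lamS (nQ a b) e) (cS' (nQ a b) (alQ a b) e) u -
      (m : ℝ) * Real.log u - q)) ≤ B + 1 := by
    have h1 := Real.tendsto_exp_atTop.eventually hB
    have h2 : Tendsto (fun u : ℝ => |K| * (u * Real.exp (-(1 / 12 * u)))) atTop (𝓝 0) := by
      have h3 := Real.tendsto_pow_mul_exp_neg_atTop_nhds_zero 1
      have h5 : Tendsto (fun u : ℝ => 1 / 12 * u) atTop atTop :=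
        tendsto_id.const_mul_atTop (by norm_num)
      have h4 := (h3.comp h5).const_mul (12 * |K|)
      rw [mul_zero] at h4
      refine h4.congr fun u => ?_
      simp only [Function.comp_apply, pow_one]
      ring
    filter_upwards [h1, h2.eventually (gt_mem_nhds one_pos), eventually_ge_atTop 1] with u h3 h5 h6
    have hu0 : 0 < u := by linarith
    have hxe : Real.exp 1 ≤ Real.exp u := Real.exp_le_exp.2 h6
    have h7 := hK (Real.exp u) hxe
    rw [devStar_eq hC₀ hxe, Real.log_exp] at h3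
    have h8 : Real.exp u ^ (-(1 / 12 : ℝ)) = Real.exp (-(1 / 12 * u)) := by
      rw [← Real.exp_mul]
      congr 1
      ring
    rw [h8] at h7
    rw [sh_eq H.E he]
    set P := Pl (nQ a b) (alQ a b) (Real.exp u) with hP
    set L := Real.log (bsdStar a b (Real.exp u)) with hL
    have h9 : |u * (L + P)| ≤ 1 := by
      rw [abs_mul, abs_of_pos hu0]
      calc u * |L + P| ≤ u * (K * Real.exp (-(1 / 12 * u))) := mul_le_mul_of_nonneg_left h7 hu0.le
        _ ≤ u * (|K| * Real.exp (-(1 / 12 * u))) := by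
            have := le_abs_self K
            have := Real.exp_pos (-(1 / 12 * u))
            gcongr
        _ = |K| * (u * Real.exp (-(1 / 12 * u))) := by ring
        _ ≤ 1 := h5.le
    have h10 := abs_le.1 h9
    have h11 : u * (-P - (m : ℝ) * Real.log u - q) =
        u * (Real.log 2 / 2 + L - (m : ℝ) * Real.log u - Real.log C₀) - u * (L + P) := by
      rw [hq]
      ring
    rw [h11]
    rcases hτ with h | h
    · rw [h] at h3 ⊢
      linarith [h10.1]
    · rw [h] at h3 ⊢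
      linarith [h10.2]
  have hsum : ∀ J : Finset ℝ, (∀ x ∈ J, 0 < x) → ∀ v : ℝ, 0 < v →
      ∑ x ∈ J, (analyticOrderNatAt ξ ((x : ℂ) * Complex.I) : ℝ) * (2 * v / (v ^ 2 + x ^ 2)) ≤
        B + 1 + 3 * |(m : ℝ)| := by
    intro J hJ v hv
    have h1 := sums Q hne (r := (m : ℝ)) (q := q) (by rw [hpm]; simp) hgq heven hτ hB' J hJ hv
    refine le_trans (le_of_eq ?_) h1
    refine Finset.sum_congr rfl fun x _ => ?_
    rw [k6]
  have hzero : ∀ s : ℂ, ξ s = 0 → s.re = 0 := by
    intro s hs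
    rcases lt_trichotomy s.re 0 with h | h | h
    · exfalso
      have h1 : 0 < (-s).re := by rw [Complex.neg_re]; linarith
      have h2 := k5 (-s) h1 (hnz _ (by simpa using h))
      rw [k3, hs, mul_zero] at h2
      exact h2 rfl
    · exact h
    · exact absurd hs (k5 s h (hnz _ (by simpa using h)))
  obtain ⟨v, hv1, hv2⟩ := k7 0
  obtain ⟨K', hK'⟩ := t_had ξ C (B + 1 + 3 * |(m : ℝ)|) w k1 k2 k3 ⟨v, fun h => by
    rw [h, norm_zero, zero_mul, Real.exp_zero] at hv2
    linarith⟩ hzero hsum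
  obtain ⟨v', hv1', hv2'⟩ := k7 K'
  exact absurd (hK' v' hv1') (not_le.2 hv2')

end Pool.Agent.NH98.RT
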