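import Pool.Agent.NH98.RT.Tool

/-! # Limits on the line `Re s = 0` -/

set_option autoImplicit false

open MeasureTheory Filter Topology Set

namespace Pool.Agent.NH98.RT.Tool

theorem tend_shift (x : ℝ) : Tendsto (fun ε : ℝ => (ε : ℂ) + (x : ℂ) * Complex.I) (𝓝[>] 0)
    (𝓝 ((x : ℂ) * Complex.I)) := by
  have h : Continuous fun ε : ℝ => (ε : ℂ) + (x : ℂ) * Complex.I := by fun_prop
  have := h.tendsto 0
  simp only [Complex.ofReal_zero, zero_add] at this
  exact this.mono_left nhdsWithin_le_nhds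

theorem tend_eps : Tendsto (fun ε : ℝ => (ε : ℂ)) (𝓝[>] 0) (𝓝 0) := by
  have := tend_shift 0
  simpa using this

/-- `ε / (e^ε - 1) → 1` -/
theorem tend_expm : Tendsto (fun ε : ℝ => (ε : ℂ) / (Complex.exp ε - 1)) (𝓝[>] 0) (𝓝 1) := by
  have h1 : HasDerivAt Complex.exp (Complex.exp 0) 0 := Complex.hasDerivAt_exp 0
  rw [Complex.exp_zero] at h1
  have h2 := (hasDerivAt_iff_tendsto_slope.1 h1)
  have h3 : Tendsto (fun ε : ℝ => (ε : ℂ)) (𝓝[>] 0) (𝓝[≠] 0) := by
    rw [tendsto_nhdsWithin_iff]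
    refine ⟨tend_eps, ?_⟩
    filter_upwards [self_mem_nhdsWithin] with ε hε
    have : (0 : ℝ) < ε := hε
    show (ε : ℂ) ≠ 0
    exact_mod_cast this.ne'
  have h4 := (h2.comp h3).inv₀ one_ne_zero
  rw [inv_one] at h4
  refine h4.congr fun ε => ?_
  simp only [Function.comp_apply, slope_def_field, Complex.exp_zero, sub_zero, inv_div]

theorem lim_geom (x : ℝ) : Tendsto (fun ε : ℝ => (ε : ℂ) *
      (Complex.exp (-((ε : ℂ) + (x : ℂ) * Complex.I)) / (1 - Complex.exp (-((ε : ℂ) + (x : ℂ) * Complex.I)))))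
    (𝓝[>] 0) (𝓝 (if Complex.exp (-((x : ℂ) * Complex.I)) = 1 then 1 else 0)) := by
  split_ifs with h
  · refine tend_expm.congr' ?_
    filter_upwards [self_mem_nhdsWithin] with ε hε
    have hε0 : (0 : ℝ) < ε := hε
    have e1 : Complex.exp (-((ε : ℂ) + (x : ℂ) * Complex.I)) = Complex.exp (-ε) := by
      rw [neg_add, Complex.exp_add, h, mul_one]
    rw [e1, Complex.exp_neg]
    have h2 : Complex.exp ε ≠ 0 := Complex.exp_ne_zero _
    have h3 : Complex.exp (ε : ℂ) - 1 ≠ 0 := by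
      rw [← Complex.ofReal_exp, sub_ne_zero]
      intro h4
      have h5 : Real.exp ε = 1 := by exact_mod_cast h4
      rw [Real.exp_eq_one_iff] at h5
      linarith
    have h4 : 1 - (Complex.exp (ε : ℂ))⁻¹ ≠ 0 := by
      intro h5
      apply h3
      have : Complex.exp (ε : ℂ) * (1 - (Complex.exp (ε : ℂ))⁻¹) = 0 := by rw [h5, mul_zero]
      rw [mul_sub, mul_one, mul_inv_cancel₀ h2] at this
      exact this
    field_simp
  · have h1 : Tendsto (fun ε : ℝ => Complex.exp (-((ε : ℂ) + (x : ℂ) * Complex.I))) (𝓝[>] 0)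
        (𝓝 (Complex.exp (-((x : ℂ) * Complex.I)))) :=
      (Complex.continuous_exp.tendsto _).comp (tend_shift x).neg
    have h2 := tend_eps.mul (h1.div (h1.const_sub 1) (sub_ne_zero.2 (Ne.symm h)))
    rw [zero_mul] at h2
    exact h2

/-- `∫_0^1 (1/2 - v) e^{-sv} dv` -/
noncomputable def JJ (s : ℂ) : ℂ := ∫ v in (0 : ℝ)..1, ((1 / 2 - v : ℝ) : ℂ) * Complex.exp (-(s * v))

theorem JJ_cont : Continuous JJ := by
  unfold JJ
  exact intervalIntegral.continuous_parametric_intervalIntegral_of_continuous' (by fun_prop) 0 1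

theorem JJ_zero : JJ 0 = 0 := by
  unfold JJ
  simp only [zero_mul, neg_zero, Complex.exp_zero, mul_one]
  rw [intervalIntegral.integral_ofReal]
  have : ∫ v in (0 : ℝ)..1, (1 / 2 - v) = 0 := by
    rw [intervalIntegral.integral_sub (by simp) (by simp)]
    simp
  rw [this]
  simp

theorem JJ_per {x : ℝ} (hx : x ≠ 0) (h : Complex.exp (-((x : ℂ) * Complex.I)) = 1) :
    JJ ((x : ℂ) * Complex.I) = 1 / ((x : ℂ) * Complex.I) := by
  have hx' : (x : ℂ) ≠ 0 := by exact_mod_cast hx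
  have hI := Complex.I_ne_zero
  set z : ℂ := (x : ℂ) * Complex.I with hz
  have hz0 : z ≠ 0 := mul_ne_zero hx' hI
  unfold JJ
  have hd : ∀ v : ℝ, HasDerivAt (fun v : ℝ => -((1 / 2 - v : ℝ) : ℂ) * Complex.exp (-(z * v)) / z +
      Complex.exp (-(z * v)) / z ^ 2) (((1 / 2 - v : ℝ) : ℂ) * Complex.exp (-(z * v))) v := by
    intro v
    have h1 : HasDerivAt (fun v : ℝ => Complex.exp (-(z * v))) (Complex.exp (-(z * v)) * (-(z * 1))) v := by
      have := ((hasDerivAt_id v).ofReal_comp.const_mul z).neg.cexp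
      simpa using this
    have h2 : HasDerivAt (fun v : ℝ => -((1 / 2 - v : ℝ) : ℂ)) (-((-1 : ℝ) : ℂ)) v :=
      ((hasDerivAt_id v).const_sub (1 / 2)).ofReal_comp.fun_neg
    refine (((h2.fun_mul h1).div_const z).fun_add (h1.div_const (z ^ 2))).congr_deriv ?_
    push_cast
    field_simp
    ring
  rw [intervalIntegral.integral_eq_sub_of_hasDerivAt (fun v _ => hd v)
    ((by fun_prop : Continuous fun v : ℝ => ((1 / 2 - v : ℝ) : ℂ) * Complex.exp (-(z * v))).intervalIntegrable _ _)]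
  have e1 : Complex.exp (-(z * ((1 : ℝ) : ℂ))) = 1 := by
    rw [Complex.ofReal_one, mul_one]
    exact h
  rw [e1]
  simp only [Complex.ofReal_zero, mul_zero, neg_zero, Complex.exp_zero]
  push_cast
  field_simp
  ring

theorem saw_coef (x : ℝ) : Tendsto (fun ε : ℝ => (ε : ℂ) * ∫ u in Ioi (1 : ℝ),
      (saw u : ℂ) * Complex.exp (-(((ε : ℂ) + (x : ℂ) * Complex.I) * (u : ℂ)))) (𝓝[>] 0)
    (𝓝 (if x = 0 then 0 else (if Complex.exp (-((x : ℂ) * Complex.I)) = 1 then 1 else 0) /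
      ((x : ℂ) * Complex.I))) := by
  have h1 := (lim_geom x).mul ((JJ_cont.tendsto _).comp (tend_shift x))
  have e : (if Complex.exp (-((x : ℂ) * Complex.I)) = 1 then (1 : ℂ) else 0) * JJ ((x : ℂ) * Complex.I) =
      (if x = 0 then 0 else (if Complex.exp (-((x : ℂ) * Complex.I)) = 1 then 1 else 0) /
      ((x : ℂ) * Complex.I)) := by
    rcases eq_or_ne x 0 with hx | hx
    · rw [if_pos hx, hx]
      simp [JJ_zero]
    · rw [if_neg hx]
      split_ifs with h
      · rw [JJ_per hx h, one_mul]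
      · simp
  rw [e] at h1
  refine h1.congr' ?_
  filter_upwards [self_mem_nhdsWithin] with ε hε
  have hε0 : (0 : ℝ) < ε := hε
  have hre : 0 < ((ε : ℂ) + (x : ℂ) * Complex.I).re := by simpa using hε0
  have h2 := saw_tr hre
  have h3 : 1 - Complex.exp (-((ε : ℂ) + (x : ℂ) * Complex.I)) ≠ 0 := by
    intro h4
    have h5 : ‖Complex.exp (-((ε : ℂ) + (x : ℂ) * Complex.I))‖ = 1 := by
      rw [← sub_eq_zero.1 h4, norm_one]
    rw [Complex.norm_exp, Complex.neg_re] at h5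
    have := Real.exp_lt_one_iff.2 (neg_lt_zero.2 hre)
    linarith
  simp only [Function.comp_apply]
  unfold JJ
  rw [← eq_div_iff h3] at h2
  rw [h2]
  ring

/-- the order from the logarithmic derivative -/
theorem order_lim {G : ℂ → ℂ} {x : ℝ} (hG : AnalyticAt ℂ G ((x : ℂ) * Complex.I))
    (hfin : analyticOrderAt G ((x : ℂ) * Complex.I) ≠ ⊤) :
    Tendsto (fun ε : ℝ => (ε : ℂ) * (deriv G ((ε : ℂ) + (x : ℂ) * Complex.I) /
      G ((ε : ℂ) + (x : ℂ) * Complex.I))) (𝓝[>] 0)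
      (𝓝 (analyticOrderNatAt G ((x : ℂ) * Complex.I) : ℂ)) := by
  set z : ℂ := (x : ℂ) * Complex.I with hz
  set m : ℕ := analyticOrderNatAt G z with hm
  have h1 : analyticOrderAt G z = m := by
    rw [hm, Nat.cast_analyticOrderNatAt hfin]
  rw [hG.analyticOrderAt_eq_natCast] at h1
  obtain ⟨g, hg, hg0, he⟩ := h1
  have he' : G =ᶠ[𝓝 z] fun s => (s - z) ^ m * g s := by
    filter_upwards [he] with s hs
    rw [hs, smul_eq_mul]
  have hgne : ∀ᶠ s in 𝓝 z, g s ≠ 0 := hg.continuousAt.eventually_ne hg0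
  have hgd : ∀ᶠ s in 𝓝 z, DifferentiableAt ℂ g s :=
    hg.eventually_analyticAt.mono fun s hs => hs.differentiableAt
  have hev : ∀ᶠ s in 𝓝 z, s ≠ z → deriv G s / G s = m / (s - z) + deriv g s / g s := by
    filter_upwards [he'.eventuallyEq_nhds, hgne, hgd] with s h2 h3 h4 h5
    have h6 : s - z ≠ 0 := sub_ne_zero.2 h5
    have hd1 : HasDerivAt (fun s : ℂ => (s - z) ^ m) (m * (s - z) ^ (m - 1)) s := by
      have := ((hasDerivAt_id s).sub_const z).fun_pow m
      simpa using this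
    have hd : HasDerivAt (fun s => (s - z) ^ m * g s)
        (m * (s - z) ^ (m - 1) * g s + (s - z) ^ m * deriv g s) s :=
      hd1.mul h4.hasDerivAt
    rw [h2.deriv_eq, h2.self_of_nhds, hd.deriv]
    rcases Nat.eq_zero_or_pos m with hm0 | hm0
    · rw [hm0]
      simp
    · obtain ⟨j, hj⟩ : ∃ j, m = j + 1 := ⟨m - 1, by omega⟩
      rw [hj, Nat.add_sub_cancel, pow_succ]
      field_simp
      ring
  have ht := tend_shift x
  rw [← hz] at ht
  have hcont : Tendsto (fun ε : ℝ => deriv g ((ε : ℂ) + z) / g ((ε : ℂ) + z)) (𝓝[>] 0)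
      (𝓝 (deriv g z / g z)) :=
    ((hg.deriv.continuousAt.tendsto.comp ht).div (hg.continuousAt.tendsto.comp ht) hg0)
  have h7 := (tend_eps.mul hcont).const_add (m : ℂ)
  rw [zero_mul, add_zero] at h7
  refine h7.congr' ?_
  filter_upwards [ht.eventually hev, self_mem_nhdsWithin] with ε h8 hε
  have hε0 : (ε : ℂ) ≠ 0 := by
    have : (0 : ℝ) < ε := hε
    exact_mod_cast this.ne'
  rw [h8 (by simpa using hε0), add_sub_cancel_right]
  field_simp

end Pool.Agent.NH98.RT.Tool
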