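import Pool.Agent.TH270.MS.Main
import Pool.Agent.NH98.RT.Tool2

/-! # The Fourier coefficients of the deviation of the partial sums -/

set_option autoImplicit false

open MeasureTheory Filter Topology Set
open Pool.Agent.TH942.LS (Dat)
open Pool.Agent.TH942.SL
open Pool.Agent.W263.BSD (LInt lap lapC lapC_ofReal lapC_differentiableAt)
open Pool.Agent.TH270.MS

namespace Pool.Agent.NH98.RT.Tool

theorem linf_of_sq {f : ℝ → ℝ} (hf : Measurable f) (h : Integrable fun u => f u ^ 2) {w : ℝ} (hw : 0 < w) :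
    LInt f w := by
  have h1 : IntegrableOn (fun u : ℝ => Real.exp (-(2 * w) * u)) (Ioi 0) :=
    integrableOn_exp_mul_Ioi (by linarith) 0
  have h2 : IntegrableOn (fun u : ℝ => f u ^ 2 + Real.exp (-(2 * w) * u)) (Ioi 0) :=
    h.integrableOn.add h1
  refine Integrable.mono' h2 (hf.mul (by fun_prop)).aestronglyMeasurable
    (Eventually.of_forall fun u => ?_)
  have e1 : Real.exp (-(2 * w) * u) = Real.exp (-(w * u)) ^ 2 := by
    rw [← Real.exp_nat_mul]
    congr 1
    push_cast
    ring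
  rw [norm_mul, Real.norm_eq_abs, Real.norm_of_nonneg (Real.exp_pos _).le, e1, ← sq_abs (f u)]
  nlinarith [sq_nonneg (|f u| - Real.exp (-(w * u))), abs_nonneg (f u), Real.exp_pos (-(w * u))]

theorem small_of_sq {f : ℝ → ℝ} (hf : Measurable f) (h : Integrable fun u => f u ^ 2) :
    Tendsto (fun ε : ℝ => ε * ∫ u in Ioi (0 : ℝ), |f u| * Real.exp (-(ε * u))) (𝓝[>] 0) (𝓝 0) := by
  set M : ℝ := ∫ u in Ioi (0 : ℝ), f u ^ 2 with hM
  have hM0 : 0 ≤ M := setIntegral_nonneg measurableSet_Ioi fun u _ => sq_nonneg _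
  rw [Metric.tendsto_nhds]
  intro d hd
  have h1 : Tendsto (fun ε : ℝ => ε * (M / (2 * d))) (𝓝[>] 0) (𝓝 0) := by
    have : Continuous fun ε : ℝ => ε * (M / (2 * d)) := by fun_prop
    have := this.tendsto 0
    rw [zero_mul] at this
    exact this.mono_left nhdsWithin_le_nhds
  filter_upwards [h1.eventually (gt_mem_nhds (half_pos hd)), self_mem_nhdsWithin] with ε h2 hε
  have hε0 : (0 : ℝ) < ε := hε
  have i1 : IntegrableOn (fun u : ℝ => Real.exp (-(2 * ε) * u)) (Ioi 0) :=
    integrableOn_exp_mul_Ioi (by linarith) 0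
  have i2 : IntegrableOn (fun u : ℝ => 1 / (2 * d) * f u ^ 2 + d / 2 * Real.exp (-(2 * ε) * u)) (Ioi 0) :=
    (h.integrableOn.const_mul _).add (i1.const_mul _)
  have i3 : IntegrableOn (fun u : ℝ => |f u| * Real.exp (-(ε * u))) (Ioi 0) := by
    have := (linf_of_sq hf h hε0).abs
    refine this.congr (Eventually.of_forall fun u => ?_)
    simp only [abs_mul, abs_of_pos (Real.exp_pos _)]
  have e3 : ∫ u in Ioi (0 : ℝ), Real.exp (-(2 * ε) * u) = 1 / (2 * ε) := by
    have h3 := integral_exp_mul_Ioi (a := -(2 * ε)) (by linarith) 0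
    rw [h3]
    simp
  have h3 : ∫ u in Ioi (0 : ℝ), |f u| * Real.exp (-(ε * u)) ≤
      1 / (2 * d) * M + d / 2 * (1 / (2 * ε)) := by
    rw [hM, ← e3, ← integral_const_mul, ← integral_const_mul, ← integral_add
      (h.integrableOn.const_mul _) (i1.const_mul _)]
    refine setIntegral_mono i3 i2 fun u => ?_
    have e1 : Real.exp (-(2 * ε) * u) = Real.exp (-(ε * u)) ^ 2 := by
      rw [← Real.exp_nat_mul]
      congr 1
      push_cast
      ring
    simp only
    rw [e1, ← sq_abs (f u)]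
    set A := |f u|
    set X := Real.exp (-(ε * u))
    have h4 : 0 ≤ (A - d * X) ^ 2 := sq_nonneg _
    have h5 : 1 / (2 * d) * A ^ 2 + d / 2 * X ^ 2 - A * X = (A - d * X) ^ 2 / (2 * d) := by
      field_simp
      ring
    have h6 : 0 ≤ (A - d * X) ^ 2 / (2 * d) := by positivity
    linarith
  have h4 : 0 ≤ ∫ u in Ioi (0 : ℝ), |f u| * Real.exp (-(ε * u)) :=
    setIntegral_nonneg measurableSet_Ioi fun u _ => by positivity
  rw [Real.dist_eq, sub_zero, abs_of_nonneg (mul_nonneg hε0.le h4)]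
  calc ε * ∫ u in Ioi (0 : ℝ), |f u| * Real.exp (-(ε * u)) ≤
      ε * (1 / (2 * d) * M + d / 2 * (1 / (2 * ε))) := mul_le_mul_of_nonneg_left h3 hε0.le
    _ = ε * (M / (2 * d)) + d / 4 := by field_simp; ring
    _ < d := by linarith

/-- `1/(e^ε - 1) - 1/ε` has a limit -/
theorem expm_lim : ∃ d : ℂ, Tendsto (fun ε : ℝ => 1 / (Complex.exp (ε : ℂ) - 1) - 1 / (ε : ℂ)) (𝓝[>] 0) (𝓝 d) := by
  set D : ℂ → ℂ := dslope Complex.exp 0 with hD
  have hDd : Differentiable ℂ D := by
    intro z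
    have h1 : DifferentiableOn ℂ Complex.exp Set.univ := Complex.differentiable_exp.differentiableOn
    have h2 := (Complex.differentiableOn_dslope (c := (0 : ℂ)) (s := Set.univ) (by simp)).2 h1
    exact h2.differentiableAt (by simp)
  have hD0 : D 0 = 1 := by
    rw [hD, dslope_same]
    simp
  have h1 : HasDerivAt (fun z => (D z)⁻¹) (deriv (fun z => (D z)⁻¹) 0) 0 :=
    ((hDd 0).inv (by rw [hD0]; exact one_ne_zero)).hasDerivAt
  refine ⟨deriv (fun z => (D z)⁻¹) 0, ?_⟩
  have h2 := (hasDerivAt_iff_tendsto_slope.1 h1)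
  have h3 : Tendsto (fun ε : ℝ => (ε : ℂ)) (𝓝[>] 0) (𝓝[≠] 0) := by
    rw [tendsto_nhdsWithin_iff]
    refine ⟨tend_eps, ?_⟩
    filter_upwards [self_mem_nhdsWithin] with ε hε
    have : (0 : ℝ) < ε := hε
    show (ε : ℂ) ≠ 0
    exact_mod_cast this.ne'
  refine (h2.comp h3).congr' ?_
  filter_upwards [self_mem_nhdsWithin] with ε hε
  have hε0 : (0 : ℝ) < ε := hε
  have hεc : (ε : ℂ) ≠ 0 := by exact_mod_cast hε0.ne'
  have h4 : Complex.exp (ε : ℂ) - 1 ≠ 0 := by
    rw [← Complex.ofReal_exp, sub_ne_zero]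
    intro h4
    have h5 : Real.exp ε = 1 := by exact_mod_cast h4
    rw [Real.exp_eq_one_iff] at h5
    linarith
  have h5 : D ε = (Complex.exp (ε : ℂ) - 1) / ε := by
    rw [hD, dslope_of_ne _ hεc, slope_def_field]
    simp
  simp only [Function.comp_apply, slope_def_field]
  rw [h5, hD0]
  field_simp
  simp only [sub_zero]
  ring

end Pool.Agent.NH98.RT.Tool

namespace Pool.Agent.NH98.RT

open Pool.Agent.NH98.RT.Tool

variable {lam c : ℕ → ℝ} {δ σ : ℝ} {G₀ g : ℂ → ℂ} {k p κ : ℕ} {η C : ℝ}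

/-- the function whose Fourier coefficients are computed -/
noncomputable def ph (lam c : ℕ → ℝ) (r q u : ℝ) : ℝ :=
  u * Er lam c r (q - r * Real.eulerMascheroniConstant) u + r * saw u

/-- the representation of `G₀` -/
theorem rep (E : Cn lam c δ σ G₀ g k p κ η C) (r c₀ : ℝ)
    (hint : ∀ x : ℝ, 0 < x → LInt (Er lam c r c₀) x) {s : ℂ} (hs : 0 < s.re) :
    G₀ s = s ^ k * Complex.exp (-(s * lapC (Er lam c r c₀) s) - c₀ + r * Complex.log (1 - Complex.exp (-s))) := by
  have D := E.D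
  have hσ := D.σ0
  set W : ℂ → ℂ := lapC (Er lam c r c₀) with hE
  have hEd : ∀ s : ℂ, 0 < s.re → DifferentiableAt ℂ W s := fun s hs =>
    lapC_differentiableAt (er_meas D r c₀) (fun w hw => hint w hw) hs
  set Q : ℂ → ℂ := fun s => s ^ k * Complex.exp (-(s * W s) - c₀ + r * Complex.log (1 - Complex.exp (-s))) with hQ
  have hQd : ∀ s : ℂ, 0 < s.re → DifferentiableAt ℂ Q s := by
    intro s hs
    have h1 : DifferentiableAt ℂ (fun s : ℂ => Complex.log (1 - Complex.exp (-s))) s :=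
      DifferentiableAt.clog (by fun_prop) (slit_one_sub hs)
    exact (differentiableAt_id.pow k).mul
      ((((differentiableAt_id.mul (hEd s hs)).neg.sub_const _).add (h1.const_mul _)).cexp)
  have hU : IsOpen {s : ℂ | 0 < s.re} := isOpen_lt continuous_const Complex.continuous_re
  have hUc : Convex ℝ {s : ℂ | 0 < s.re} := convex_halfSpace_re_gt 0
  have a1 : AnalyticOnNhd ℂ G₀ {s : ℂ | 0 < s.re} :=
    DifferentiableOn.analyticOnNhd (fun z hz => (E.hG z (by
      have : 0 < z.re := hz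
      linarith [E.hη])).differentiableWithinAt) hU
  have a2 : AnalyticOnNhd ℂ Q {s : ℂ | 0 < s.re} :=
    DifferentiableOn.analyticOnNhd (fun z hz => (hQd z hz).differentiableWithinAt) hU
  have hfar : ∀ s : ℂ, σ < s.re → G₀ s = Q s := by
    intro s hs
    have hs0 : 0 < s.re := hσ.trans hs
    have hs1 : s ≠ 0 := by rintro rfl; simp at hs0
    rw [← E.hexp s hs, hQ]
    simp only
    congr 2
    rw [hE, er_lapC D, er_lap D r c₀ hs]
    field_simp
    ring
  have hz : ((σ + 1 : ℝ) : ℂ) ∈ {s : ℂ | 0 < s.re} := by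
    show (0 : ℝ) < (((σ + 1 : ℝ) : ℂ)).re
    rw [Complex.ofReal_re]
    linarith
  have hEq := a1.eqOn_of_preconnected_of_eventuallyEq a2 hUc.isPreconnected hz (by
    have ho : IsOpen {s : ℂ | σ < s.re} := isOpen_lt continuous_const Complex.continuous_re
    filter_upwards [ho.mem_nhds (show σ < (((σ + 1 : ℝ) : ℂ)).re by
      rw [Complex.ofReal_re]; linarith)] with s hs
    exact hfar s hs)
  exact hEq hs

/-- the logarithmic derivative -/
theorem rep_deriv (E : Cn lam c δ σ G₀ g k p κ η C) (r c₀ : ℝ)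
    (hint : ∀ x : ℝ, 0 < x → LInt (Er lam c r c₀) x) {s : ℂ} (hs : 0 < s.re) :
    deriv G₀ s / G₀ s = k / s - (lapC (Er lam c r c₀) s + s * deriv (lapC (Er lam c r c₀)) s) +
      r * (Complex.exp (-s) / (1 - Complex.exp (-s))) := by
  have D := E.D
  set W : ℂ → ℂ := lapC (Er lam c r c₀) with hE
  have hEd : DifferentiableAt ℂ W s :=
    lapC_differentiableAt (er_meas D r c₀) (fun w hw => hint w hw) hs
  have hs0 : s ≠ 0 := by rintro rfl; simp at hs
  have ho : IsOpen {s : ℂ | 0 < s.re} := isOpen_lt continuous_const Complex.continuous_re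
  have hev : G₀ =ᶠ[𝓝 s] fun s => s ^ k * Complex.exp (-(s * W s) - c₀ + r * Complex.log (1 - Complex.exp (-s))) := by
    filter_upwards [ho.mem_nhds hs] with z hz
    exact rep E r c₀ hint hz
  have h1 : HasDerivAt (fun s : ℂ => 1 - Complex.exp (-s)) (Complex.exp (-s)) s := by
    have := ((hasDerivAt_id s).fun_neg.cexp).const_sub 1
    simpa using this
  have h2 : HasDerivAt (fun s : ℂ => Complex.log (1 - Complex.exp (-s)))
      (Complex.exp (-s) / (1 - Complex.exp (-s))) s := h1.clog (slit_one_sub hs)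
  have h3 : HasDerivAt (fun s : ℂ => s * W s) (W s + s * deriv W s) s := by
    have := (hasDerivAt_id s).fun_mul hEd.hasDerivAt
    simpa using this
  have h4 : HasDerivAt (fun s : ℂ => -(s * W s) - c₀ + r * Complex.log (1 - Complex.exp (-s)))
      (-(W s + s * deriv W s) + r * (Complex.exp (-s) / (1 - Complex.exp (-s)))) s :=
    (h3.fun_neg.sub_const _).fun_add (h2.const_mul _)
  have h5 : HasDerivAt (fun s : ℂ => s ^ k) (k * s ^ (k - 1)) s := by
    have := (hasDerivAt_id s).fun_pow k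
    simpa using this
  have h6 := (h5.fun_mul h4.cexp)
  rw [hev.deriv_eq, hev.self_of_nhds, h6.deriv]
  have h7 := Complex.exp_ne_zero (-(s * W s) - c₀ + r * Complex.log (1 - Complex.exp (-s)))
  rcases Nat.eq_zero_or_pos k with hm0 | hm0
  · subst hm0
    simp only [pow_zero, one_mul, Nat.cast_zero, zero_mul, zero_add, zero_div]
    field_simp
    ring
  · obtain ⟨j, rfl⟩ : ∃ j, k = j + 1 := ⟨k - 1, by omega⟩
    rw [Nat.add_sub_cancel, pow_succ]
    field_simp
    ring

end Pool.Agent.NH98.RT
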