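import Pool.Agent.NH98.RT.Lap

/-! # The Fourier coefficients of the deviation of the partial sums -/

set_option autoImplicit false

open MeasureTheory Filter Topology Set
open Pool.Agent.TH942.LS (Dat)
open Pool.Agent.TH942.SL
open Pool.Agent.W263.BSD (LInt lap lapC lapC_ofReal lapC_differentiableAt)
open Pool.Agent.TH270.MS

namespace Pool.Agent.NH98.RT

open Pool.Agent.NH98.RT.Tool

variable {lam c : ℕ → ℝ} {δ σ : ℝ} {G₀ g : ℂ → ℂ} {k p κ : ℕ} {η C : ℝ}

/-- the transform of `u Er(u)` -/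
theorem mom (D : Dat lam c δ σ) (r c₀ : ℝ) (hint : ∀ x : ℝ, 0 < x → LInt (Er lam c r c₀) x) {s : ℂ}
    (hs : 0 < s.re) : lapC (fun u => u * Er lam c r c₀ u) s = -deriv (lapC (Er lam c r c₀)) s := by
  have h := hasDeriv (er_meas D r c₀) (fun w hw => hint w hw) hs
  have h1 : HasDerivAt (lapC (Er lam c r c₀)) (-lapC (fun u => u * Er lam c r c₀ u) s) s := h
  rw [h1.deriv, neg_neg]

theorem eps_lapC (D : Dat lam c δ σ) (r c₀ : ℝ) (hsq : Integrable fun u => Er lam c r c₀ u ^ 2) (x : ℝ) :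
    Tendsto (fun ε : ℝ => (ε : ℂ) * lapC (Er lam c r c₀) ((ε : ℂ) + (x : ℂ) * Complex.I)) (𝓝[>] 0) (𝓝 0) := by
  refine squeeze_zero_norm' ?_ (small_of_sq (er_meas D r c₀) hsq)
  filter_upwards [self_mem_nhdsWithin] with ε hε
  have hε0 : (0 : ℝ) < ε := hε
  rw [norm_mul, Complex.norm_real, Real.norm_of_nonneg hε0.le]
  refine mul_le_mul_of_nonneg_left ?_ hε0.le
  unfold lapC
  refine (norm_integral_le_integral_norm _).trans (le_of_eq ?_)
  refine integral_congr_ae (Eventually.of_forall fun u => ?_)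
  simp only
  rw [norm_mul, norm_e, Complex.norm_real, Real.norm_eq_abs]
  congr 3
  simp

/-- the moment at a point of the line -/
theorem coef_ne (E : Cn lam c δ σ G₀ g k p κ η C) (r c₀ : ℝ) (hsq : Integrable fun u => Er lam c r c₀ u ^ 2)
    {x : ℝ} (hx : x ≠ 0) :
    Tendsto (fun ε : ℝ => (ε : ℂ) * lapC (fun u => u * Er lam c r c₀ u) ((ε : ℂ) + (x : ℂ) * Complex.I)) (𝓝[>] 0)
      (𝓝 (((analyticOrderNatAt G₀ ((x : ℂ) * Complex.I) : ℝ) - r *
        (if Complex.exp (-((x : ℂ) * Complex.I)) = 1 then 1 else 0)) / ((x : ℂ) * Complex.I))) := by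
  have D := E.D
  have hint : ∀ x : ℝ, 0 < x → LInt (Er lam c r c₀) x := fun x hx => linf_of_sq (er_meas D r c₀) hsq hx
  have hz0 : (x : ℂ) * Complex.I ≠ 0 := mul_ne_zero (by exact_mod_cast hx) Complex.I_ne_zero
  have hxi : -η < ((x : ℂ) * Complex.I).re := by simpa using E.hη
  have hU : IsOpen {s : ℂ | -η < s.re} := isOpen_lt continuous_const Complex.continuous_re
  have hUc : Convex ℝ {s : ℂ | -η < s.re} := convex_halfSpace_re_gt _
  have a1 : AnalyticOnNhd ℂ G₀ {s : ℂ | -η < s.re} :=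
    DifferentiableOn.analyticOnNhd (fun z hz => (E.hG z hz).differentiableWithinAt) hU
  have hfin : analyticOrderAt G₀ ((x : ℂ) * Complex.I) ≠ ⊤ := by
    intro htop
    rw [analyticOrderAt_eq_top] at htop
    have h1 := a1.eqOn_of_preconnected_of_eventuallyEq (analyticOnNhd_const (v := (0 : ℂ)))
      hUc.isPreconnected (show (x : ℂ) * Complex.I ∈ {s : ℂ | -η < s.re} from hxi) htop
    have h2 : ((σ + 1 : ℝ) : ℂ) ∈ {s : ℂ | -η < s.re} := by
      show -η < (((σ + 1 : ℝ) : ℂ)).re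
      rw [Complex.ofReal_re]
      linarith [E.D.σ0, E.hη]
    have h3 : G₀ ((σ + 1 : ℝ) : ℂ) = 0 := h1 h2
    have h4 := E.hexp ((σ + 1 : ℝ) : ℂ) (by rw [Complex.ofReal_re]; linarith)
    rw [h3] at h4
    have h5 : ((σ + 1 : ℝ) : ℂ) ≠ 0 := by
      have := E.D.σ0
      exact_mod_cast (by linarith : (σ + 1 : ℝ) ≠ 0)
    exact mul_ne_zero (pow_ne_zero _ h5) (Complex.exp_ne_zero _) h4
  have l1 := order_lim (a1 _ hxi) hfin
  have l2 := lim_geom x
  have l3 := eps_lapC D r c₀ hsq x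
  have l4 : Tendsto (fun ε : ℝ => (ε : ℂ) * ((k : ℂ) / ((ε : ℂ) + (x : ℂ) * Complex.I))) (𝓝[>] 0) (𝓝 0) := by
    have := tend_eps.mul (tendsto_const_nhds (x := (k : ℂ)).div (tend_shift x) hz0)
    rw [zero_mul] at this
    exact this
  have l5 := ((l1.sub l4).add l3).sub (l2.const_mul (r : ℂ))
  have l6 := l5.div (tend_shift x) hz0
  have e : ((analyticOrderNatAt G₀ ((x : ℂ) * Complex.I) : ℂ) - 0 + 0 - (r : ℂ) *
      (if Complex.exp (-((x : ℂ) * Complex.I)) = 1 then 1 else 0)) / ((x : ℂ) * Complex.I) =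
      (((analyticOrderNatAt G₀ ((x : ℂ) * Complex.I) : ℝ) - r *
        (if Complex.exp (-((x : ℂ) * Complex.I)) = 1 then 1 else 0)) / ((x : ℂ) * Complex.I)) := by
    push_cast
    ring
  rw [e] at l6
  refine l6.congr' ?_
  filter_upwards [self_mem_nhdsWithin] with ε hε
  have hε0 : (0 : ℝ) < ε := hε
  have hs : 0 < ((ε : ℂ) + (x : ℂ) * Complex.I).re := by simpa using hε0
  rw [mom D r c₀ hint hs]
  have h1 := rep_deriv E r c₀ hint hs
  have hs0 : (ε : ℂ) + (x : ℂ) * Complex.I ≠ 0 := by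
    intro h
    rw [h] at hs
    simp at hs
  simp only [Pi.div_apply]
  rw [h1]
  generalize Complex.exp (-((ε : ℂ) + (x : ℂ) * Complex.I)) /
    (1 - Complex.exp (-((ε : ℂ) + (x : ℂ) * Complex.I))) = X
  generalize deriv (lapC (Er lam c r c₀)) ((ε : ℂ) + (x : ℂ) * Complex.I) = Y
  generalize lapC (Er lam c r c₀) ((ε : ℂ) + (x : ℂ) * Complex.I) = Z
  field_simp
  ring

/-- the moment at `0` -/
theorem coef_zero (E : Cn lam c δ σ G₀ g k p κ η C) (r c₀ : ℝ) (hr : (p : ℝ) = k + r)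
    (hsq : Integrable fun u => Er lam c r c₀ u ^ 2) :
    Tendsto (fun ε : ℝ => ε * lap (fun u => u * Er lam c r c₀ u) ε) (𝓝[>] 0) (𝓝 0) := by
  have D := E.D
  have hint : ∀ x : ℝ, 0 < x → LInt (Er lam c r c₀) x := fun x hx => linf_of_sq (er_meas D r c₀) hsq hx
  set V : ℝ → ℝ := fun ε => if 0 < ε then ε * lap (Er lam c r c₀) ε else 0 with hV
  have hVc : ContinuousWithinAt V (Ioi 0) 0 := by
    have h1 := eps_lapC D r c₀ hsq 0
    have h2 := (Complex.continuous_re.tendsto _).comp h1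
    rw [ContinuousWithinAt, hV]
    simp only [lt_irrefl, if_false]
    refine h2.congr' ?_
    filter_upwards [self_mem_nhdsWithin] with ε hε
    have hε0 : (0 : ℝ) < ε := hε
    simp only [Function.comp_apply, Complex.ofReal_zero, zero_mul, add_zero]
    rw [if_pos hε0, lapC_ofReal, ← Complex.ofReal_mul, Complex.ofReal_re]
  -- the derivative
  have hder : ∀ ε : ℝ, 0 < ε → HasDerivAt V
      (lap (Er lam c r c₀) ε - ε * lap (fun u => u * Er lam c r c₀ u) ε) ε := by
    intro ε hε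
    have h1 : HasDerivAt (lapC (Er lam c r c₀)) (-lapC (fun u => u * Er lam c r c₀ u) (ε : ℂ)) (ε : ℂ) :=
      hasDeriv (er_meas D r c₀) (fun w hw => hint w hw) (by simpa using hε)
    have h2 := ((hasDerivAt_id (ε : ℂ)).fun_mul h1).real_of_complex
    have h3 : (1 * lapC (Er lam c r c₀) (ε : ℂ) + id (ε : ℂ) *
        -lapC (fun u => u * Er lam c r c₀ u) (ε : ℂ)).re =
        lap (Er lam c r c₀) ε - ε * lap (fun u => u * Er lam c r c₀ u) ε := by
      simp only [id_eq]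
      rw [lapC_ofReal, lapC_ofReal, ← Complex.ofReal_neg, ← Complex.ofReal_mul, one_mul, ← Complex.ofReal_add,
        Complex.ofReal_re]
      ring
    rw [h3] at h2
    refine h2.congr_of_eventuallyEq ?_
    filter_upwards [lt_mem_nhds hε] with t ht
    rw [hV]
    simp only [id_eq]
    rw [if_pos ht, lapC_ofReal, ← Complex.ofReal_mul, Complex.ofReal_re]
  -- the limit of the derivative
  obtain ⟨d, hd⟩ := expm_lim
  have hg := E.hg
  have hg0 := E.hg0
  have hgd : ∀ᶠ s in 𝓝 (0 : ℂ), DifferentiableAt ℂ g s :=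
    hg.eventually_analyticAt.mono fun s hs => hs.differentiableAt
  have hgne : ∀ᶠ s in 𝓝 (0 : ℂ), g s ≠ 0 := hg.continuousAt.eventually_ne hg0
  have hcont : Tendsto (fun ε : ℝ => deriv g (ε : ℂ) / g (ε : ℂ)) (𝓝[>] 0) (𝓝 (deriv g 0 / g 0)) :=
    ((hg.deriv.continuousAt.tendsto.comp tend_eps).div (hg.continuousAt.tendsto.comp tend_eps) hg0)
  have hlim : Tendsto (fun ε : ℝ => (r * (1 / (Complex.exp (ε : ℂ) - 1) - 1 / (ε : ℂ)) -
      deriv g (ε : ℂ) / g (ε : ℂ)).re) (𝓝[>] 0) (𝓝 (r * d - deriv g 0 / g 0).re) :=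
    (Complex.continuous_re.tendsto _).comp ((hd.const_mul (r : ℂ)).sub hcont)
  set w : ℝ := (r * d - deriv g 0 / g 0).re with hw
  have hV' : Tendsto (fun ε : ℝ => deriv V ε) (𝓝[>] 0) (𝓝 w) := by
    refine hlim.congr' ?_
    filter_upwards [tend_eps.eventually E.near.eventually_nhds, tend_eps.eventually hgne,
      tend_eps.eventually hgd, self_mem_nhdsWithin] with ε h1 h2 h3 hε
    have hε0 : (0 : ℝ) < ε := hε
    have hεc : (ε : ℂ) ≠ 0 := by exact_mod_cast hε0.ne'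
    have hs : 0 < ((ε : ℂ)).re := by simpa using hε0
    have e1 := rep_deriv E r c₀ hint hs
    have e2 : deriv G₀ (ε : ℂ) / G₀ (ε : ℂ) = p / (ε : ℂ) + deriv g (ε : ℂ) / g (ε : ℂ) := by
      have hev : G₀ =ᶠ[𝓝 (ε : ℂ)] fun s => s ^ p * g s := h1
      have h5 : HasDerivAt (fun s : ℂ => s ^ p) (p * (ε : ℂ) ^ (p - 1)) (ε : ℂ) := by
        have := (hasDerivAt_id (ε : ℂ)).fun_pow p
        simpa using this
      rw [hev.deriv_eq, hev.self_of_nhds, (h5.fun_mul h3.hasDerivAt).deriv]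
      rcases Nat.eq_zero_or_pos p with hm0 | hm0
      · rw [hm0]
        simp
      · obtain ⟨j, hj⟩ : ∃ j, p = j + 1 := ⟨p - 1, by omega⟩
        rw [hj, Nat.add_sub_cancel, pow_succ]
        field_simp
        ring
    have e3 : Complex.exp (-(ε : ℂ)) / (1 - Complex.exp (-(ε : ℂ))) = 1 / (Complex.exp (ε : ℂ) - 1) := by
      have h4 := Complex.exp_ne_zero (ε : ℂ)
      have h6 : Complex.exp (ε : ℂ) - 1 ≠ 0 := by
        rw [← Complex.ofReal_exp, sub_ne_zero]
        intro h4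
        have h5 : Real.exp ε = 1 := by exact_mod_cast h4
        rw [Real.exp_eq_one_iff] at h5
        linarith
      rw [Complex.exp_neg]
      have h7 : 1 - (Complex.exp (ε : ℂ))⁻¹ = (Complex.exp (ε : ℂ) - 1) / Complex.exp (ε : ℂ) := by
        field_simp
      rw [h7]
      field_simp
    have e4 : lapC (Er lam c r c₀) (ε : ℂ) + (ε : ℂ) * deriv (lapC (Er lam c r c₀)) (ε : ℂ) =
        r * (1 / (Complex.exp (ε : ℂ) - 1) - 1 / (ε : ℂ)) - deriv g (ε : ℂ) / g (ε : ℂ) := by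
      rw [e2, e3] at e1
      have hpc : (p : ℂ) = k + r := by exact_mod_cast hr
      rw [hpc] at e1
      linear_combination (norm := skip) e1
      field_simp
      ring
    rw [(hder ε hε0).deriv, ← e4]
    have e5 : deriv (lapC (Er lam c r c₀)) (ε : ℂ) = -lapC (fun u => u * Er lam c r c₀ u) (ε : ℂ) := by
      rw [mom D r c₀ hint hs, neg_neg]
    rw [e5, lapC_ofReal, lapC_ofReal, ← Complex.ofReal_neg, ← Complex.ofReal_mul, ← Complex.ofReal_add,
      Complex.ofReal_re]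
    ring
  have hV0 : HasDerivWithinAt V w (Ici 0) 0 := by
    refine hasDerivWithinAt_Ici_of_tendsto_deriv (s := Ioi 0) ?_ hVc self_mem_nhdsWithin hV'
    intro t ht
    exact (hder t ht).differentiableAt.differentiableWithinAt
  have hq : Tendsto (fun ε : ℝ => lap (Er lam c r c₀) ε) (𝓝[>] 0) (𝓝 w) := by
    have h1 := (hasDerivWithinAt_iff_tendsto_slope.1 hV0)
    have h2 : Ici (0 : ℝ) \ {0} = Ioi 0 := by
      ext t
      simp only [Set.mem_sdiff, Set.mem_Ici, Set.mem_singleton_iff, Set.mem_Ioi]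
      exact ⟨fun h => lt_of_le_of_ne h.1 (Ne.symm h.2), fun h => ⟨h.le, h.ne'⟩⟩
    rw [h2] at h1
    refine h1.congr' ?_
    filter_upwards [self_mem_nhdsWithin] with ε hε
    have hε0 : (0 : ℝ) < ε := hε
    rw [slope_def_field, hV]
    simp only [lt_irrefl, if_false, sub_zero]
    rw [if_pos hε0]
    field_simp
  have h9 := hq.sub hV'
  rw [sub_self] at h9
  refine h9.congr' ?_
  filter_upwards [self_mem_nhdsWithin] with ε hε
  rw [(hder ε hε).deriv]
  ring

end Pool.Agent.NH98.RT
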