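import Pool.Agent.NH98.RT.Lap2
import Pool.Agent.NH98.RT.Kernel
import Pool.Agent.NH98.RT.Abel

/-! # Bounded deviations bound the sums over the zeros -/

set_option autoImplicit false

open MeasureTheory Filter Topology Set
open Pool.Agent.TH942.LS (Dat)
open Pool.Agent.TH942.SL
open Pool.Agent.W263.BSD (LInt lap lapC lapC_ofReal lapC_differentiableAt)
open Pool.Agent.TH270.MS

namespace Pool.Agent.NH98.RT

open Pool.Agent.NH98.RT.Tool

variable {lam c : ℕ → ℝ} {δ σ : ℝ} {G₀ g : ℂ → ℂ} {k p κ : ℕ} {η C : ℝ}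

theorem sq_int (E : Cn lam c δ σ G₀ g k p κ η C) (hne : ∀ s : ℂ, 0 < s.re → G₀ s ≠ 0) {r q : ℝ}
    (hr : (p : ℝ) = k + r) (hq : g 0 = Real.exp (r * Real.eulerMascheroniConstant - q)) :
    Integrable fun u => Er lam c r (q - r * Real.eulerMascheroniConstant) u ^ 2 := by
  obtain ⟨c₀, h1, h2⟩ := fwd E.D E.hη E.hG E.hgrow E.hexp E.hg E.hg0 E.near hne
  have h3 : (p : ℝ) - k = r := by linarith
  rw [h3] at h2
  have h4 : c₀ = q - r * Real.eulerMascheroniConstant := by
    rw [hq] at h1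
    have h5 : r * Real.eulerMascheroniConstant - q = -c₀ := Real.exp_injective (by exact_mod_cast h1)
    linarith
  rw [← h4]
  refine ⟨((er_meas E.D r c₀).pow_const 2).aestronglyMeasurable, ?_⟩
  refine lt_of_le_of_lt (lintegral_mono fun u => ?_) h2
  rw [← ofReal_norm, Real.norm_of_nonneg (sq_nonneg _)]

theorem ph_meas (D : Dat lam c δ σ) (r q : ℝ) : Measurable (ph lam c r q) :=
  (measurable_id.mul (er_meas D r _)).add (saw_meas.const_mul r)

theorem coef (E : Cn lam c δ σ G₀ g k p κ η C) (hne : ∀ s : ℂ, 0 < s.re → G₀ s ≠ 0) {r q : ℝ}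
    (hr : (p : ℝ) = k + r) (hq : g 0 = Real.exp (r * Real.eulerMascheroniConstant - q)) :
    (∀ ε : ℝ, 0 < ε → IntegrableOn (fun u : ℝ => ph lam c r q u * Real.exp (-(ε * u))) (Ioi 1)) ∧
    ∀ x : ℝ, Tendsto (fun ε : ℝ => (ε : ℂ) * ∫ u in Ioi (1 : ℝ),
      (ph lam c r q u : ℂ) * Complex.exp (-(((ε : ℂ) + (x : ℂ) * Complex.I) * (u : ℂ)))) (𝓝[>] 0)
    (𝓝 (if x = 0 then 0 else
      ((analyticOrderNatAt G₀ ((x : ℂ) * Complex.I) : ℝ) : ℂ) / ((x : ℂ) * Complex.I))) := by
  have D := E.D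
  set c₀ : ℝ := q - r * Real.eulerMascheroniConstant with hc₀
  have hsq : Integrable fun u => Er lam c r c₀ u ^ 2 := sq_int E hne hr hq
  have hint : ∀ x : ℝ, 0 < x → LInt (Er lam c r c₀) x := fun x hx => linf_of_sq (er_meas D r c₀) hsq hx
  have hint2 : ∀ w : ℝ, 0 < w → IntegrableOn (fun u => u * Er lam c r c₀ u * Real.exp (-(w * u))) (Ioi 0) :=
    fun w hw => int_mul (er_meas D r c₀) (fun w hw => hint w hw) hw
  have hint3 : ∀ w : ℝ, 0 < w → IntegrableOn (fun u => u * Er lam c r c₀ u * Real.exp (-(w * u))) (Ioi 1) :=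
    fun w hw => (hint2 w hw).mono_set (Ioi_subset_Ioi zero_le_one)
  have m2 : Measurable fun u => u * Er lam c r c₀ u := measurable_id.mul (er_meas D r c₀)
  refine ⟨fun ε hε => ?_, fun x => ?_⟩
  · have h1 := (hint3 ε hε).add ((saw_int hε 1).const_mul r)
    refine h1.congr (Eventually.of_forall fun u => ?_)
    simp only [Pi.add_apply]
    unfold ph
    ring
  -- the part on `(0, 1]`
  have hloc : IntegrableOn (fun u => u * Er lam c r c₀ u) (Ioc 0 1) := by
    obtain ⟨C₁, hC₁, hb⟩ := er_le D r c₀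
    have h1 : IntegrableOn (fun u : ℝ => C₁ * Real.exp (σ * u)) (Ioc 0 1) :=
      (Continuous.integrableOn_Icc (by fun_prop)).mono_set Ioc_subset_Icc_self
    refine h1.mono' m2.aestronglyMeasurable ?_
    filter_upwards [ae_restrict_mem measurableSet_Ioc] with u hu
    rw [norm_mul, Real.norm_eq_abs, Real.norm_eq_abs, abs_of_pos hu.1]
    calc u * |Er lam c r c₀ u| ≤ 1 * |Er lam c r c₀ u| := mul_le_mul_of_nonneg_right hu.2 (abs_nonneg _)
      _ ≤ _ := by rw [one_mul]; exact hb u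
  have hsmall : Tendsto (fun ε : ℝ => (ε : ℂ) * ∫ u in Ioc (0 : ℝ) 1,
      ((u * Er lam c r c₀ u : ℝ) : ℂ) * Complex.exp (-(((ε : ℂ) + (x : ℂ) * Complex.I) * (u : ℂ)))) (𝓝[>] 0)
      (𝓝 0) := by
    have hM : Tendsto (fun ε : ℝ => ε * ∫ u in Ioc (0 : ℝ) 1, |u * Er lam c r c₀ u|) (𝓝[>] 0) (𝓝 0) := by
      have : Continuous fun ε : ℝ => ε * ∫ u in Ioc (0 : ℝ) 1, |u * Er lam c r c₀ u| := by fun_prop
      have := this.tendsto 0
      rw [zero_mul] at this
      exact this.mono_left nhdsWithin_le_nhds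
    refine squeeze_zero_norm' ?_ hM
    filter_upwards [self_mem_nhdsWithin] with ε hε
    have hε0 : (0 : ℝ) < ε := hε
    rw [norm_mul, Complex.norm_real, Real.norm_of_nonneg hε0.le]
    refine mul_le_mul_of_nonneg_left ?_ hε0.le
    refine (norm_integral_le_integral_norm _).trans ?_
    have hre : ((ε : ℂ) + (x : ℂ) * Complex.I).re = ε := by simp
    refine integral_mono_of_nonneg (Eventually.of_forall fun u => norm_nonneg _) hloc.abs ?_
    filter_upwards [ae_restrict_mem measurableSet_Ioc] with u hu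
    rw [norm_mul, norm_e, Complex.norm_real, Real.norm_eq_abs, hre]
    have h1 : Real.exp (-(ε * u)) ≤ 1 := by
      rw [Real.exp_le_one_iff]
      have := mul_nonneg hε0.le hu.1.le
      linarith
    calc |u * Er lam c r c₀ u| * Real.exp (-(ε * u)) ≤ |u * Er lam c r c₀ u| * 1 :=
          mul_le_mul_of_nonneg_left h1 (abs_nonneg _)
      _ = _ := mul_one _
  -- the whole
  have hmain : Tendsto (fun ε : ℝ => (ε : ℂ) * lapC (fun u => u * Er lam c r c₀ u)
      ((ε : ℂ) + (x : ℂ) * Complex.I)) (𝓝[>] 0) (𝓝 (if x = 0 then 0 else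
        ((analyticOrderNatAt G₀ ((x : ℂ) * Complex.I) : ℝ) - r *
        (if Complex.exp (-((x : ℂ) * Complex.I)) = 1 then 1 else 0)) / ((x : ℂ) * Complex.I))) := by
    rcases eq_or_ne x 0 with hx | hx
    · rw [if_pos hx]
      have h1 := coef_zero E r c₀ hr hsq
      have h2 := (Complex.continuous_ofReal.tendsto _).comp h1
      rw [Complex.ofReal_zero] at h2
      refine h2.congr fun ε => ?_
      simp only [Function.comp_apply]
      rw [hx, Complex.ofReal_zero, zero_mul, add_zero, lapC_ofReal, Complex.ofReal_mul]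
    · rw [if_neg hx]
      exact coef_ne E r c₀ hsq hx
  have htot := (hmain.sub hsmall).add ((saw_coef x).const_mul (r : ℂ))
  have e : (if x = 0 then 0 else
        ((analyticOrderNatAt G₀ ((x : ℂ) * Complex.I) : ℝ) - r *
        (if Complex.exp (-((x : ℂ) * Complex.I)) = 1 then (1 : ℂ) else 0)) / ((x : ℂ) * Complex.I)) - 0 +
      (r : ℂ) * (if x = 0 then 0 else (if Complex.exp (-((x : ℂ) * Complex.I)) = 1 then 1 else 0) /
      ((x : ℂ) * Complex.I)) = (if x = 0 then 0 else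
      ((analyticOrderNatAt G₀ ((x : ℂ) * Complex.I) : ℝ) : ℂ) / ((x : ℂ) * Complex.I)) := by
    split_ifs
    · simp
    · push_cast
      ring
    · push_cast
      ring
  rw [e] at htot
  refine htot.congr' ?_
  filter_upwards [self_mem_nhdsWithin] with ε hε
  have hε0 : (0 : ℝ) < ε := hε
  have hs : 0 < ((ε : ℂ) + (x : ℂ) * Complex.I).re := by simpa using hε0
  have i0 : IntegrableOn (fun u : ℝ => ((u * Er lam c r c₀ u : ℝ) : ℂ) *
      Complex.exp (-(((ε : ℂ) + (x : ℂ) * Complex.I) * (u : ℂ)))) (Ioi 0) := int_cx m2 (hint2 _ hs)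
  have i1 : IntegrableOn (fun u : ℝ => ((u * Er lam c r c₀ u : ℝ) : ℂ) *
      Complex.exp (-(((ε : ℂ) + (x : ℂ) * Complex.I) * (u : ℂ)))) (Ioi 1) :=
    i0.mono_set (Ioi_subset_Ioi zero_le_one)
  have i2 : IntegrableOn (fun u : ℝ => (saw u : ℂ) *
      Complex.exp (-(((ε : ℂ) + (x : ℂ) * Complex.I) * (u : ℂ)))) (Ioi 1) := int_cx saw_meas (saw_int hs 1)
  have h1 : lapC (fun u => u * Er lam c r c₀ u) ((ε : ℂ) + (x : ℂ) * Complex.I) =
      (∫ u in Ioc (0 : ℝ) 1, ((u * Er lam c r c₀ u : ℝ) : ℂ) *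
        Complex.exp (-(((ε : ℂ) + (x : ℂ) * Complex.I) * (u : ℂ)))) +
      ∫ u in Ioi (1 : ℝ), ((u * Er lam c r c₀ u : ℝ) : ℂ) *
        Complex.exp (-(((ε : ℂ) + (x : ℂ) * Complex.I) * (u : ℂ))) := by
    unfold lapC
    rw [← Ioc_union_Ioi_eq_Ioi (show (0 : ℝ) ≤ 1 by norm_num), setIntegral_union
      (Ioc_disjoint_Ioi le_rfl) measurableSet_Ioi (i0.mono_set Ioc_subset_Ioi_self) i1]
  have h2 : ∫ u in Ioi (1 : ℝ), (ph lam c r q u : ℂ) *
        Complex.exp (-(((ε : ℂ) + (x : ℂ) * Complex.I) * (u : ℂ))) =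
      (∫ u in Ioi (1 : ℝ), ((u * Er lam c r c₀ u : ℝ) : ℂ) *
        Complex.exp (-(((ε : ℂ) + (x : ℂ) * Complex.I) * (u : ℂ)))) +
      (r : ℂ) * ∫ u in Ioi (1 : ℝ), (saw u : ℂ) *
        Complex.exp (-(((ε : ℂ) + (x : ℂ) * Complex.I) * (u : ℂ))) := by
    rw [← integral_const_mul, ← integral_add i1 (i2.const_mul _)]
    refine integral_congr_ae (Eventually.of_forall fun u => ?_)
    simp only
    unfold ph
    push_cast
    ring
  rw [h1, h2]
  ring

/-- bounded deviations bound the sums over the zeros -/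
theorem sums (E : Cn lam c δ σ G₀ g k p κ η C) (hne : ∀ s : ℂ, 0 < s.re → G₀ s ≠ 0) {r q : ℝ}
    (hr : (p : ℝ) = k + r) (hq : g 0 = Real.exp (r * Real.eulerMascheroniConstant - q))
    (heven : ∀ x : ℝ, analyticOrderNatAt G₀ (((-x : ℝ) : ℂ) * Complex.I) =
      analyticOrderNatAt G₀ ((x : ℂ) * Complex.I)) {τ B : ℝ} (hτ : τ = 1 ∨ τ = -1)
    (hB : ∀ᶠ u : ℝ in atTop, τ * (u * (Sh lam c u - r * Real.log u - q)) ≤ B)
    (J : Finset ℝ) (hJ : ∀ x ∈ J, 0 < x) {w : ℝ} (hw : 0 < w) :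
    ∑ x ∈ J, (analyticOrderNatAt G₀ ((x : ℂ) * Complex.I) : ℝ) * (2 * w / (w ^ 2 + x ^ 2)) ≤ B + 3 * |r| := by
  obtain ⟨h1, h2⟩ := coef E hne hr hq
  have D := E.D
  have hτ1 : |τ| = 1 := by
    rcases hτ with h | h <;> rw [h] <;> simp
  refine t_abel t_kernel (fun u => τ * ph lam c r q u)
    (fun x => (analyticOrderNatAt G₀ ((x : ℂ) * Complex.I) : ℝ)) τ (B + 3 * |r|) hτ (fun ε hε => ?_)
    (fun x => Nat.cast_nonneg _) (fun x => ?_) (fun x => ?_) ?_ J hJ w hw
  · refine ((h1 ε hε).const_mul τ).congr (Eventually.of_forall fun u => ?_)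
    ring
  · rw [heven]
  · have h3 := (h2 x).const_mul (τ : ℂ)
    have e : (τ : ℂ) * (if x = 0 then 0 else
      ((analyticOrderNatAt G₀ ((x : ℂ) * Complex.I) : ℝ) : ℂ) / ((x : ℂ) * Complex.I)) =
      (if x = 0 then 0 else (τ : ℂ) * ((analyticOrderNatAt G₀ ((x : ℂ) * Complex.I) : ℝ) : ℂ) /
        ((x : ℂ) * Complex.I)) := by
      split_ifs
      · simp
      · ring
    rw [e] at h3
    refine h3.congr fun ε => ?_
    rw [mul_left_comm, ← integral_const_mul]
    congr 1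
    refine integral_congr_ae (Eventually.of_forall fun u => ?_)
    simp only
    push_cast
    ring
  · filter_upwards [hB, eventually_ge_atTop 1] with u h3 h4
    have hu0 : 0 < u := by linarith
    have h5 := cmp D r q h4
    have h6 : |ph lam c r q u - u * (Sh lam c u - r * Real.log u - q)| ≤ 3 * |r| := by
      have e1 : ph lam c r q u - u * (Sh lam c u - r * Real.log u - q) =
          u * (Er lam c r (q - r * Real.eulerMascheroniConstant) u - (Sh lam c u - r * Real.log u - q)) +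
            r * saw u := by
        unfold ph
        ring
      rw [e1]
      refine (abs_add_le _ _).trans ?_
      rw [abs_mul, abs_mul, abs_of_pos hu0]
      have e2 : u * |Er lam c r (q - r * Real.eulerMascheroniConstant) u - (Sh lam c u - r * Real.log u - q)| ≤
          u * (2 * |r| / u) := mul_le_mul_of_nonneg_left h5 hu0.le
      have e3 : u * (2 * |r| / u) = 2 * |r| := by field_simp
      have e4 : |r| * |saw u| ≤ |r| * (1 / 2) := mul_le_mul_of_nonneg_left (saw_le u) (abs_nonneg _)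
      have := abs_nonneg r
      linarith
    have h7 : |τ * (ph lam c r q u - u * (Sh lam c u - r * Real.log u - q))| ≤ 3 * |r| := by
      rw [abs_mul, hτ1, one_mul]
      exact h6
    have h8 := (abs_le.1 h7).2
    have h9 : τ * ph lam c r q u = τ * (u * (Sh lam c u - r * Real.log u - q)) +
        τ * (ph lam c r q u - u * (Sh lam c u - r * Real.log u - q)) := by ring
    rw [h9]
    linarith

end Pool.Agent.NH98.RT
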