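import Mathlib

/-! # Laplace transforms: the derivative, and the transform of the sawtooth function -/

set_option autoImplicit false

open MeasureTheory Filter Topology Set

namespace Pool.Agent.NH98.RT.Tool

theorem u_exp {w u : ℝ} (hw : 0 < w) : u * Real.exp (-(w * u)) ≤ 2 / w * Real.exp (-(w / 2 * u)) := by
  have h1 : w / 2 * u + 1 ≤ Real.exp (w / 2 * u) := Real.add_one_le_exp _
  have h2 : u ≤ 2 / w * Real.exp (w / 2 * u) := by
    rw [div_mul_eq_mul_div, le_div_iff₀ hw]
    linarith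
  have h3 : Real.exp (w / 2 * u) * Real.exp (-(w * u)) = Real.exp (-(w / 2 * u)) := by
    rw [← Real.exp_add]
    congr 1
    ring
  calc u * Real.exp (-(w * u)) ≤ 2 / w * Real.exp (w / 2 * u) * Real.exp (-(w * u)) :=
        mul_le_mul_of_nonneg_right h2 (Real.exp_pos _).le
    _ = _ := by rw [mul_assoc, h3]

theorem int_mul {f : ℝ → ℝ} (hf : Measurable f)
    (h : ∀ w : ℝ, 0 < w → IntegrableOn (fun u => f u * Real.exp (-(w * u))) (Ioi 0)) {w : ℝ} (hw : 0 < w) :
    IntegrableOn (fun u => u * f u * Real.exp (-(w * u))) (Ioi 0) := by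
  have h1 := (h (w / 2) (by linarith)).const_mul (2 / w)
  refine Integrable.mono h1 ((measurable_id.mul hf).mul (by fun_prop)).aestronglyMeasurable ?_
  filter_upwards [ae_restrict_mem measurableSet_Ioi] with u hu
  have hu0 : 0 < u := hu
  have h2 := u_exp (u := u) hw
  rw [norm_mul, norm_mul, norm_mul, norm_mul, Real.norm_of_nonneg (Real.exp_pos _).le,
    Real.norm_of_nonneg (Real.exp_pos _).le, Real.norm_of_nonneg hu0.le,
    Real.norm_of_nonneg (by positivity : 0 ≤ 2 / w)]
  calc u * ‖f u‖ * Real.exp (-(w * u)) = ‖f u‖ * (u * Real.exp (-(w * u))) := by ring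
    _ ≤ ‖f u‖ * (2 / w * Real.exp (-(w / 2 * u))) := mul_le_mul_of_nonneg_left h2 (norm_nonneg _)
    _ = _ := by ring

theorem norm_e (z : ℂ) (u : ℝ) : ‖Complex.exp (-(z * u))‖ = Real.exp (-(z.re * u)) := by
  rw [Complex.norm_exp]
  congr 1
  simp

theorem int_cx {f : ℝ → ℝ} (hf : Measurable f) {S : Set ℝ} {s : ℂ}
    (h : IntegrableOn (fun u => f u * Real.exp (-(s.re * u))) S) :
    IntegrableOn (fun u : ℝ => (f u : ℂ) * Complex.exp (-(s * u))) S := by
  refine Integrable.mono h ((Complex.measurable_ofReal.comp hf).mul (by fun_prop)).aestronglyMeasurable ?_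
  refine Eventually.of_forall fun u => ?_
  rw [norm_mul, norm_mul, norm_e, Complex.norm_real, Real.norm_of_nonneg (Real.exp_pos _).le]

/-- the derivative of a Laplace transform -/
theorem hasDeriv {f : ℝ → ℝ} (hf : Measurable f)
    (h : ∀ w : ℝ, 0 < w → IntegrableOn (fun u => f u * Real.exp (-(w * u))) (Ioi 0)) {s : ℂ} (hs : 0 < s.re) :
    HasDerivAt (fun z : ℂ => ∫ u in Ioi (0 : ℝ), (f u : ℂ) * Complex.exp (-(z * u)))
      (-∫ u in Ioi (0 : ℝ), ((u * f u : ℝ) : ℂ) * Complex.exp (-(s * u))) s := by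
  set r : ℝ := s.re / 2 with hr
  have hr0 : 0 < r := by rw [hr]; linarith
  have hball : Metric.ball s r ∈ 𝓝 s := Metric.ball_mem_nhds s hr0
  have hre : ∀ z ∈ Metric.ball s r, r ≤ z.re := by
    intro z hz
    have h1 : |(z - s).re| ≤ ‖z - s‖ := Complex.abs_re_le_norm _
    rw [Metric.mem_ball, dist_eq_norm] at hz
    rw [Complex.sub_re] at h1
    have := abs_le.1 (h1.trans hz.le)
    linarith [this.1]
  have key := hasDerivAt_integral_of_dominated_loc_of_deriv_le (μ := volume.restrict (Ioi (0 : ℝ)))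
    (F := fun (z : ℂ) (u : ℝ) => (f u : ℂ) * Complex.exp (-(z * u)))
    (F' := fun (z : ℂ) (u : ℝ) => -(((u * f u : ℝ) : ℂ) * Complex.exp (-(z * u))))
    (bound := fun u => ‖u * f u * Real.exp (-(r * u))‖) hball
    (Eventually.of_forall fun z =>
      ((Complex.measurable_ofReal.comp hf).mul (by fun_prop)).aestronglyMeasurable)
    (int_cx hf (h _ hs))
    (((Complex.measurable_ofReal.comp (measurable_id.mul hf)).mul (by fun_prop)).neg.aestronglyMeasurable)
    ?_ (int_mul hf h hr0).norm ?_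
  · have h2 := key.2
    rw [integral_neg] at h2
    exact h2
  · filter_upwards [ae_restrict_mem measurableSet_Ioi] with u hu z hz
    have hu0 : 0 < u := hu
    rw [norm_neg, norm_mul, norm_e, norm_mul, Complex.norm_real, Real.norm_of_nonneg (Real.exp_pos _).le]
    refine mul_le_mul_of_nonneg_left (Real.exp_le_exp.2 ?_) (norm_nonneg _)
    have := mul_le_mul_of_nonneg_right (hre z hz) hu0.le
    linarith
  · refine Eventually.of_forall fun u z hz => ?_
    have h1 : HasDerivAt (fun z : ℂ => Complex.exp (-(z * u))) (Complex.exp (-(z * u)) * (-(1 * u))) z :=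
      (((hasDerivAt_id z).mul_const (u : ℂ)).neg).cexp
    refine (h1.const_mul (f u : ℂ)).congr_deriv ?_
    push_cast
    ring

/-! ### the sawtooth function -/

/-- `1/2 - {u}` -/
noncomputable def saw (u : ℝ) : ℝ := 1 / 2 - Int.fract u

theorem saw_meas : Measurable saw := by
  unfold saw
  fun_prop

theorem saw_le (u : ℝ) : |saw u| ≤ 1 / 2 := by
  unfold saw
  have h1 := Int.fract_nonneg u
  have h2 := (Int.fract_lt_one u).le
  rw [abs_le]
  constructor <;> linarith

theorem saw_int {w : ℝ} (hw : 0 < w) (c : ℝ) :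
    IntegrableOn (fun u => saw u * Real.exp (-(w * u))) (Ioi c) := by
  have h1 : IntegrableOn (fun u : ℝ => Real.exp (-w * u)) (Ioi c) := integrableOn_exp_mul_Ioi (by linarith) c
  refine Integrable.mono h1 (saw_meas.mul (by fun_prop)).aestronglyMeasurable
    (Eventually.of_forall fun u => ?_)
  rw [norm_mul, Real.norm_of_nonneg (Real.exp_pos _).le, Real.norm_of_nonneg (Real.exp_pos _).le,
    Real.norm_eq_abs, neg_mul]
  calc |saw u| * Real.exp (-(w * u)) ≤ 1 * Real.exp (-(w * u)) :=
        mul_le_mul_of_nonneg_right ((saw_le u).trans (by norm_num)) (Real.exp_pos _).le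
    _ = _ := one_mul _

/-- the transform of the sawtooth function -/
theorem saw_tr {s : ℂ} (hs : 0 < s.re) :
    (∫ u in Ioi (1 : ℝ), (saw u : ℂ) * Complex.exp (-(s * u))) * (1 - Complex.exp (-s)) =
      Complex.exp (-s) * ∫ v in (0 : ℝ)..1, ((1 / 2 - v : ℝ) : ℂ) * Complex.exp (-(s * v)) := by
  have hi : IntegrableOn (fun u : ℝ => (saw u : ℂ) * Complex.exp (-(s * u))) (Ioi 1) :=
    int_cx saw_meas (saw_int hs 1)
  have h0 : ∫ u in Ioi (1 : ℝ), (saw u : ℂ) * Complex.exp (-(s * u)) =
      (∫ u in Ioc (1 : ℝ) 2, (saw u : ℂ) * Complex.exp (-(s * u))) +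
        ∫ u in Ioi (2 : ℝ), (saw u : ℂ) * Complex.exp (-(s * u)) := by
    rw [← Ioc_union_Ioi_eq_Ioi (show (1 : ℝ) ≤ 2 by norm_num), setIntegral_union
      (Ioc_disjoint_Ioi le_rfl) measurableSet_Ioi (hi.mono_set Ioc_subset_Ioi_self)
      (hi.mono_set (Ioi_subset_Ioi (by norm_num)))]
  have h1 : ∫ u in Ioi (2 : ℝ), (saw u : ℂ) * Complex.exp (-(s * u)) =
      Complex.exp (-s) * ∫ u in Ioi (1 : ℝ), (saw u : ℂ) * Complex.exp (-(s * u)) := by
    have e1 := (measurePreserving_add_right volume (1 : ℝ)).setIntegral_preimage_emb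
      (measurableEmbedding_addRight (1 : ℝ)) (fun u : ℝ => (saw u : ℂ) * Complex.exp (-(s * u))) (Ioi 2)
    rw [Set.preimage_add_const_Ioi, show (2 : ℝ) - 1 = 1 by norm_num] at e1
    rw [← e1, ← integral_const_mul]
    refine integral_congr_ae (Eventually.of_forall fun u => ?_)
    simp only
    have e2 : saw (u + 1) = saw u := by
      unfold saw
      rw [Int.fract_add_one]
    rw [e2]
    have e3 : Complex.exp (-(s * ((u + 1 : ℝ) : ℂ))) = Complex.exp (-s) * Complex.exp (-(s * u)) := by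
      rw [← Complex.exp_add]
      congr 1
      push_cast
      ring
    rw [e3]
    ring
  have h2 : ∫ u in Ioc (1 : ℝ) 2, (saw u : ℂ) * Complex.exp (-(s * u)) =
      Complex.exp (-s) * ∫ v in (0 : ℝ)..1, ((1 / 2 - v : ℝ) : ℂ) * Complex.exp (-(s * v)) := by
    rw [← intervalIntegral.integral_of_le (by norm_num : (1 : ℝ) ≤ 2)]
    have e1 := intervalIntegral.integral_comp_add_right
      (fun u : ℝ => (saw u : ℂ) * Complex.exp (-(s * u))) (a := 0) (b := 1) 1
    rw [zero_add, show (1 : ℝ) + 1 = 2 by norm_num] at e1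
    rw [← e1, ← intervalIntegral.integral_const_mul]
    refine intervalIntegral.integral_congr_ae ?_
    have hae : ∀ᵐ x : ℝ, x ≠ 1 := by
      rw [ae_iff]
      simp
    filter_upwards [hae] with x hx1 hx
    rw [uIoc_of_le (by norm_num)] at hx
    have hlt : x < 1 := lt_of_le_of_ne hx.2 hx1
    have e2 : saw (x + 1) = 1 / 2 - x := by
      unfold saw
      rw [Int.fract_add_one, Int.fract_eq_self.2 ⟨hx.1.le, hlt⟩]
    rw [e2]
    have e3 : Complex.exp (-(s * ((x + 1 : ℝ) : ℂ))) = Complex.exp (-s) * Complex.exp (-(s * x)) := by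
      rw [← Complex.exp_add]
      congr 1
      push_cast
      ring
    rw [e3]
    ring
  rw [mul_sub, mul_one]
  nth_rewrite 1 [h0]
  rw [h1, h2]
  ring

end Pool.Agent.NH98.RT.Tool
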